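import Pool.Agent.Work.MP_66c627_co.FMain

/-! The contradiction, last part. -/

set_option autoImplicit false

namespace Pool.MP_66c627_co.Full

/-- the sum of all group elements -/
noncomputable def NN (t : ℕ) [NeZero t] : GR (ZMod t) := ∑ c : ZMod t, AddMonoidAlgebra.single c 1

theorem NN_mul (t : ℕ) [NeZero t] (z : GR (ZMod t)) :
    NN t * z = AddMonoidAlgebra.single 0 (aug z) * NN t := by
  induction z using AddMonoidAlgebra.induction_linear with
  | zero => simp
  | add x y hx hy =>
    rw [mul_add, hx, hy, map_add, AddMonoidAlgebra.single_add, add_mul]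
  | single x a =>
    rw [aug_single, NN, Finset.sum_mul, Finset.mul_sum]
    simp_rw [AddMonoidAlgebra.single_mul_single, one_mul, mul_one, zero_add]
    exact Equiv.sum_comp (Equiv.addRight x) (fun c => (AddMonoidAlgebra.single c a : GR (ZMod t)))

theorem eq_NN (t : ℕ) [NeZero t] (l : GaussianInt) (x : GR (ZMod t))
    (h : ∀ c : ZMod t, l ∣ x.coeff c - 1) :
    ∃ m : GR (ZMod t), x = NN t + AddMonoidAlgebra.single 0 l * m := by
  choose m hm using h
  refine ⟨∑ c : ZMod t, AddMonoidAlgebra.single c (m c), ?_⟩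
  have h1 : x = ∑ c : ZMod t, AddMonoidAlgebra.single c (x.coeff c) := by
    rw [← AddMonoidAlgebra.coeff_inj]
    ext1 d
    rw [AddMonoidAlgebra.coeff_sum, Finsupp.finsetSum_apply]
    simp [Finsupp.single_apply]
  rw [h1, NN, Finset.mul_sum, ← Finset.sum_add_distrib]
  refine Finset.sum_congr rfl fun c _ => ?_
  rw [AddMonoidAlgebra.single_mul_single, zero_add, ← AddMonoidAlgebra.single_add]
  congr 1
  have := hm c
  linear_combination this

theorem odd_fiber (t : ℕ) [NeZero t] (ho : Odd t) :
    ∃ n : ℕ, Odd n ∧ kap (red t 1) (push t (NN t)) = (n : GaussianInt) := by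
  classical
  refine ⟨(Finset.univ.filter fun c : ZMod t => red t c = red t 1).card, ?_, ?_⟩
  · have h1 : (Finset.univ.filter fun c : ZMod t => red t c = red t 1).card =
        Nat.card (red t).ker := by
      rw [Nat.card_eq_fintype_card, ← Fintype.card_subtype]
      apply Fintype.card_congr
      refine ⟨fun c => ⟨c.1 - 1, ?_⟩, fun c => ⟨c.1 + 1, ?_⟩, fun c => ?_, fun c => ?_⟩
      · rw [AddMonoidHom.mem_ker, map_sub, c.2, sub_self]
      · have := c.2
        rw [AddMonoidHom.mem_ker] at this
        rw [map_add, this, zero_add]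
      · ext; simp
      · ext; simp
    rw [h1]
    have h2 : Nat.card (red t).ker ∣ Nat.card (ZMod t) := AddSubgroup.card_addSubgroup_dvd_card _
    rw [Nat.card_zmod] at h2
    exact Odd.of_dvd_nat ho h2
  · rw [NN, map_sum, map_sum]
    simp_rw [push_single, kap_single]
    rw [Finset.sum_ite, Finset.sum_const_zero, add_zero, Finset.sum_const, nsmul_eq_mul, mul_one]

theorem prFin (hL : S_Loc) : S_Fin := by
  intro t _ ht ho l n Y W w hl hY hW hw hs
  obtain ⟨m, hm⟩ := eq_NN t l (∑ j, w j) hs
  have h1 : l ∣ kap (red t 1) (push t ((∑ j, w j) * cj (ZMod t) Y)) := by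
    rw [Finset.sum_mul, map_sum, map_sum]
    exact Finset.dvd_sum fun j _ => first_order hL t ht ho l hl Y (W j) (w j) hY (hW j) (hw j)
  obtain ⟨k, hk, hk2⟩ := odd_fiber t ho
  have h2 : kap (red t 1) (push t ((∑ j, w j) * cj (ZMod t) Y)) =
      star (aug Y) * k + l * kap (red t 1) (push t (m * cj (ZMod t) Y)) := by
    rw [hm, add_mul, NN_mul, aug_cj, map_add, map_mul, push_single, map_zero, map_add, kap_smul,
      hk2, mul_assoc, map_mul, push_single, map_zero, kap_smul]
  rw [h2] at h1
  have h3 : l ∣ star (aug Y) * k := (dvd_add_left (dvd_mul_right _ _)).mp h1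
  have h4 : aug Y * star (aug Y) = (t : GaussianInt) := by
    rw [← aug_cj, ← map_mul, hY, map_natCast]
  have h5 : Zsqrtd.norm (star (aug Y)) = (t : ℤ) := by
    apply norm_of_mul_star
    rw [star_star, mul_comm]
    exact h4
  refine not_dvd_odd l hl _ ?_ h3
  rw [Zsqrtd.norm_mul, h5, Zsqrtd.norm_natCast]
  have hk' : Odd (k : ℤ) := by exact_mod_cast hk
  have ht' : Odd (t : ℤ) := by exact_mod_cast ho
  exact ht'.mul (hk'.mul hk')

end Pool.MP_66c627_co.Full
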