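import Mathlib

/-! Definitions and statements for the full theorem: the level of the radical. -/

set_option autoImplicit false

namespace Pool.MP_66c627_co.Full

/-- the product of the groups `ZMod p`, `p` a prime factor of `t` -/
abbrev Gam (t : ℕ) : Type := (p : t.primeFactors) → ZMod (p : ℕ)

/-- group rings over the Gaussian integers -/
abbrev GR (M : Type*) [AddCommGroup M] : Type _ := AddMonoidAlgebra GaussianInt M

/-- the conjugation `sum a_g [g] -> sum (star a_g) [-g]` -/
noncomputable def cj (M : Type*) [AddCommGroup M] : GR M →+* GR M :=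
  (AddMonoidAlgebra.mapDomainRingHom GaussianInt (negAddMonoidHom : M →+ M)).comp
    (AddMonoidAlgebra.mapRingHom M (starRingEnd GaussianInt))

/-- reduction -/
def red (t : ℕ) : ZMod t →+ Gam t where
  toFun x := fun p => ZMod.castHom (Nat.dvd_of_mem_primeFactors p.2) (ZMod (p : ℕ)) x
  map_zero' := by ext p; exact map_zero _
  map_add' x y := by ext p; exact map_add _ x y

/-- set the coordinate `p` to `0` -/
def kill (t : ℕ) (p : t.primeFactors) : Gam t →+ Gam t where
  toFun x := Function.update x p 0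
  map_zero' := by
    ext q
    by_cases h : q = p
    · subst h; simp
    · simp [Function.update_of_ne h]
  map_add' x y := by
    ext q
    by_cases h : q = p
    · subst h; simp
    · simp [Function.update_of_ne h]

/-- push forward to the level of the radical -/
noncomputable def push (t : ℕ) : GR (ZMod t) →+* GR (Gam t) :=
  AddMonoidAlgebra.mapDomainRingHom GaussianInt (red t)

/-- conjugation after killing the coordinate `p` -/
noncomputable def cp (t : ℕ) (p : t.primeFactors) : GR (Gam t) →+* GR (Gam t) :=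
  (cj (Gam t)).comp (AddMonoidAlgebra.mapDomainRingHom GaussianInt (kill t p))

/-- LOC: from `global_factor`. -/
def S_Loc : Prop := ∀ (t : ℕ) [NeZero t], Odd t → ∀ (Y : GR (ZMod t)),
  Y * cj (ZMod t) Y = (t : GR (ZMod t)) → ∀ p : t.primeFactors,
    (((p : ℕ) : GR (Gam t)) ^ (t.factorization p)) ∣ push t Y * cp t p (push t Y)

/-- RED: from a symmetric cocyclic Hadamard matrix to elements of the group ring of `ZMod t`. -/
def S_Red : Prop := ∀ (t : ℕ) [NeZero t], Odd t →
  ∀ ψ : (ZMod 2 × ZMod 2 × ZMod t) → (ZMod 2 × ZMod 2 × ZMod t) → ℤ,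
    (∀ g h, ψ g h = 1 ∨ ψ g h = -1) →
    ψ 0 0 = 1 →
    (∀ g h k, ψ g h * ψ (g + h) k = ψ g (h + k) * ψ h k) →
    Matrix.of ψ * Matrix.transpose (Matrix.of ψ) =
      (4 * (t : ℤ)) • (1 : Matrix (ZMod 2 × ZMod 2 × ZMod t) (ZMod 2 × ZMod 2 × ZMod t) ℤ) →
    (∀ g h, ψ g h = ψ h g) →
    ∃ (l : GaussianInt) (n : ℕ) (Y : GR (ZMod t)) (W w : Fin n → GR (ZMod t)),
      (l = ⟨1, 1⟩ ∨ l = 2) ∧ Y * cj (ZMod t) Y = (t : GR (ZMod t)) ∧
      (∀ j, W j * cj (ZMod t) (W j) = (t : GR (ZMod t))) ∧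
      (∀ j, W j = Y + AddMonoidAlgebra.single 0 l * w j) ∧
      ∀ c : ZMod t, l ∣ (∑ j, w j).coeff c - 1

/-- MAIN: the contradiction. -/
def S_Fin : Prop := ∀ (t : ℕ) [NeZero t], 1 < t → Odd t →
  ∀ (l : GaussianInt) (n : ℕ) (Y : GR (ZMod t)) (W w : Fin n → GR (ZMod t)),
      (l = ⟨1, 1⟩ ∨ l = 2) → Y * cj (ZMod t) Y = (t : GR (ZMod t)) →
      (∀ j, W j * cj (ZMod t) (W j) = (t : GR (ZMod t))) →
      (∀ j, W j = Y + AddMonoidAlgebra.single 0 l * w j) →
      (∀ c : ZMod t, l ∣ (∑ j, w j).coeff c - 1) → False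

end Pool.MP_66c627_co.Full
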