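import Pool.Agent.Work.MP_66c627_co.Grp
import Pool.Agent.Work.MP_66c627_co.FDefs

/-! The local input: divisibility of `V * cp V` by `p^k`. -/

namespace Pool.MP_66c627_co.Pw

open Polynomial

section main

variable {H : Type*} [AddCommGroup H] [Fintype H] [DecidableEq H]

theorem prod_dvd (p : ℕ) (hp : p.Prime) (e : ℕ) (he : ∀ h : H, e • h = 0) (h4 : 4 ∣ e)
    (hpe : Nat.Coprime p e) (n : ℕ) [NeZero (p ^ (n + 1))] (f : ZMod (p ^ (n + 1)) → H → GaussianInt)
    (v : ℕ) (hv : Nat.Coprime p v)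
    (hAC : ∀ (s : ZMod (p ^ (n + 1))) (h0 : H), ∑ a, ∑ h, f (a + s) (h + h0) * star (f a h) =
      if s = 0 ∧ h0 = 0 then ((p ^ (n + 1) * v : ℕ) : GaussianInt) else 0) (c c' : ZMod p) :
    ((p : AddMonoidAlgebra GaussianInt H) ^ (n + 1)) ∣
      (∑ h, AddMonoidAlgebra.single h (dd p f c h)) *
        (∑ h, AddMonoidAlgebra.single (-h) (star (dd p f c' h))) := by
  -- the Frobenius exponent
  have hepos : 0 < e := by
    rcases Nat.eq_zero_or_pos e with h | h
    · subst h
      rw [Nat.coprime_zero_right] at hpe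
      exact absurd hpe hp.one_lt.ne'
    · exact h
  have hmod : p ^ (Nat.totient e) ≡ 1 [MOD e] := Nat.ModEq.pow_totient hpe
  have hge : 1 ≤ p ^ (Nat.totient e) := Nat.one_le_pow _ _ hp.pos
  obtain ⟨j, hj⟩ := (Nat.modEq_iff_dvd' hge).mp hmod.symm
  have hq : p ^ (Nat.totient e) = e * j + 1 := by omega
  have hq2 : 2 ≤ p ^ (Nat.totient e) := by
    have h1 : 0 < Nat.totient e := Nat.totient_pos.mpr hepos
    calc 2 ≤ p := hp.two_le
      _ = p ^ 1 := (pow_one p).symm
      _ ≤ p ^ (Nat.totient e) := Nat.pow_le_pow_right hp.pos h1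
  -- v is a unit mod p
  obtain ⟨w, hw⟩ : ∃ w : ℤ, (p : ℤ) ∣ (v : ℤ) * w - 1 := by
    have h1 : IsCoprime (p : ℤ) (v : ℤ) := Nat.isCoprime_iff_coprime.mpr hv
    obtain ⟨a, b, hab⟩ := h1
    exact ⟨b, -a, by linear_combination hab⟩
  set F : (AddMonoidAlgebra GaussianInt H)[X] := ∑ a : ZMod (p ^ (n + 1)), monomial a.val (Bc f a) with hF
  set G : (AddMonoidAlgebra GaussianInt H)[X] :=
    ∑ b : ZMod (p ^ (n + 1)), monomial (p ^ (n + 1) - b.val) (Bs f b) with hG
  have hFG := conv_dvd (p ^ (n + 1)) (Bc f) (Bs f) _ (conv_B f _ hAC)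
  rw [← hF, ← hG] at hFG
  have hcast : (((p ^ (n + 1) * v : ℕ)) : AddMonoidAlgebra GaussianInt H) =
      (p : AddMonoidAlgebra GaussianInt H) ^ (n + 1) * (v : AddMonoidAlgebra GaussianInt H) := by push_cast; ring
  rw [hcast] at hFG
  have hvw : (p : AddMonoidAlgebra GaussianInt H) ∣
      (v : AddMonoidAlgebra GaussianInt H) * (w : AddMonoidAlgebra GaussianInt H) - 1 := by
    obtain ⟨y, hy⟩ := hw
    exact ⟨(y : AddMonoidAlgebra GaussianInt H), by exact_mod_cast congrArg (Int.cast : ℤ → AddMonoidAlgebra GaussianInt H) hy⟩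
  have hmain := global_factor p hp (group_reg p hp) (p ^ (Nat.totient e)) hq2
    (group_frob p hp _ j e he h4 hq) (v : AddMonoidAlgebra GaussianInt H) (w : AddMonoidAlgebra GaussianInt H) hvw n F G
    hFG c (-c')
  -- compute the folds
  have hfF : fold p c F = ∑ h, AddMonoidAlgebra.single h (dd p f c h) := by
    rw [hF, map_sum]
    simp only [fold_monomial]
    have h1 : ∀ h : H, AddMonoidAlgebra.single h (dd p f c h) =
        ∑ a : ZMod (p ^ (n + 1)), AddMonoidAlgebra.single h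
          (if ((a.val : ℕ) : ZMod p) = c then f a h else 0) := by
      intro h
      exact map_sum (AddMonoidAlgebra.singleAddHom h) _ _
    rw [Finset.sum_congr rfl (fun h _ => h1 h), Finset.sum_comm]
    refine Finset.sum_congr rfl fun a _ => ?_
    by_cases ha : ((a.val : ℕ) : ZMod p) = c
    · simp only [if_pos ha]; rfl
    · simp only [if_neg ha, AddMonoidAlgebra.single_zero, Finset.sum_const_zero]
  have hfG : fold p (-c') G = ∑ h, AddMonoidAlgebra.single (-h) (star (dd p f c' h)) := by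
    rw [hG, map_sum]
    simp only [fold_monomial]
    have h1 : ∀ h : H, AddMonoidAlgebra.single (-h) (star (dd p f c' h)) =
        ∑ a : ZMod (p ^ (n + 1)), AddMonoidAlgebra.single (-h)
          (if ((a.val : ℕ) : ZMod p) = c' then star (f a h) else 0) := by
      intro h
      unfold dd
      rw [star_sum]
      have h2 : ∀ a : ZMod (p ^ (n + 1)), star (if ((a.val : ℕ) : ZMod p) = c' then f a h else 0) =
          if ((a.val : ℕ) : ZMod p) = c' then star (f a h) else 0 := by
        intro a; split_ifs <;> simp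
      rw [Finset.sum_congr rfl (fun a _ => h2 a)]
      exact map_sum (AddMonoidAlgebra.singleAddHom (-h)) _ _
    rw [Finset.sum_congr rfl (fun h _ => h1 h), Finset.sum_comm]
    refine Finset.sum_congr rfl fun a _ => ?_
    have hiff : (((p ^ (n + 1) - a.val : ℕ) : ZMod p) = -c') ↔ (((a.val : ℕ) : ZMod p) = c') := by
      have hb : a.val ≤ p ^ (n + 1) := (ZMod.val_lt a).le
      rw [Nat.cast_sub hb]
      have : ((p ^ (n + 1) : ℕ) : ZMod p) = 0 := by
        push_cast
        rw [ZMod.natCast_self, zero_pow (by omega)]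
      rw [this, zero_sub, neg_inj]
    by_cases ha : ((a.val : ℕ) : ZMod p) = c'
    · rw [if_pos (hiff.mpr ha)]; simp only [if_pos ha]; rfl
    · rw [if_neg (fun h => ha (hiff.mp h))]
      simp only [if_neg ha, AddMonoidAlgebra.single_zero, Finset.sum_const_zero]
  rw [hfF, hfG] at hmain
  exact hmain

end main

end Pool.MP_66c627_co.Pw

namespace Pool.MP_66c627_co.Full

open Pool.MP_66c627_co.Pw

theorem cj_single {M : Type*} [AddCommGroup M] (g : M) (z : GaussianInt) :
    cj M (AddMonoidAlgebra.single g z) = AddMonoidAlgebra.single (-g) (star z) := by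
  unfold cj
  simp [starRingEnd_apply]

/-- an element as a sum of its terms -/
theorem sum_single {M : Type*} [AddCommGroup M] [Fintype M] (Y : GR M) :
    Y = ∑ u, AddMonoidAlgebra.single u (Y.coeff u) := by
  classical
  rw [← AddMonoidAlgebra.coeff_inj]
  ext1 g
  rw [AddMonoidAlgebra.coeff_sum, Finsupp.finset_sum_apply, Finset.sum_eq_single g]
  · rw [AddMonoidAlgebra.coeff_single, Finsupp.single_eq_same]
  · intro h _ hne
    rw [AddMonoidAlgebra.coeff_single, Finsupp.single_apply, if_neg hne]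
  · intro h2; exact absurd (Finset.mem_univ _) h2

theorem cj_sum {M : Type*} [AddCommGroup M] [Fintype M] (Y : GR M) :
    cj M Y = ∑ u, AddMonoidAlgebra.single (-u) (star (Y.coeff u)) := by
  conv_lhs => rw [sum_single Y]
  rw [map_sum]
  exact Finset.sum_congr rfl fun u _ => cj_single _ _

/-- autocorrelations -/
theorem ac_of_mul {M : Type*} [AddCommGroup M] [Fintype M] [DecidableEq M] (Y : GR M) (t : ℕ)
    (h : Y * cj M Y = (t : GR M)) (s : M) :
    ∑ u, Y.coeff (u + s) * star (Y.coeff u) = if s = 0 then (t : GaussianInt) else 0 := by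
  have h1 := congrArg (fun z => z.coeff s) h
  have h2 : (Y * cj M Y).coeff s = ∑ u, Y.coeff (u + s) * star (Y.coeff u) := by
    rw [cj_sum, Finset.mul_sum, AddMonoidAlgebra.coeff_sum, Finsupp.finset_sum_apply]
    refine Finset.sum_congr rfl fun u _ => ?_
    rw [AddMonoidAlgebra.coeff_mul_single_eq_coeff_mul (u + s)]
    intro m _
    constructor
    · intro h3; rw [← h3]; abel
    · intro h3; rw [h3]; abel
  rw [← h2]
  have h3 : (Y * cj M Y).coeff s = (t : GR M).coeff s := h1
  rw [h3, AddMonoidAlgebra.coeff_natCast, Finsupp.single_apply]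
  by_cases hs : s = 0
  · subst hs; simp
  · rw [if_neg (fun h4 => hs h4.symm), if_neg hs]

theorem push_single (t : ℕ) (u : ZMod t) (z : GaussianInt) :
    push t (AddMonoidAlgebra.single u z) = AddMonoidAlgebra.single (red t u) z := by
  unfold push; simp

theorem cp_single (t : ℕ) (p : t.primeFactors) (x : Gam t) (z : GaussianInt) :
    cp t p (AddMonoidAlgebra.single x z) = AddMonoidAlgebra.single (-(kill t p x)) (star z) := by
  unfold cp
  rw [RingHom.comp_apply]
  simp only [AddMonoidAlgebra.mapDomainRingHom_apply, AddMonoidAlgebra.mapDomain_single]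
  exact cj_single _ _

section

variable (N m : ℕ) (hc : Nat.Coprime N m)

/-- the embedding of `ZMod N` -/
noncomputable def iN : ZMod N →+ ZMod (N * m) :=
  (ZMod.chineseRemainder hc).symm.toAddMonoidHom.comp (AddMonoidHom.inl (ZMod N) (ZMod m))

/-- the embedding of `ZMod m` -/
noncomputable def im : ZMod m →+ ZMod (N * m) :=
  (ZMod.chineseRemainder hc).symm.toAddMonoidHom.comp (AddMonoidHom.inr (ZMod N) (ZMod m))

theorem crt_split (a : ZMod N) (h : ZMod m) :
    (ZMod.chineseRemainder hc).symm (a, h) = iN N m hc a + im N m hc h := by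
  have : (a, h) = ((a, 0) : ZMod N × ZMod m) + (0, h) := by simp
  rw [this, map_add]
  rfl

theorem cast_iN (q : ℕ) (hq : q ∣ N * m) (hqN : q ∣ N) (a : ZMod N) (h : ZMod m) :
    ZMod.castHom hq (ZMod q) ((ZMod.chineseRemainder hc).symm (a, h)) =
      ZMod.castHom hqN (ZMod q) a := by
  have h1 : ZMod.castHom hq (ZMod q) =
      (ZMod.castHom hqN (ZMod q)).comp ((RingHom.fst (ZMod N) (ZMod m)).comp
        (ZMod.chineseRemainder hc).toRingHom) := Subsingleton.elim _ _
  rw [h1]
  simp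

theorem cast_im (q : ℕ) (hq : q ∣ N * m) (hqm : q ∣ m) (a : ZMod N) (h : ZMod m) :
    ZMod.castHom hq (ZMod q) ((ZMod.chineseRemainder hc).symm (a, h)) =
      ZMod.castHom hqm (ZMod q) h := by
  have h1 : ZMod.castHom hq (ZMod q) =
      (ZMod.castHom hqm (ZMod q)).comp ((RingHom.snd (ZMod N) (ZMod m)).comp
        (ZMod.chineseRemainder hc).toRingHom) := Subsingleton.elim _ _
  rw [h1]
  simp

end

theorem loc_aux (p0 n m : ℕ) (hp : p0.Prime) (hpm : ¬ p0 ∣ m) [NeZero (p0 ^ (n + 1) * m)]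
    (ht : Odd (p0 ^ (n + 1) * m)) (Y : GR (ZMod (p0 ^ (n + 1) * m)))
    (hY : Y * cj (ZMod (p0 ^ (n + 1) * m)) Y =
      ((p0 ^ (n + 1) * m : ℕ) : GR (ZMod (p0 ^ (n + 1) * m))))
    (hp0 : p0 ∈ (p0 ^ (n + 1) * m).primeFactors) :
    (((p0 : ℕ) : GR (Gam (p0 ^ (n + 1) * m))) ^ (n + 1)) ∣
      push (p0 ^ (n + 1) * m) Y * cp (p0 ^ (n + 1) * m) ⟨p0, hp0⟩ (push (p0 ^ (n + 1) * m) Y) := by
  classical
  have hm0 : 0 < m := by
    rcases Nat.eq_zero_or_pos m with h | h
    · subst h; exact absurd (dvd_zero p0) hpm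
    · exact h
  have hmN : NeZero m := ⟨hm0.ne'⟩
  have hpN : NeZero (p0 ^ (n + 1)) := ⟨(pow_pos hp.pos _).ne'⟩
  have hp0N : NeZero p0 := ⟨hp.ne_zero⟩
  have hodd : Odd p0 := by
    have := (Nat.odd_mul.mp ht).1
    rw [Nat.odd_pow_iff (by omega)] at this
    exact this
  have h2 : Nat.Coprime p0 2 := (Nat.coprime_primes hp Nat.prime_two).mpr (by
    rintro rfl
    exact absurd hodd (by decide))
  have hpm' : Nat.Coprime p0 m := (Nat.Prime.coprime_iff_not_dvd hp).mpr hpm
  have hp4m : Nat.Coprime p0 (4 * m) := by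
    apply Nat.Coprime.mul_right _ hpm'
    have := Nat.Coprime.pow_right 2 h2
    simpa using this
  have hcop : Nat.Coprime (p0 ^ (n + 1)) m := Nat.Coprime.pow_left _ hpm'
  let E := ZMod.chineseRemainder hcop
  let f : ZMod (p0 ^ (n + 1)) → ZMod m → GaussianInt := fun a h => Y.coeff (E.symm (a, h))
  have he : ∀ h : ZMod m, (4 * m) • h = 0 := by
    intro h
    rw [mul_smul]
    have : m • h = 0 := by
      rw [nsmul_eq_mul, ZMod.natCast_self, zero_mul]
    rw [this, smul_zero]
  have hAC : ∀ (s : ZMod (p0 ^ (n + 1))) (h0 : ZMod m),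
      ∑ a, ∑ h, f (a + s) (h + h0) * star (f a h) =
      if s = 0 ∧ h0 = 0 then ((p0 ^ (n + 1) * m : ℕ) : GaussianInt) else 0 := by
    intro s h0
    have h1 := ac_of_mul Y _ hY (E.symm (s, h0))
    rw [← Equiv.sum_comp E.symm.toEquiv, Fintype.sum_prod_type] at h1
    have h3 : (E.symm (s, h0) = 0) ↔ (s = 0 ∧ h0 = 0) := by
      rw [EmbeddingLike.map_eq_zero_iff, Prod.mk_eq_zero]
    have h4 : ∀ a h, f (a + s) (h + h0) * star (f a h) =
        Y.coeff (E.symm (a, h) + E.symm (s, h0)) * star (Y.coeff (E.symm (a, h))) := by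
      intro a h
      rw [← map_add]; rfl
    rw [Finset.sum_congr rfl fun a _ => Finset.sum_congr rfl fun h _ => h4 a h]
    by_cases hcc : s = 0 ∧ h0 = 0
    · rw [if_pos hcc]
      rw [if_pos (h3.mpr hcc)] at h1
      exact h1
    · rw [if_neg hcc]
      rw [if_neg (fun h => hcc (h3.mp h))] at h1
      exact h1
  have hprod := fun c c' => prod_dvd p0 hp (4 * m) he (dvd_mul_right 4 m) hp4m n f m hpm' hAC c c'
  -- the homomorphisms
  let jm : ZMod m →+ Gam (p0 ^ (n + 1) * m) := (red (p0 ^ (n + 1) * m)).comp (im _ m hcop)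
  let J : GR (ZMod m) →+* GR (Gam (p0 ^ (n + 1) * m)) := AddMonoidAlgebra.mapDomainRingHom GaussianInt jm
  have hJs : ∀ h z, J (AddMonoidAlgebra.single h z) = AddMonoidAlgebra.single (jm h) z := by
    intro h z; simp [J]
  have hqm : ∀ q : (p0 ^ (n + 1) * m).primeFactors, q ≠ ⟨p0, hp0⟩ → (q : ℕ) ∣ m := by
    intro q hq
    have hq1 : (q : ℕ).Prime := Nat.prime_of_mem_primeFactors q.2
    have hq2 : (q : ℕ) ∣ p0 ^ (n + 1) * m := Nat.dvd_of_mem_primeFactors q.2
    rcases (Nat.Prime.dvd_mul hq1).mp hq2 with h3 | h3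
    · exfalso
      apply hq
      have h4 := hq1.dvd_of_dvd_pow h3
      have h5 := (Nat.prime_dvd_prime_iff_eq hq1 hp).mp h4
      exact Subtype.ext h5
    · exact h3
  have hpN' : p0 ∣ p0 ^ (n + 1) := dvd_pow_self p0 (by omega)
  have hpt0 : p0 ∣ p0 ^ (n + 1) * m := Nat.dvd_of_mem_primeFactors hp0
  -- the value of the reduction
  have hred : ∀ (a : ZMod (p0 ^ (n + 1))) (h : ZMod m), red (p0 ^ (n + 1) * m) (E.symm (a, h)) =
      Pi.single (M := fun q : (p0 ^ (n + 1) * m).primeFactors => ZMod (q : ℕ)) ⟨p0, hp0⟩ (ZMod.castHom hpN' (ZMod p0) a) + jm h := by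
    intro a h
    have e1 : jm h = red (p0 ^ (n + 1) * m) (E.symm (0, h)) := rfl
    rw [e1]
    ext q
    rw [Pi.add_apply]
    by_cases hq : q = ⟨p0, hp0⟩
    · subst hq
      rw [Pi.single_eq_same]
      change ZMod.castHom hpt0 (ZMod p0) (E.symm (a, h)) =
        _ + ZMod.castHom hpt0 (ZMod p0) (E.symm (0, h))
      rw [cast_iN _ _ hcop _ _ hpN', cast_iN _ _ hcop _ _ hpN', map_zero, add_zero]
    · rw [Pi.single_eq_of_ne hq, zero_add]
      change ZMod.castHom (Nat.dvd_of_mem_primeFactors q.2) (ZMod (q : ℕ)) (E.symm (a, h)) =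
        ZMod.castHom (Nat.dvd_of_mem_primeFactors q.2) (ZMod (q : ℕ)) (E.symm (0, h))
      rw [cast_im _ _ hcop _ _ (hqm q hq), cast_im _ _ hcop _ _ (hqm q hq)]
  have hkill : ∀ (a : ZMod (p0 ^ (n + 1))) (h : ZMod m), kill (p0 ^ (n + 1) * m) ⟨p0, hp0⟩ (red (p0 ^ (n + 1) * m) (E.symm (a, h))) = jm h := by
    intro a h
    have e1 : jm h = red (p0 ^ (n + 1) * m) (E.symm (0, h)) := rfl
    rw [e1]
    ext q
    change Function.update (red (p0 ^ (n + 1) * m) (E.symm (a, h))) ⟨p0, hp0⟩ 0 q = _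
    by_cases hq : q = ⟨p0, hp0⟩
    · subst hq
      rw [Function.update_self]
      change (0 : ZMod p0) = ZMod.castHom hpt0 (ZMod p0) (E.symm (0, h))
      rw [cast_iN _ _ hcop _ _ hpN', map_zero]
    · rw [Function.update_of_ne hq]
      change ZMod.castHom (Nat.dvd_of_mem_primeFactors q.2) (ZMod (q : ℕ)) (E.symm (a, h)) =
        ZMod.castHom (Nat.dvd_of_mem_primeFactors q.2) (ZMod (q : ℕ)) (E.symm (0, h))
      rw [cast_im _ _ hcop _ _ (hqm q hq), cast_im _ _ hcop _ _ (hqm q hq)]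
  -- castHom and val
  have hval : ∀ a : ZMod (p0 ^ (n + 1)), ((a.val : ℕ) : ZMod p0) =
      ZMod.castHom hpN' (ZMod p0) a := by
    intro a
    rw [ZMod.natCast_val]; rfl
  have hYsum : Y = ∑ a : ZMod (p0 ^ (n + 1)), ∑ h : ZMod m,
      AddMonoidAlgebra.single (E.symm (a, h)) (f a h) := by
    conv_lhs => rw [sum_single Y]
    rw [← Equiv.sum_comp E.symm.toEquiv, Fintype.sum_prod_type]
    rfl
  have hpush : push (p0 ^ (n + 1) * m) Y = ∑ c : ZMod p0, AddMonoidAlgebra.single (Pi.single (M := fun q : (p0 ^ (n + 1) * m).primeFactors => ZMod (q : ℕ)) ⟨p0, hp0⟩ c) 1 *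
      J (∑ h, AddMonoidAlgebra.single h (dd p0 f c h)) := by
    conv_lhs => rw [hYsum]
    simp only [map_sum, push_single, hJs]
    have h3 : ∀ c : ZMod p0, AddMonoidAlgebra.single (Pi.single (M := fun q : (p0 ^ (n + 1) * m).primeFactors => ZMod (q : ℕ)) ⟨p0, hp0⟩ c) 1 *
        ∑ h, AddMonoidAlgebra.single (jm h) (dd p0 f c h) =
        ∑ a : ZMod (p0 ^ (n + 1)), ∑ h : ZMod m,
          if ((a.val : ℕ) : ZMod p0) = c then
            AddMonoidAlgebra.single (red (p0 ^ (n + 1) * m) (E.symm (a, h))) (f a h) else 0 := by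
      intro c
      rw [Finset.mul_sum, Finset.sum_comm]
      refine Finset.sum_congr rfl fun h _ => ?_
      unfold dd
      have h4 : AddMonoidAlgebra.single (jm h)
          (∑ a : ZMod (p0 ^ (n + 1)), if ((a.val : ℕ) : ZMod p0) = c then f a h else 0) =
          ∑ a : ZMod (p0 ^ (n + 1)), AddMonoidAlgebra.single (jm h)
            (if ((a.val : ℕ) : ZMod p0) = c then f a h else 0) :=
        map_sum (AddMonoidAlgebra.singleAddHom (jm h)) _ _
      rw [h4, Finset.mul_sum]
      refine Finset.sum_congr rfl fun a _ => ?_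
      by_cases ha : ((a.val : ℕ) : ZMod p0) = c
      · rw [if_pos ha, if_pos ha, AddMonoidAlgebra.single_mul_single, one_mul, hred, ← hval, ha]
      · rw [if_neg ha, if_neg ha, AddMonoidAlgebra.single_zero, mul_zero]
    rw [Finset.sum_congr rfl (fun c _ => h3 c)]
    conv_rhs => rw [Finset.sum_comm]
    refine Finset.sum_congr rfl fun a _ => ?_
    rw [Finset.sum_comm]
    refine Finset.sum_congr rfl fun h _ => ?_
    rw [Finset.sum_ite_eq, if_pos (Finset.mem_univ _)]
  have hcp : cp (p0 ^ (n + 1) * m) ⟨p0, hp0⟩ (push (p0 ^ (n + 1) * m) Y) = ∑ c : ZMod p0,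
      J (∑ h, AddMonoidAlgebra.single (-h) (star (dd p0 f c h))) := by
    conv_lhs => rw [hYsum]
    simp only [map_sum, push_single, hJs, cp_single, hkill]
    have h3 : ∀ c : ZMod p0, ∑ h, AddMonoidAlgebra.single (jm (-h)) (star (dd p0 f c h)) =
        ∑ a : ZMod (p0 ^ (n + 1)), ∑ h : ZMod m,
          if ((a.val : ℕ) : ZMod p0) = c then
            AddMonoidAlgebra.single (-(jm h)) (star (f a h)) else 0 := by
      intro c
      rw [Finset.sum_comm]
      refine Finset.sum_congr rfl fun h _ => ?_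
      unfold dd
      rw [star_sum]
      have h4 : AddMonoidAlgebra.single (jm (-h))
          (∑ a : ZMod (p0 ^ (n + 1)),
            star (if ((a.val : ℕ) : ZMod p0) = c then f a h else 0)) =
          ∑ a : ZMod (p0 ^ (n + 1)), AddMonoidAlgebra.single (jm (-h))
            (star (if ((a.val : ℕ) : ZMod p0) = c then f a h else 0)) :=
        map_sum (AddMonoidAlgebra.singleAddHom (jm (-h))) _ _
      rw [h4]
      refine Finset.sum_congr rfl fun a _ => ?_
      by_cases ha : ((a.val : ℕ) : ZMod p0) = c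
      · rw [if_pos ha, if_pos ha, map_neg]
      · rw [if_neg ha, if_neg ha, star_zero, AddMonoidAlgebra.single_zero]
    rw [Finset.sum_congr rfl (fun c _ => h3 c)]
    conv_rhs => rw [Finset.sum_comm]
    refine Finset.sum_congr rfl fun a _ => ?_
    rw [Finset.sum_comm]
    refine Finset.sum_congr rfl fun h _ => ?_
    rw [Finset.sum_ite_eq, if_pos (Finset.mem_univ _)]
  rw [hcp, hpush, Finset.sum_mul_sum]
  apply Finset.dvd_sum
  intro c _
  apply Finset.dvd_sum
  intro c' _
  rw [mul_assoc, ← map_mul]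
  apply Dvd.dvd.mul_left
  obtain ⟨y, hy⟩ := hprod c c'
  rw [hy, map_mul, map_pow, map_natCast]
  exact dvd_mul_right _ _

theorem prLoc : S_Loc := by
  intro t _ ht Y hY p
  have ht0 : t ≠ 0 := NeZero.ne t
  have hp : (p : ℕ).Prime := Nat.prime_of_mem_primeFactors p.2
  have hpt : (p : ℕ) ∣ t := Nat.dvd_of_mem_primeFactors p.2
  obtain ⟨p0, hp0⟩ := p
  simp only at hp hpt ⊢
  obtain ⟨k, m, hpm', htk⟩ := Nat.exists_eq_pow_mul_and_not_dvd ht0 p0 hp.ne_one
  have hk : 0 < k := by
    rcases Nat.eq_zero_or_pos k with h | h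
    · subst h
      rw [pow_zero, one_mul] at htk
      exact absurd (htk ▸ hpt) hpm'
    · exact h
  obtain ⟨n, rfl⟩ : ∃ n, k = n + 1 := ⟨k - 1, by omega⟩
  subst htk
  have hfac : (p0 ^ (n + 1) * m).factorization p0 = n + 1 := by
    have hm0 : m ≠ 0 := by
      rintro rfl
      exact hpm' (dvd_zero p0)
    rw [Nat.factorization_mul (pow_pos hp.pos _).ne' hm0, hp.factorization_pow]
    simp [Nat.factorization_eq_zero_of_not_dvd hpm']
  rw [hfac]
  exact loc_aux p0 n m hp hpm' ht Y hY hp0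

end Pool.MP_66c627_co.Full
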