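import Pool.Agent.Work.MP_66c627_co.Yf
import Pool.Agent.Work.MP_66c627_co.FLoc

/-! From a symmetric cocyclic Hadamard matrix to elements of the group ring of `ZMod t`. -/

namespace Pool.MP_66c627_co.Full

open Pool.MP_66c627_co.Pw

/-- the element with given coefficients -/
noncomputable def mk {M : Type*} [AddCommGroup M] [Fintype M] (F : M → GaussianInt) : GR M :=
  ∑ c, AddMonoidAlgebra.single c (F c)

theorem mk_coeff {M : Type*} [AddCommGroup M] [Fintype M] (F : M → GaussianInt) (c : M) :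
    (mk F).coeff c = F c := by
  classical
  unfold mk
  rw [AddMonoidAlgebra.coeff_sum, Finsupp.finset_sum_apply, Finset.sum_eq_single c]
  · rw [AddMonoidAlgebra.coeff_single, Finsupp.single_eq_same]
  · intro h _ hne
    rw [AddMonoidAlgebra.coeff_single, Finsupp.single_apply, if_neg hne]
  · intro h2; exact absurd (Finset.mem_univ _) h2

theorem mk_mul_cj {M : Type*} [AddCommGroup M] [Fintype M] [DecidableEq M] (F : M → GaussianInt)
    (t : ℕ) (h : ∀ s, ∑ u, F (u + s) * star (F u) = if s = 0 then (t : GaussianInt) else 0) :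
    mk F * cj M (mk F) = (t : GR M) := by
  rw [← AddMonoidAlgebra.coeff_inj]
  ext1 s
  have h2 : (mk F * cj M (mk F)).coeff s = ∑ u, F (u + s) * star (F u) := by
    rw [cj_sum, Finset.mul_sum, AddMonoidAlgebra.coeff_sum, Finsupp.finset_sum_apply]
    refine Finset.sum_congr rfl fun u _ => ?_
    rw [AddMonoidAlgebra.coeff_mul_single_eq_coeff_mul (u + s), mk_coeff, mk_coeff]
    intro m _
    constructor
    · intro h3; rw [← h3]; abel
    · intro h3; rw [h3]; abel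
  rw [h2, h s, AddMonoidAlgebra.coeff_natCast, Finsupp.single_apply]
  by_cases hs : s = 0
  · subst hs; simp
  · rw [if_neg hs, if_neg (fun h4 => hs h4.symm)]

theorem mk_eq {M : Type*} [AddCommGroup M] [Fintype M] (F G w : M → GaussianInt) (l : GaussianInt)
    (h : ∀ c, F c = G c + l * w c) : mk F = mk G + AddMonoidAlgebra.single 0 l * mk w := by
  rw [← AddMonoidAlgebra.coeff_inj]
  ext1 s
  rw [AddMonoidAlgebra.coeff_add, Finsupp.add_apply, AddMonoidAlgebra.coeff_single_zero_mul,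
    mk_coeff, mk_coeff, mk_coeff, h]

/-- division by `1 + i` -/
def dv (d : GaussianInt) : GaussianInt := ⟨(d.re + d.im) / 2, (d.im - d.re) / 2⟩

/-- the value `Y_e` of a column -/
def yv (x0 x1 x2 x3 : GaussianInt) (e : ZMod 2 × ZMod 2) : GaussianInt := half (cb x0 x1 x2 x3 e)

/-- case A -/
def goodA (x0 x1 x2 x3 : GaussianInt) : Prop :=
  (∀ e, yv x0 x1 x2 x3 e = yv x0 x1 x2 x3 (0, 0) +
    2 * half (yv x0 x1 x2 x3 e - yv x0 x1 x2 x3 (0, 0))) ∧
  (half (yv x0 x1 x2 x3 (0, 1) - yv x0 x1 x2 x3 (0, 0)) +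
    half (yv x0 x1 x2 x3 (1, 0) - yv x0 x1 x2 x3 (0, 0)) +
    half (yv x0 x1 x2 x3 (1, 1) - yv x0 x1 x2 x3 (0, 0)) - 1 =
    2 * half (half (yv x0 x1 x2 x3 (0, 1) - yv x0 x1 x2 x3 (0, 0)) +
    half (yv x0 x1 x2 x3 (1, 0) - yv x0 x1 x2 x3 (0, 0)) +
    half (yv x0 x1 x2 x3 (1, 1) - yv x0 x1 x2 x3 (0, 0)) - 1))

instance (x0 x1 x2 x3 : GaussianInt) : Decidable (goodA x0 x1 x2 x3) := by
  unfold goodA; infer_instance

/-- case B -/
def goodB (x0 x1 x2 x3 : GaussianInt) (e : ZMod 2 × ZMod 2) : Prop :=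
  (yv x0 x1 x2 x3 e = yv x0 x1 x2 x3 (0, 0) +
    ⟨1, 1⟩ * dv (yv x0 x1 x2 x3 e - yv x0 x1 x2 x3 (0, 0))) ∧
  (dv (yv x0 x1 x2 x3 e - yv x0 x1 x2 x3 (0, 0)) - 1 =
    ⟨1, 1⟩ * dv (dv (yv x0 x1 x2 x3 e - yv x0 x1 x2 x3 (0, 0)) - 1))

instance (x0 x1 x2 x3 : GaussianInt) (e : ZMod 2 × ZMod 2) : Decidable (goodB x0 x1 x2 x3 e) := by
  unfold goodB; infer_instance

theorem goodA_all : ∀ s0 s1 s2 s3 : Bool,
    goodA (sb s0) (sb s1 * ub true) (sb s2 * ub true) (sb s3 * (ub true * ub true)) := by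
  decide

theorem goodB_all1 : ∀ s0 s1 s2 s3 v : Bool,
    goodB (sb s0) (sb s1 * ub false) (sb s2 * ub v) (sb s3 * (ub false * ub v)) (0, 1) := by
  decide

theorem goodB_all2 : ∀ s0 s1 s2 s3 : Bool,
    goodB (sb s0) (sb s1 * ub true) (sb s2 * ub false) (sb s3 * (ub true * ub false)) (1, 0) := by
  decide

/-- the column in terms of booleans -/
theorem col_bool {t : ℕ} {P : ZMod 2 × ZMod 2 × ZMod t → ℤ} {φ : ZMod 2 × ZMod 2 → GaussianInt}
    (h : Typ t P φ) (u v : Bool) (hu : φ (1, 0) = ub u) (hv : φ (0, 1) = ub v) (c : ZMod t) :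
    ∃ s0 s1 s2 s3 : Bool, fv P φ (0, 0, c) = sb s0 ∧ fv P φ (1, 0, c) = sb s1 * ub u ∧
      fv P φ (0, 1, c) = sb s2 * ub v ∧ fv P φ (1, 1, c) = sb s3 * (ub u * ub v) := by
  obtain ⟨s0, h0⟩ := sb_of _ (h.pm (0, 0, c))
  obtain ⟨s1, h1⟩ := sb_of _ (h.pm (1, 0, c))
  obtain ⟨s2, h2⟩ := sb_of _ (h.pm (0, 1, c))
  obtain ⟨s3, h3⟩ := sb_of _ (h.pm (1, 1, c))
  obtain ⟨s3', h3'⟩ : ∃ s : Bool, fv P φ (1, 1, c) = sb s * (ub u * ub v) := by
    rcases h.f3 with h4 | h4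
    · exact ⟨s3, by unfold fv; simp only [h4, h3, hu, hv]⟩
    · refine ⟨!s3, ?_⟩
      unfold fv
      simp only [h4, h3, hu, hv]
      cases s3 <;> simp [sb]
  refine ⟨s0, s1, s2, s3', ?_, ?_, ?_, h3'⟩
  · unfold fv; simp only [h0, h.f0, mul_one]
  · unfold fv; simp only [h1, hu]
  · unfold fv; simp only [h2, hv]

theorem Yf_yv {t : ℕ} (P : ZMod 2 × ZMod 2 × ZMod t → ℤ) (φ : ZMod 2 × ZMod 2 → GaussianInt)
    (e : ZMod 2 × ZMod 2) (c : ZMod t) : Yf P φ e c =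
      yv (fv P φ (0, 0, c)) (fv P φ (1, 0, c)) (fv P φ (0, 1, c)) (fv P φ (1, 1, c)) e := by
  unfold Yf yv
  rw [comb_cb]

theorem prRed : S_Red := by
  intro t _ ht ψ hpm h0 hco hH hsym
  obtain ⟨P, φ, hP, hφ, hf2⟩ := exists_f2 t ht ψ hpm h0 hco hsym
  have hT : Typ t P φ := ⟨hP, hφ.1, hφ.2.1, hφ.2.2.1, hφ.2.2.2⟩
  have hf1 : ∀ g, (fv P φ g).norm = 1 := by
    intro g
    have hφn : ∀ a : ZMod 2 × ZMod 2, (φ a).norm = 1 := by
      have hx : (φ (1, 0)).norm = 1 := by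
        rcases hT.f1 with h | h <;> rw [h] <;> decide
      have hy : (φ (0, 1)).norm = 1 := by
        rcases hT.f2 with h | h <;> rw [h] <;> decide
      have hz : (φ (1, 1)).norm = 1 := by
        rcases hT.f3 with h | h
        · rw [h, Zsqrtd.norm_mul, hx, hy, mul_one]
        · rw [h, Zsqrtd.norm_neg, Zsqrtd.norm_mul, hx, hy, mul_one]
      have h00 : (φ (0, 0)).norm = 1 := by rw [hT.f0]; decide
      intro a
      have hall : ∀ a : ZMod 2 × ZMod 2, a = (0, 0) ∨ a = (1, 0) ∨ a = (0, 1) ∨ a = (1, 1) := by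
        decide
      rcases hall a with rfl | rfl | rfl | rfl
      · exact h00
      · exact hx
      · exact hy
      · exact hz
    unfold fv
    rw [Zsqrtd.norm_mul, hφn, Zsqrtd.norm_intCast, pm_mul_self _ (hP g), mul_one]
  have hAC := autocorr t ψ hpm h0 hco hH (fv P φ) hf1 hf2
  have hY := Yf_ac t hT hAC
  have hYm : ∀ e, mk (Yf P φ e) * cj (ZMod t) (mk (Yf P φ e)) = (t : GR (ZMod t)) :=
    fun e => mk_mul_cj _ t (hY e)
  obtain ⟨u, hu⟩ := ub_of _ hT.f1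
  obtain ⟨v, hv⟩ := ub_of _ hT.f2
  cases u with
  | false =>
    refine ⟨⟨1, 1⟩, 1, mk (Yf P φ (0, 0)), fun _ => mk (Yf P φ (0, 1)),
      fun _ => mk (fun c => dv (Yf P φ (0, 1) c - Yf P φ (0, 0) c)), Or.inl rfl, hYm _,
      fun _ => hYm _, ?_, ?_⟩
    · intro _
      apply mk_eq
      intro c
      obtain ⟨s0, s1, s2, s3, e0, e1, e2, e3⟩ := col_bool hT false v hu hv c
      rw [Yf_yv, Yf_yv, e0, e1, e2, e3]
      exact (goodB_all1 s0 s1 s2 s3 v).1
    · intro c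
      obtain ⟨s0, s1, s2, s3, e0, e1, e2, e3⟩ := col_bool hT false v hu hv c
      rw [Fin.sum_univ_one, mk_coeff, Yf_yv, Yf_yv, e0, e1, e2, e3]
      exact ⟨_, (goodB_all1 s0 s1 s2 s3 v).2⟩
  | true =>
    cases v with
    | false =>
      refine ⟨⟨1, 1⟩, 1, mk (Yf P φ (0, 0)), fun _ => mk (Yf P φ (1, 0)),
        fun _ => mk (fun c => dv (Yf P φ (1, 0) c - Yf P φ (0, 0) c)), Or.inl rfl, hYm _,
        fun _ => hYm _, ?_, ?_⟩
      · intro _
        apply mk_eq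
        intro c
        obtain ⟨s0, s1, s2, s3, e0, e1, e2, e3⟩ := col_bool hT true false hu hv c
        rw [Yf_yv, Yf_yv, e0, e1, e2, e3]
        exact (goodB_all2 s0 s1 s2 s3).1
      · intro c
        obtain ⟨s0, s1, s2, s3, e0, e1, e2, e3⟩ := col_bool hT true false hu hv c
        rw [Fin.sum_univ_one, mk_coeff, Yf_yv, Yf_yv, e0, e1, e2, e3]
        exact ⟨_, (goodB_all2 s0 s1 s2 s3).2⟩
    | true =>
      let ee : Fin 3 → ZMod 2 × ZMod 2 := ![(0, 1), (1, 0), (1, 1)]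
      refine ⟨2, 3, mk (Yf P φ (0, 0)), fun j => mk (Yf P φ (ee j)),
        fun j => mk (fun c => half (Yf P φ (ee j) c - Yf P φ (0, 0) c)), Or.inr rfl, hYm _,
        fun _ => hYm _, ?_, ?_⟩
      · intro j
        apply mk_eq
        intro c
        obtain ⟨s0, s1, s2, s3, e0, e1, e2, e3⟩ := col_bool hT true true hu hv c
        rw [Yf_yv, Yf_yv, e0, e1, e2, e3]
        exact (goodA_all s0 s1 s2 s3).1 _
      · intro c
        obtain ⟨s0, s1, s2, s3, e0, e1, e2, e3⟩ := col_bool hT true true hu hv c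
        rw [Fin.sum_univ_three, AddMonoidAlgebra.coeff_add, AddMonoidAlgebra.coeff_add,
          Finsupp.add_apply, Finsupp.add_apply, mk_coeff, mk_coeff, mk_coeff]
        have q0 : ee 0 = (0, 1) := rfl
        have q1 : ee 1 = (1, 0) := rfl
        have q2 : ee 2 = (1, 1) := rfl
        rw [q0, q1, q2, Yf_yv, Yf_yv, Yf_yv, Yf_yv, e0, e1, e2, e3]
        exact ⟨_, (goodA_all s0 s1 s2 s3).2⟩

end Pool.MP_66c627_co.Full
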