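import Mathlib

/-! Alternating products in commutative rings with commuting endomorphisms. -/

set_option autoImplicit false

namespace Pool.MP_66c627_co.Full

variable {S : Type*} [CommRing S]

/-- the alternating product -/
def dels : List (S →+* S) → S → S
  | [], U => U
  | c :: L, U => dels L (U * c U)

theorem dels_cons (c : S →+* S) (L : List (S →+* S)) (U : S) :
    dels (c :: L) U = dels L (U * c U) := rfl

theorem dels_mul (L : List (S →+* S)) : ∀ U V : S, dels L (U * V) = dels L U * dels L V := by
  induction L with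
  | nil => intro U V; rfl
  | cons c L ih =>
    intro U V
    rw [dels_cons, dels_cons, dels_cons, map_mul, ← ih]
    congr 1; ring

theorem dels_natCast (L : List (S →+* S)) : ∀ n : ℕ, dels L (n : S) = (n : S) ^ (2 ^ L.length) := by
  induction L with
  | nil => intro n; simp [dels]
  | cons c L ih =>
    intro n
    rw [dels_cons, map_natCast, ← Nat.cast_mul, ih, List.length_cons]
    push_cast
    rw [← pow_two, ← pow_mul, ← pow_succ']

theorem dels_comm (σ : S →+* S) (L : List (S →+* S)) (h : ∀ c ∈ L, ∀ x, c (σ x) = σ (c x)) :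
    ∀ U : S, dels L (σ U) = σ (dels L U) := by
  induction L with
  | nil => intro U; rfl
  | cons c L ih =>
    intro U
    rw [dels_cons, dels_cons, h c (List.mem_cons_self ..), ← map_mul]
    exact ih (fun c' hc' => h c' (List.mem_cons_of_mem _ hc')) _

theorem dels_congr (lam : S) (L : List (S →+* S)) (hl : ∀ c ∈ L, lam ∣ c lam) :
    ∀ U V : S, lam ∣ U - V → lam ∣ dels L U - dels L V := by
  induction L with
  | nil => intro U V h; exact h
  | cons c L ih =>
    intro U V h
    rw [dels_cons, dels_cons]
    apply ih (fun c' hc' => hl c' (List.mem_cons_of_mem _ hc'))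
    have h1 : lam ∣ c U - c V := by
      rw [← map_sub]
      obtain ⟨w, hw⟩ := h
      rw [hw, map_mul]
      exact (hl c (List.mem_cons_self ..)).mul_right _
    have : U * c U - V * c V = (U - V) * c U + V * (c U - c V) := by ring
    rw [this]
    exact dvd_add (h.mul_right _) (h1.mul_left _)

/-- divisibility is amplified -/
theorem dels_dvd (x : ℕ) (c : S →+* S) : ∀ (L : List (S →+* S)), c ∈ L →
    (∀ c₁ ∈ L, ∀ c₂ ∈ L, ∀ y, c₁ (c₂ y) = c₂ (c₁ y)) →
    ∀ (k : ℕ) (U : S), ((x : S) ^ k) ∣ U * c U → (x : S) ^ (k * 2 ^ (L.length - 1)) ∣ dels L U := by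
  intro L
  induction L with
  | nil => intro h; exact absurd h (List.not_mem_nil)
  | cons d L ih =>
    intro hc hcomm k U hU
    rw [dels_cons, List.length_cons, Nat.add_sub_cancel]
    rcases List.mem_cons.mp hc with rfl | hc'
    · obtain ⟨Z, hZ⟩ := hU
      rw [hZ, dels_mul]
      have h1 : dels L ((x : S) ^ k) = (x : S) ^ (k * 2 ^ L.length) := by
        rw [← Nat.cast_pow, dels_natCast, Nat.cast_pow, ← pow_mul]
      rw [h1]
      exact dvd_mul_right _ _
    · have hlen : 0 < L.length := List.length_pos_of_mem hc'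
      have h2 : ((x : S) ^ (k * 2)) ∣ (U * d U) * c (U * d U) := by
        have h3 : (U * d U) * c (U * d U) = (U * c U) * d (U * c U) := by
          rw [map_mul, map_mul, hcomm c hc d (List.mem_cons_self ..)]
          ring
        rw [h3, mul_comm k 2, two_mul, pow_add]
        apply mul_dvd_mul hU
        obtain ⟨Z, hZ⟩ := hU
        rw [hZ, map_mul, map_pow, map_natCast]
        exact dvd_mul_right _ _
      have h4 := ih hc' (fun c₁ h₁ c₂ h₂ => hcomm c₁ (List.mem_cons_of_mem _ h₁) c₂
        (List.mem_cons_of_mem _ h₂)) (k * 2) (U * d U) h2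
      have h5 : k * 2 * 2 ^ (L.length - 1) = k * 2 ^ L.length := by
        obtain ⟨m, hm⟩ : ∃ m, L.length = m + 1 := ⟨L.length - 1, by omega⟩
        rw [hm, Nat.add_sub_cancel, pow_succ]; ring
      rwa [h5] at h4

/-- first order expansion -/
theorem dels_expand {A : Type*} [CommRing A] (κ : S →+ A) (lam : S) (l : A)
    (hκ : ∀ z : S, κ (lam * z) = l * κ z) (L : List (S →+* S))
    (hl : ∀ c ∈ L, ∃ μ : S, c lam = lam + lam * lam * μ)
    (h0 : ∀ c ∈ L, ∀ z, κ (c z) = 0) :
    ∀ z : S, ∃ z' : S, dels L (1 + lam * z) = 1 + lam * z' ∧ l ∣ κ z' - κ z := by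
  induction L with
  | nil => intro z; exact ⟨z, rfl, by simp⟩
  | cons c L ih =>
    intro z
    obtain ⟨μ, hμ⟩ := hl c (List.mem_cons_self ..)
    have h1 : (1 + lam * z) * c (1 + lam * z) =
        1 + lam * (z + c z + lam * (μ * c z + z * c z + lam * (z * μ * c z))) := by
      rw [map_add, map_one, map_mul, hμ]; ring
    obtain ⟨z', hz', hd⟩ := ih (fun c' hc' => hl c' (List.mem_cons_of_mem _ hc'))
      (fun c' hc' => h0 c' (List.mem_cons_of_mem _ hc'))
      (z + c z + lam * (μ * c z + z * c z + lam * (z * μ * c z)))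
    refine ⟨z', ?_, ?_⟩
    · rw [dels_cons, h1, hz']
    · rw [map_add, map_add, h0 c (List.mem_cons_self ..), hκ] at hd
      obtain ⟨w, hw⟩ := hd
      exact ⟨w + κ (μ * c z + z * c z + lam * (z * μ * c z)), by linear_combination hw⟩

end Pool.MP_66c627_co.Full
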