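import Pool.Agent.Work.MP_66c627_co.Col

/-! The four functions `Y_e` on `Z_t`. -/

namespace Pool.MP_66c627_co.Pw

/-- characters of the Klein group -/
def chi (e a : ZMod 2 × ZMod 2) : ℤ := if e.1 * a.1 + e.2 * a.2 = 0 then 1 else -1

theorem chi_add : ∀ e a b : ZMod 2 × ZMod 2, chi e (a + b) = chi e a * chi e b := by decide

theorem chi_zero : ∀ e : ZMod 2 × ZMod 2, chi e 0 = 1 := by decide

/-- half of a Gaussian integer -/
def half (z : GaussianInt) : GaussianInt := ⟨z.re / 2, z.im / 2⟩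

/-- the four combinations of a column -/
def comb (x : ZMod 2 × ZMod 2 → GaussianInt) (e : ZMod 2 × ZMod 2) : GaussianInt :=
  ∑ a, (chi e a : GaussianInt) * x a

theorem comb_eq (x : ZMod 2 × ZMod 2 → GaussianInt) (e : ZMod 2 × ZMod 2) :
    comb x e = (chi e (0, 0) : GaussianInt) * x (0, 0) + (chi e (0, 1) : GaussianInt) * x (0, 1) +
      ((chi e (1, 0) : GaussianInt) * x (1, 0) + (chi e (1, 1) : GaussianInt) * x (1, 1)) := by
  unfold comb
  rw [Fintype.sum_prod_type]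
  have h : ∀ g : ZMod 2 → GaussianInt, ∑ i, g i = g 0 + g 1 := fun g => Fin.sum_univ_two g
  rw [h, h, h]

/-- explicit combination -/
def cb (x0 x1 x2 x3 : GaussianInt) (e : ZMod 2 × ZMod 2) : GaussianInt :=
  (chi e (0, 0) : GaussianInt) * x0 + (chi e (0, 1) : GaussianInt) * x2 +
      ((chi e (1, 0) : GaussianInt) * x1 + (chi e (1, 1) : GaussianInt) * x3)

/-- sign of a boolean -/
def sb (b : Bool) : GaussianInt := if b then 1 else -1

/-- unit of a boolean -/
def ub (b : Bool) : GaussianInt := if b then 1 else ⟨0, 1⟩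

/-- the finite property of a column -/
def good (x0 x1 x2 x3 : GaussianInt) : Prop :=
  (∀ e, cb x0 x1 x2 x3 e = 2 * half (cb x0 x1 x2 x3 e)) ∧
  (∀ e e', ((half (cb x0 x1 x2 x3 e)).re + (half (cb x0 x1 x2 x3 e)).im -
    ((half (cb x0 x1 x2 x3 e')).re + (half (cb x0 x1 x2 x3 e')).im)) % 2 = 0) ∧
  ((half (cb x0 x1 x2 x3 (0, 0))).norm + (half (cb x0 x1 x2 x3 (0, 1))).norm +
    ((half (cb x0 x1 x2 x3 (1, 0))).norm + (half (cb x0 x1 x2 x3 (1, 1))).norm) = 4)

instance (x0 x1 x2 x3 : GaussianInt) : Decidable (good x0 x1 x2 x3) := by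
  unfold good; infer_instance

theorem good_all : ∀ s0 s1 s2 s3 u v : Bool,
    good (sb s0) (sb s1 * ub u) (sb s2 * ub v) (sb s3 * (ub u * ub v)) := by
  decide

/-- the hypotheses on the pair `(P, φ)` -/
structure Typ (t : ℕ) (P : ZMod 2 × ZMod 2 × ZMod t → ℤ) (φ : ZMod 2 × ZMod 2 → GaussianInt) :
    Prop where
  pm : ∀ g, P g = 1 ∨ P g = -1
  f0 : φ (0, 0) = 1
  f1 : φ (1, 0) = 1 ∨ φ (1, 0) = ⟨0, 1⟩
  f2 : φ (0, 1) = 1 ∨ φ (0, 1) = ⟨0, 1⟩
  f3 : φ (1, 1) = φ (1, 0) * φ (0, 1) ∨ φ (1, 1) = -(φ (1, 0) * φ (0, 1))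

/-- the value of `f` -/
def fv {t : ℕ} (P : ZMod 2 × ZMod 2 × ZMod t → ℤ) (φ : ZMod 2 × ZMod 2 → GaussianInt)
    (g : ZMod 2 × ZMod 2 × ZMod t) : GaussianInt := (P g : GaussianInt) * φ (g.1, g.2.1)

/-- the function `Y_e` -/
def Yf {t : ℕ} (P : ZMod 2 × ZMod 2 × ZMod t → ℤ) (φ : ZMod 2 × ZMod 2 → GaussianInt)
    (e : ZMod 2 × ZMod 2) (c : ZMod t) : GaussianInt :=
  half (comb (fun a => fv P φ (a.1, a.2, c)) e)

theorem sb_of (x : ℤ) (hx : x = 1 ∨ x = -1) : ∃ s : Bool, (x : GaussianInt) = sb s := by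
  rcases hx with rfl | rfl
  · exact ⟨true, by simp [sb]⟩
  · exact ⟨false, by simp [sb]⟩

theorem ub_of (x : GaussianInt) (hx : x = 1 ∨ x = ⟨0, 1⟩) : ∃ s : Bool, x = ub s := by
  rcases hx with rfl | rfl
  · exact ⟨true, by simp [ub]⟩
  · exact ⟨false, by simp [ub]⟩

theorem col_good {t : ℕ} {P : ZMod 2 × ZMod 2 × ZMod t → ℤ} {φ : ZMod 2 × ZMod 2 → GaussianInt}
    (h : Typ t P φ) (c : ZMod t) :
    good (fv P φ (0, 0, c)) (fv P φ (1, 0, c)) (fv P φ (0, 1, c)) (fv P φ (1, 1, c)) := by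
  obtain ⟨s0, h0⟩ := sb_of _ (h.pm (0, 0, c))
  obtain ⟨s1, h1⟩ := sb_of _ (h.pm (1, 0, c))
  obtain ⟨s2, h2⟩ := sb_of _ (h.pm (0, 1, c))
  obtain ⟨s3, h3⟩ := sb_of _ (h.pm (1, 1, c))
  obtain ⟨u, hu⟩ := ub_of _ h.f1
  obtain ⟨v, hv⟩ := ub_of _ h.f2
  obtain ⟨s3', h3'⟩ : ∃ s : Bool, fv P φ (1, 1, c) = sb s * (ub u * ub v) := by
    rcases h.f3 with h4 | h4
    · exact ⟨s3, by unfold fv; simp only [h4, h3, hu, hv]⟩
    · refine ⟨!s3, ?_⟩
      unfold fv
      simp only [h4, h3, hu, hv]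
      cases s3 <;> simp [sb]
  have e0 : fv P φ (0, 0, c) = sb s0 := by unfold fv; simp only [h0, h.f0, mul_one]
  have e1 : fv P φ (1, 0, c) = sb s1 * ub u := by unfold fv; simp only [h1, hu]
  have e2 : fv P φ (0, 1, c) = sb s2 * ub v := by unfold fv; simp only [h2, hv]
  rw [e0, e1, e2, h3']
  exact good_all s0 s1 s2 s3' u v

theorem comb_cb {t : ℕ} (P : ZMod 2 × ZMod 2 × ZMod t → ℤ) (φ : ZMod 2 × ZMod 2 → GaussianInt)
    (e : ZMod 2 × ZMod 2) (c : ZMod t) : comb (fun a => fv P φ (a.1, a.2, c)) e =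
      cb (fv P φ (0, 0, c)) (fv P φ (1, 0, c)) (fv P φ (0, 1, c)) (fv P φ (1, 1, c)) e := by
  rw [comb_eq]; rfl

theorem comb_half {t : ℕ} {P : ZMod 2 × ZMod 2 × ZMod t → ℤ} {φ : ZMod 2 × ZMod 2 → GaussianInt}
    (h : Typ t P φ) (e : ZMod 2 × ZMod 2) (c : ZMod t) :
    comb (fun a => fv P φ (a.1, a.2, c)) e = 2 * Yf P φ e c := by
  unfold Yf
  rw [comb_cb]
  exact (col_good h c).1 e

theorem Yf_par {t : ℕ} {P : ZMod 2 × ZMod 2 × ZMod t → ℤ} {φ : ZMod 2 × ZMod 2 → GaussianInt}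
    (h : Typ t P φ) (e e' : ZMod 2 × ZMod 2) (c : ZMod t) :
    ((Yf P φ e c).re + (Yf P φ e c).im - ((Yf P φ e' c).re + (Yf P φ e' c).im)) % 2 = 0 := by
  unfold Yf
  rw [comb_cb, comb_cb]
  exact (col_good h c).2.1 e e'

theorem Yf_norm {t : ℕ} {P : ZMod 2 × ZMod 2 × ZMod t → ℤ} {φ : ZMod 2 × ZMod 2 → GaussianInt}
    (h : Typ t P φ) (c : ZMod t) : ∑ e, (Yf P φ e c).norm = 4 := by
  rw [Fintype.sum_prod_type]
  have h2 : ∀ g : ZMod 2 → ℤ, ∑ i, g i = g 0 + g 1 := fun g => Fin.sum_univ_two g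
  rw [h2, h2, h2]
  unfold Yf
  rw [comb_cb, comb_cb, comb_cb, comb_cb]
  exact (col_good h c).2.2

/-- divisibility of the differences by `1 + i` -/
theorem Yf_diff {t : ℕ} {P : ZMod 2 × ZMod 2 × ZMod t → ℤ} {φ : ZMod 2 × ZMod 2 → GaussianInt}
    (h : Typ t P φ) (e e' : ZMod 2 × ZMod 2) (c : ZMod t) :
    ∃ w : GaussianInt, Yf P φ e c - Yf P φ e' c = ⟨1, 1⟩ * w := by
  have h1 := Yf_par h e e' c
  set a := Yf P φ e c
  set b := Yf P φ e' c
  obtain ⟨k, hk⟩ := Int.dvd_of_emod_eq_zero h1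
  refine ⟨⟨k, k - (a.re - b.re)⟩, ?_⟩
  apply Zsqrtd.ext
  · simp only [Zsqrtd.re_sub, Zsqrtd.re_mul]; ring
  · simp only [Zsqrtd.im_sub, Zsqrtd.im_mul]; linarith

/-- autocorrelations of `Y_e` -/
theorem Yf_ac (t : ℕ) [NeZero t] {P : ZMod 2 × ZMod 2 × ZMod t → ℤ}
    {φ : ZMod 2 × ZMod 2 → GaussianInt} (h : Typ t P φ)
    (hAC : ∀ s, ∑ u, fv P φ (u + s) * star (fv P φ u) =
      if s = 0 then ((4 * t : ℕ) : GaussianInt) else 0) (e : ZMod 2 × ZMod 2) (d : ZMod t) :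
    ∑ c, Yf P φ e (c + d) * star (Yf P φ e c) = if d = 0 then (t : GaussianInt) else 0 := by
  have h4 : (4 : GaussianInt) * ∑ c, Yf P φ e (c + d) * star (Yf P φ e c) =
      4 * (if d = 0 then (t : GaussianInt) else 0) := by
    have h1 : (4 : GaussianInt) * ∑ c, Yf P φ e (c + d) * star (Yf P φ e c) =
        ∑ c, comb (fun a => fv P φ (a.1, a.2, c + d)) e *
          star (comb (fun a => fv P φ (a.1, a.2, c)) e) := by
      rw [Finset.mul_sum]
      refine Finset.sum_congr rfl fun c _ => ?_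
      rw [comb_half h, comb_half h, star_mul]
      have : star (2 : GaussianInt) = 2 := by decide
      rw [this]; ring
    rw [h1]
    have h2 : ∀ c : ZMod t, comb (fun a => fv P φ (a.1, a.2, c + d)) e *
          star (comb (fun a => fv P φ (a.1, a.2, c)) e) =
        ∑ b : ZMod 2 × ZMod 2, ∑ a : ZMod 2 × ZMod 2, (chi e b : GaussianInt) *
          (fv P φ ((a.1, a.2, c) + (b.1, b.2, d)) * star (fv P φ (a.1, a.2, c))) := by
      intro c
      unfold comb
      rw [star_sum, Finset.sum_mul_sum, Finset.sum_comm]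
      conv_rhs => rw [Finset.sum_comm]
      refine Finset.sum_congr rfl fun a _ => ?_
      rw [← Equiv.sum_comp (Equiv.addLeft a)]
      refine Finset.sum_congr rfl fun b _ => ?_
      have h3 : (Equiv.addLeft a) b = a + b := rfl
      rw [h3, chi_add, star_mul]
      have h5 : star ((chi e a : ℤ) : GaussianInt) = ((chi e a : ℤ) : GaussianInt) := by
        apply Zsqrtd.ext <;> simp
      have h6 : ((chi e a : ℤ) : GaussianInt) * ((chi e a : ℤ) : GaussianInt) = 1 := by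
        unfold chi; split_ifs <;> simp
      rw [h5]
      push_cast
      have h7 : fv P φ ((a + b).1, (a + b).2, c + d) = fv P φ ((a.1, a.2, c) + (b.1, b.2, d)) := rfl
      rw [h7]
      linear_combination ((chi e b : GaussianInt) * fv P φ ((a.1, a.2, c) + (b.1, b.2, d)) *
        star (fv P φ (a.1, a.2, c))) * h6
    rw [Finset.sum_congr rfl (fun c _ => h2 c), Finset.sum_comm]
    have h8 : ∀ b : ZMod 2 × ZMod 2, ∑ c : ZMod t, ∑ a : ZMod 2 × ZMod 2, (chi e b : GaussianInt) *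
          (fv P φ ((a.1, a.2, c) + (b.1, b.2, d)) * star (fv P φ (a.1, a.2, c))) =
        (chi e b : GaussianInt) * (if (b.1, b.2, d) = (0 : ZMod 2 × ZMod 2 × ZMod t) then
          ((4 * t : ℕ) : GaussianInt) else 0) := by
      intro b
      rw [← hAC (b.1, b.2, d), Finset.mul_sum]
      rw [← Equiv.sum_comp (Equiv.prodAssoc (ZMod 2) (ZMod 2) (ZMod t)), Fintype.sum_prod_type,
        Finset.sum_comm]
      rfl
    rw [Finset.sum_congr rfl (fun b _ => h8 b), Finset.sum_eq_single (0 : ZMod 2 × ZMod 2)]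
    · rw [chi_zero]
      by_cases hd : d = 0
      · subst hd
        have h10 : ((0 : ZMod 2 × ZMod 2).1, (0 : ZMod 2 × ZMod 2).2, (0 : ZMod t)) =
          (0 : ZMod 2 × ZMod 2 × ZMod t) := rfl
        rw [if_pos h10, if_pos rfl]; push_cast; ring
      · rw [if_neg hd, if_neg]
        · simp
        · intro h9
          exact hd (congrArg (fun x => x.2.2) h9)
    · intro b _ hb
      rw [if_neg, mul_zero]
      intro h9
      apply hb
      have e1 := congrArg (fun x => x.1) h9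
      have e2 := congrArg (fun x => x.2.1) h9
      exact Prod.ext e1 e2
    · intro h9; exact absurd (Finset.mem_univ _) h9
  have h40 : (4 : GaussianInt) ≠ 0 := by decide
  exact mul_left_cancel₀ h40 h4

/-- from autocorrelations to character values -/
theorem normSq_of_ac (t : ℕ) [NeZero t] (Y : ZMod t → GaussianInt)
    (hAC : ∀ d, ∑ c, Y (c + d) * star (Y c) = if d = 0 then (t : GaussianInt) else 0)
    (η : ℂ) (hη : η ^ t = 1) :
    Complex.normSq (∑ c ∈ Finset.range t, GaussianInt.toComplex (Y (c : ZMod t)) * η ^ c) = t := by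
  have hsum : ∑ c ∈ Finset.range t, GaussianInt.toComplex (Y (c : ZMod t)) * η ^ c =
      ∑ c : ZMod t, GaussianInt.toComplex (Y c) * η ^ c.val := by
    refine Finset.sum_bij' (fun c _ => (c : ZMod t)) (fun c _ => c.val) ?_ ?_ ?_ ?_ ?_
    · intro c _; exact Finset.mem_univ _
    · intro c _; exact Finset.mem_range.mpr (ZMod.val_lt c)
    · intro c hc; exact ZMod.val_natCast_of_lt (Finset.mem_range.mp hc)
    · intro c _; exact ZMod.natCast_zmod_val c
    · intro c hc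
      rw [ZMod.val_natCast_of_lt (Finset.mem_range.mp hc)]
  rw [hsum]
  have hχ : ∀ c d : ZMod t, η ^ (c + d).val = η ^ c.val * η ^ d.val := by
    intro c d
    rw [ZMod.val_add, ← pow_add]
    exact (pow_eq_pow_mod _ hη).symm
  have habs : ‖η‖ = 1 := by
    have ht0 : t ≠ 0 := NeZero.ne t
    have h1 : ‖η‖ ^ t = 1 := by rw [← norm_pow, hη, norm_one]
    exact (pow_eq_one_iff_of_nonneg (norm_nonneg _) ht0).mp h1
  have hconj : ∀ n : ℕ, η ^ n * (starRingEnd ℂ) (η ^ n) = 1 := by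
    intro n
    rw [Complex.mul_conj, Complex.normSq_eq_norm_sq, norm_pow, habs]; simp
  have hC : ((Complex.normSq (∑ c : ZMod t, GaussianInt.toComplex (Y c) * η ^ c.val) : ℝ) : ℂ) =
      (t : ℂ) := by
    rw [← Complex.mul_conj, map_sum, Finset.sum_mul_sum, Finset.sum_comm]
    have h1 : ∀ c : ZMod t, ∑ c' : ZMod t, (GaussianInt.toComplex (Y c') * η ^ c'.val) *
        (starRingEnd ℂ) (GaussianInt.toComplex (Y c) * η ^ c.val) =
        ∑ d : ZMod t, η ^ d.val * GaussianInt.toComplex (Y (c + d) * star (Y c)) := by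
      intro c
      rw [← Equiv.sum_comp (Equiv.addLeft c)]
      refine Finset.sum_congr rfl fun d _ => ?_
      have h3 : (Equiv.addLeft c) d = c + d := rfl
      rw [h3, hχ, map_mul, map_mul, GaussianInt.toComplex_star]
      linear_combination (GaussianInt.toComplex (Y (c + d)) * η ^ d.val *
        (starRingEnd ℂ) (GaussianInt.toComplex (Y c))) * hconj c.val
    rw [Finset.sum_congr rfl (fun c _ => h1 c), Finset.sum_comm]
    have h2 : ∀ d : ZMod t, ∑ c : ZMod t,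
        η ^ d.val * GaussianInt.toComplex (Y (c + d) * star (Y c)) =
        η ^ d.val * GaussianInt.toComplex (if d = 0 then (t : GaussianInt) else 0) := by
      intro d
      rw [← hAC d, map_sum, Finset.mul_sum]
    rw [Finset.sum_congr rfl (fun d _ => h2 d), Finset.sum_eq_single (0 : ZMod t)]
    · rw [if_pos rfl, ZMod.val_zero, pow_zero, one_mul, map_natCast]
    · intro d _ hd
      rw [if_neg hd, map_zero, mul_zero]
    · intro h; exact absurd (Finset.mem_univ _) h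
  exact_mod_cast hC

end Pool.MP_66c627_co.Pw
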