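import Pool.Agent.Work.MP_66c627_co.Stmts2
import Pool.Agent.Work.MP_66c627_co.Yf

/-! Assembly of the field descent. -/

namespace Pool.MP_66c627_co.Pw

/-- The number field part (one step of the descent). -/
def S_OneStep : Prop := ∀ (t p : ℕ), Odd t → p.Prime → p ^ 2 ∣ t → ∀ v : ℕ, 0 < v →
  (∀ q : ℕ, q.Prime → q ∣ v → ∃ j : ℕ, q ^ j ≡ 1 + 4 * (t / p) [MOD ordCompl[q] (4 * t)]) →
  ∀ G : ℕ → GaussianInt,
  (∀ η : ℂ, IsPrimitiveRoot η t →
    Complex.normSq (∑ c ∈ Finset.range t, GaussianInt.toComplex (G c) * η ^ c) = v) →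
  ∃ r < p, ∀ r' < p, r' ≠ r → ∀ η : ℂ, IsPrimitiveRoot η t →
    ∑ j ∈ Finset.range (t / p), GaussianInt.toComplex (G (r' + p * j)) * η ^ (r' + p * j) = 0

/-- splitting a sum into residue classes -/
theorem sum_classes (p F : ℕ) (hp : 0 < p) (g : ℕ → ℂ) :
    ∑ c ∈ Finset.range (p * F), g c = ∑ r ∈ Finset.range p, ∑ j ∈ Finset.range F, g (r + p * j) := by
  rw [← Finset.sum_product']
  refine Finset.sum_bij' (fun c _ => (c % p, c / p)) (fun x _ => x.1 + p * x.2) ?_ ?_ ?_ ?_ ?_
  · intro c hc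
    rw [Finset.mem_product, Finset.mem_range, Finset.mem_range]
    exact ⟨Nat.mod_lt _ hp, Nat.div_lt_of_lt_mul (Finset.mem_range.mp hc)⟩
  · intro x hx
    rw [Finset.mem_product, Finset.mem_range, Finset.mem_range] at hx
    rw [Finset.mem_range]
    calc x.1 + p * x.2 < p + p * x.2 := by omega
      _ = p * (x.2 + 1) := by ring
      _ ≤ p * F := Nat.mul_le_mul_left p hx.2
  · intro c _
    exact Nat.mod_add_div c p
  · intro x hx
    rw [Finset.mem_product, Finset.mem_range, Finset.mem_range] at hx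
    apply Prod.ext
    · simp only [Nat.add_mul_mod_self_left]
      exact Nat.mod_eq_of_lt hx.1
    · simp only
      rw [Nat.add_mul_div_left _ _ hp, Nat.div_eq_of_lt hx.1, zero_add]
  · intro c _
    simp only [Nat.mod_add_div]

theorem toComplex_integral (z : GaussianInt) : IsIntegral ℤ (GaussianInt.toComplex z) := by
  rw [GaussianInt.toComplex_def]
  have hI : IsIntegral ℤ Complex.I := by
    refine ⟨Polynomial.X ^ 2 + 1, ?_, ?_⟩
    · monicity!
    · simp
  exact (isIntegral_algebraMap (R := ℤ) (A := ℂ) (x := z.re)).add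
    ((isIntegral_algebraMap (R := ℤ) (A := ℂ) (x := z.im)).mul hI)

/-- an odd number is not twice the squared modulus of an algebraic integer -/
theorem not_two_normSq (t : ℕ) (ht : Odd t) (A : ℂ) (hA : IsIntegral ℤ A)
    (h : 2 * Complex.normSq A = t) : False := by
  have h1 : IsIntegral ℤ ((starRingEnd ℂ) A) :=
    hA.map (RingHom.toIntAlgHom (starRingEnd ℂ))
  have h2 : IsIntegral ℤ (A * (starRingEnd ℂ) A) := hA.mul h1
  rw [Complex.mul_conj] at h2
  have h3 : ((Complex.normSq A : ℝ) : ℂ) = algebraMap ℚ ℂ ((t : ℚ) / 2) := by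
    have : (Complex.normSq A : ℝ) = (t : ℝ) / 2 := by linarith
    rw [this]
    push_cast
    simp
  rw [h3] at h2
  have h4 : IsIntegral ℤ ((t : ℚ) / 2) :=
    (isIntegral_algebraMap_iff (algebraMap ℚ ℂ).injective).mp h2
  obtain ⟨n, hn⟩ := IsIntegrallyClosed.isIntegral_iff.mp h4
  have h5 : (t : ℚ) = 2 * (n : ℚ) := by
    have : (algebraMap ℤ ℚ) n = (n : ℚ) := rfl
    rw [this] at hn
    linarith
  have h6 : (t : ℤ) = 2 * n := by exact_mod_cast h5
  obtain ⟨k, hk⟩ := ht
  omega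

/-- a primitive `t`-th root above a primitive `t/p`-th root -/
theorem exists_root (F p : ℕ) (hp : p.Prime) (hF : 0 < F) (hpF : p ∣ F) (ω : ℂ)
    (hω : IsPrimitiveRoot ω F) : ∃ η : ℂ, IsPrimitiveRoot η (p * F) ∧ η ^ p = ω := by
  obtain ⟨η, hη⟩ := IsAlgClosed.exists_pow_nat_eq ω hp.pos
  refine ⟨η, ?_, hη⟩
  have h1 : orderOf (η ^ p) = F := by rw [hη]; exact hω.eq_orderOf.symm
  have hfin : IsOfFinOrder η := by
    rw [isOfFinOrder_iff_pow_eq_one]
    exact ⟨p * F, Nat.mul_pos hp.pos hF, by rw [pow_mul, hη, hω.pow_eq_one]⟩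
  have h2 : orderOf (η ^ p) = orderOf η / Nat.gcd (orderOf η) p := IsOfFinOrder.orderOf_pow η p hfin
  have h3 : F ∣ orderOf η := by
    rw [← h1, h2]
    exact Nat.div_dvd_of_dvd (Nat.gcd_dvd_left _ _)
  have h4 : p ∣ orderOf η := hpF.trans h3
  rw [Nat.gcd_eq_right h4] at h2
  have h5 : orderOf η = p * F := by
    rw [← h1, h2]
    exact (Nat.mul_div_cancel' h4).symm
  rw [← h5]
  exact IsPrimitiveRoot.orderOf η

theorem descent_bound (hOne : S_OneStep) (hPars : S_Pars) (t p : ℕ) [NeZero t] (ht : Odd t)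
    (hp : p.Prime) (hp2 : p ^ 2 ∣ t) {P : ZMod 2 × ZMod 2 × ZMod t → ℤ}
    {φ : ZMod 2 × ZMod 2 → GaussianInt} (h : Typ t P φ)
    (hAC : ∀ s, ∑ u, fv P φ (u + s) * star (fv P φ u) =
      if s = 0 then ((4 * t : ℕ) : GaussianInt) else 0)
    (hq : ∀ q : ℕ, q.Prime → q ∣ t →
      ∃ j : ℕ, q ^ j ≡ 1 + 4 * (t / p) [MOD ordCompl[q] (4 * t)]) :
    Nat.totient (t / p) * t ≤ (t / p) ^ 2 := by
  have htpos : 0 < t := Nat.pos_of_ne_zero (NeZero.ne t)
  have hpt : p ∣ t := (dvd_pow_self p (by norm_num)).trans hp2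
  obtain ⟨F, hF⟩ : ∃ F, t = p * F := hpt
  have hdiv : t / p = F := by rw [hF]; exact Nat.mul_div_cancel_left F hp.pos
  have hpF : p ∣ F := by
    have h1 : p * p ∣ p * F := by rw [← hF, ← pow_two]; exact hp2
    exact Nat.dvd_of_mul_dvd_mul_left hp.pos h1
  have hFpos : 0 < F := by
    rcases Nat.eq_zero_or_pos F with h0 | h0
    · subst h0; omega
    · exact h0
  let G : ZMod 2 × ZMod 2 → ℕ → GaussianInt := fun e c => Yf P φ e (c : ZMod t)
  have hG : ∀ e, ∀ η : ℂ, IsPrimitiveRoot η t →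
      Complex.normSq (∑ c ∈ Finset.range t, GaussianInt.toComplex (G e c) * η ^ c) = t :=
    fun e η hη => normSq_of_ac t _ (Yf_ac t h hAC e) η hη.pow_eq_one
  have hstep := fun e => hOne t p ht hp hp2 t htpos hq (G e) (hG e)
  choose r hr hvan using hstep
  rw [hdiv] at hvan ⊢
  -- the sum is the class sum
  have hX : ∀ e, ∀ η : ℂ, IsPrimitiveRoot η t →
      ∑ c ∈ Finset.range t, GaussianInt.toComplex (G e c) * η ^ c =
      ∑ j ∈ Finset.range F, GaussianInt.toComplex (G e (r e + p * j)) * η ^ (r e + p * j) := by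
    intro e η hη
    conv_lhs => rw [hF]
    rw [sum_classes p F hp.pos, Finset.sum_eq_single (r e)]
    · intro r' hr' hne
      exact hvan e r' (Finset.mem_range.mp hr') hne η hη
    · intro h0
      exact absurd (Finset.mem_range.mpr (hr e)) h0
  have hsame : ∀ e e', r e = r e' := by
    intro e e'
    by_contra hne
    have hη := Complex.isPrimitiveRoot_exp t (NeZero.ne t)
    set η := Complex.exp (2 * Real.pi * Complex.I / t) with hηdef
    have h0 := hvan e' (r e) (hr e) hne η hη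
    choose w hw using fun c : ZMod t => Yf_diff h e e' c
    set A : ℂ := ∑ j ∈ Finset.range F,
      GaussianInt.toComplex (w ((r e + p * j : ℕ) : ZMod t)) * η ^ (r e + p * j) with hA
    have h1 : ∑ c ∈ Finset.range t, GaussianInt.toComplex (G e c) * η ^ c =
        GaussianInt.toComplex ⟨1, 1⟩ * A := by
      rw [hX e η hη, ← sub_zero (∑ j ∈ Finset.range F, _), ← h0, ← Finset.sum_sub_distrib, hA,
        Finset.mul_sum]
      refine Finset.sum_congr rfl fun j _ => ?_
      rw [← sub_mul, ← map_sub, ← mul_assoc, ← map_mul]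
      rw [← hw]
    have h2 := hG e η hη
    rw [h1, map_mul] at h2
    have h3 : Complex.normSq (GaussianInt.toComplex ⟨1, 1⟩) = 2 := by
      rw [← GaussianInt.intCast_real_norm]
      have : (⟨1, 1⟩ : GaussianInt).norm = 2 := by decide
      rw [this]; norm_num
    rw [h3] at h2
    refine not_two_normSq t ht A ?_ h2
    rw [hA]
    refine IsIntegral.sum _ fun j _ => ?_
    exact (toComplex_integral _).mul ((hη.isIntegral htpos).pow _)
  -- apply Parseval
  refine hPars F t (fun e j => GaussianInt.toComplex (G e (r 0 + p * j))) hFpos ?_ ?_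
  · intro j _
    have h1 := Yf_norm h ((r 0 + p * j : ℕ) : ZMod t)
    have h2 : ∀ e, Complex.normSq (GaussianInt.toComplex (G e (r 0 + p * j))) =
        ((Yf P φ e ((r 0 + p * j : ℕ) : ZMod t)).norm : ℝ) := by
      intro e
      rw [GaussianInt.intCast_real_norm]
    rw [Finset.sum_congr rfl (fun e _ => h2 e), ← Int.cast_sum, h1]
    norm_num
  · intro e ω hω
    obtain ⟨η, hη, hηp⟩ := exists_root F p hp hFpos hpF ω hω
    rw [← hF] at hη
    have h1 := hG e η hη
    rw [hX e η hη, hsame e 0] at h1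
    have h2 : ∑ j ∈ Finset.range F, GaussianInt.toComplex (G e (r 0 + p * j)) * η ^ (r 0 + p * j) =
        η ^ r 0 * ∑ j ∈ Finset.range F, GaussianInt.toComplex (G e (r 0 + p * j)) * ω ^ j := by
      rw [Finset.mul_sum]
      refine Finset.sum_congr rfl fun j _ => ?_
      rw [pow_add, pow_mul, hηp]; ring
    rw [h2, map_mul] at h1
    have h3 : Complex.normSq (η ^ r 0) = 1 := by
      rw [Complex.normSq_eq_norm_sq, norm_pow, hη.norm'_eq_one (NeZero.ne t)]
      simp
    rw [h3, one_mul] at h1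
    exact h1

end Pool.MP_66c627_co.Pw
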