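import Mathlib

/-! Symmetric cocycles on `Z2 x Z2 x Zt`, t odd, are coboundaries of fourth roots of unity. -/

namespace Pool.MP_66c627_co.Pw


/-- a square root of a sign in the Gaussian integers -/
def sq (a : ℤ) : GaussianInt := if a = 1 then 1 else ⟨0, 1⟩

theorem sq_sq (a : ℤ) (ha : a = 1 ∨ a = -1) : sq a * sq a = (a : GaussianInt) := by
  rcases ha with rfl | rfl <;> decide

theorem sq_unit (a : ℤ) : (sq a).norm = 1 := by
  unfold sq; split_ifs <;> decide

theorem pm_mul_self (a : ℤ) (ha : a = 1 ∨ a = -1) : a * a = 1 := by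
  rcases ha with rfl | rfl <;> norm_num

theorem klein (θ : ZMod 2 × ZMod 2 → ZMod 2 × ZMod 2 → ℤ)
    (hpm : ∀ g h, θ g h = 1 ∨ θ g h = -1) (h0 : θ 0 0 = 1)
    (hco : ∀ g h k, θ g h * θ (g + h) k = θ g (h + k) * θ h k)
    (hsym : ∀ g h, θ g h = θ h g) :
    ∃ φ : ZMod 2 × ZMod 2 → GaussianInt, (∀ g, (φ g).norm = 1) ∧
      ∀ g h, φ g * φ h = (θ g h : GaussianInt) * φ (g + h) := by
  have h0g : ∀ g, θ 0 g = 1 := by
    intro g
    have h1 := hco 0 0 g
    rw [zero_add, zero_add, h0] at h1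
    have h2 := pm_mul_self _ (hpm 0 g)
    linarith
  have hg0 : ∀ g, θ g 0 = 1 := fun g => by rw [hsym, h0g]
  set x : ZMod 2 × ZMod 2 := (1, 0) with hx
  set y : ZMod 2 × ZMod 2 := (0, 1) with hy
  set z : ZMod 2 × ZMod 2 := (1, 1) with hz
  have exx : x + x = 0 := by decide
  have eyy : y + y = 0 := by decide
  have ezz : z + z = 0 := by decide
  have exy : x + y = z := by decide
  have eyx : y + x = z := by decide
  have exz : x + z = y := by decide
  have ezx : z + x = y := by decide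
  have eyz : y + z = x := by decide
  have ezy : z + y = x := by decide
  have nx : x ≠ 0 := by decide
  have ny : y ≠ 0 := by decide
  have nz : z ≠ 0 := by decide
  have nxy : y ≠ x := by decide
  have nzx : z ≠ x := by decide
  have nzy : z ≠ y := by decide
  -- values
  have sxx := pm_mul_self _ (hpm x x)
  have syy := pm_mul_self _ (hpm y y)
  have sxy := pm_mul_self _ (hpm x y)
  have hxz : θ x z = θ x x * θ x y := by
    have h1 := hco x x y
    rw [exx, exy, h0g] at h1
    linear_combination (θ x z) * (-sxy) + (θ x y) * (-h1)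
  have hyz : θ y z = θ y y * θ x y := by
    have h1 := hco y y x
    rw [eyy, eyx, h0g, hsym y x] at h1
    linear_combination (θ y z) * (-sxy) + (θ x y) * (-h1)
  have hzz : θ z z = θ x x * θ y y := by
    have h1 := hco x y z
    rw [exy, eyz, hyz] at h1
    linear_combination (θ z z) * (-sxy) + (θ x y) * h1 + θ x x * θ y y * sxy
  let φ : ZMod 2 × ZMod 2 → GaussianInt := fun g =>
    if g = 0 then 1 else if g = x then sq (θ x x) else if g = y then sq (θ y y)
      else sq (θ x x) * sq (θ y y) * (θ x y : GaussianInt)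
  have p0 : φ 0 = 1 := by simp [φ]
  have px : φ x = sq (θ x x) := by simp [φ, nx]
  have py : φ y = sq (θ y y) := by simp [φ, ny, nxy]
  have pz : φ z = sq (θ x x) * sq (θ y y) * (θ x y : GaussianInt) := by simp [φ, nz, nzx, nzy]
  have hall : ∀ g : ZMod 2 × ZMod 2, g = 0 ∨ g = x ∨ g = y ∨ g = z := by decide
  have qx := sq_sq _ (hpm x x)
  have qy := sq_sq _ (hpm y y)
  have cxy : (θ x y : GaussianInt) * (θ x y : GaussianInt) = 1 := by exact_mod_cast congrArg (Int.cast : ℤ → GaussianInt) sxy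
  have cxx : (θ x x : GaussianInt) * (θ x x : GaussianInt) = 1 := by exact_mod_cast congrArg (Int.cast : ℤ → GaussianInt) sxx
  have cyy : (θ y y : GaussianInt) * (θ y y : GaussianInt) = 1 := by exact_mod_cast congrArg (Int.cast : ℤ → GaussianInt) syy
  refine ⟨φ, ?_, ?_⟩
  · intro g
    rcases hall g with rfl | rfl | rfl | rfl
    · rw [p0]; decide
    · rw [px]; exact sq_unit _
    · rw [py]; exact sq_unit _
    · rw [pz, Zsqrtd.norm_mul, Zsqrtd.norm_mul, sq_unit, sq_unit, Zsqrtd.norm_intCast, sxy]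
      norm_num
  · intro g h
    rcases hall g with rfl | rfl | rfl | rfl <;> rcases hall h with rfl | rfl | rfl | rfl
    · rw [h0, zero_add, p0]; simp
    · rw [h0g, zero_add, p0]; simp
    · rw [h0g, zero_add, p0]; simp
    · rw [h0g, zero_add, p0]; simp
    · rw [hg0, add_zero, p0]; simp
    · rw [exx, p0, px, qx, mul_one]
    · rw [exy, px, py, pz]
      linear_combination (-(sq (θ x x) * sq (θ y y))) * cxy
    · rw [exz, px, py, pz, hxz]
      push_cast
      linear_combination (sq (θ y y) * (θ x y : GaussianInt)) * qx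
    · rw [hg0, add_zero, p0]; simp
    · rw [eyx, px, py, pz, hsym y x]
      linear_combination (-(sq (θ x x) * sq (θ y y))) * cxy
    · rw [eyy, p0, py, qy, mul_one]
    · rw [eyz, px, py, pz, hyz]
      push_cast
      linear_combination (sq (θ x x) * (θ x y : GaussianInt)) * qy
    · rw [hg0, add_zero, p0]; simp
    · rw [ezx, px, py, pz, hsym z x, hxz]
      push_cast
      linear_combination (sq (θ y y) * (θ x y : GaussianInt)) * qx
    · rw [ezy, px, py, pz, hsym z y, hyz]
      push_cast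
      linear_combination (sq (θ x x) * (θ x y : GaussianInt)) * qy
    · rw [ezz, p0, pz, hzz]
      push_cast
      linear_combination (sq (θ y y) * sq (θ y y) * (θ x y : GaussianInt) * (θ x y : GaussianInt)) * qx +
        ((θ x x : GaussianInt) * (θ x y : GaussianInt) * (θ x y : GaussianInt)) * qy + ((θ x x : GaussianInt) * (θ y y : GaussianInt)) * cxy

/-- The main statement on symmetric cocycles. -/
theorem exists_f (t : ℕ) [NeZero t] (ht : Odd t)
    (ψ : (ZMod 2 × ZMod 2 × ZMod t) → (ZMod 2 × ZMod 2 × ZMod t) → ℤ)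
    (hpm : ∀ g h, ψ g h = 1 ∨ ψ g h = -1) (h0 : ψ 0 0 = 1)
    (hco : ∀ g h k, ψ g h * ψ (g + h) k = ψ g (h + k) * ψ h k)
    (hsym : ∀ g h, ψ g h = ψ h g) :
    ∃ f : ZMod 2 × ZMod 2 × ZMod t → GaussianInt, (∀ g, (f g).norm = 1) ∧
      ∀ g h, f g * f h = (ψ g h : GaussianInt) * f (g + h) := by
  let ι : ZMod t → ZMod 2 × ZMod 2 × ZMod t := fun c => (0, 0, c)
  have hι : ∀ c d, ι (c + d) = ι c + ι d := by intro c d; simp [ι]
  let P : ZMod 2 × ZMod 2 × ZMod t → ℤ := fun g => ∏ k : ZMod t, ψ g (ι k)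
  have hP : ∀ g, P g = 1 ∨ P g = -1 := by
    intro g
    have : P g * P g = 1 := by
      rw [← Finset.prod_mul_distrib]
      exact Finset.prod_eq_one fun k _ => pm_mul_self _ (hpm g (ι k))
    have h2 : (P g - 1) * (P g + 1) = 0 := by linarith
    rcases mul_eq_zero.mp h2 with h3 | h3
    · left; linarith
    · right; linarith
  have hPP : ∀ g, P g * P g = 1 := fun g => pm_mul_self _ (hP g)
  have hpow : ∀ a : ℤ, a = 1 ∨ a = -1 → a ^ t = a := by
    intro a ha
    rcases ha with rfl | rfl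
    · rw [one_pow]
    · exact ht.neg_one_pow
  have hA : ∀ g c, ψ g (ι c) * P (g + ι c) = P g * P (ι c) := by
    intro g c
    have h1 : ∏ k : ZMod t, (ψ g (ι c) * ψ (g + ι c) (ι k)) =
        ∏ k : ZMod t, (ψ g (ι c + ι k) * ψ (ι c) (ι k)) :=
      Finset.prod_congr rfl fun k _ => hco g (ι c) (ι k)
    rw [Finset.prod_mul_distrib, Finset.prod_mul_distrib, Finset.prod_const, Finset.card_univ,
      ZMod.card, hpow _ (hpm _ _)] at h1
    have h2 : ∏ k : ZMod t, ψ g (ι c + ι k) = P g := by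
      have : ∀ k : ZMod t, ψ g (ι c + ι k) = ψ g (ι (Equiv.addLeft c k)) := by
        intro k; rw [← hι]; rfl
      rw [Finset.prod_congr rfl (fun k _ => this k)]
      exact Equiv.prod_comp (Equiv.addLeft c) (fun k => ψ g (ι k))
    rw [h2] at h1
    exact h1
  let ψ' : (ZMod 2 × ZMod 2 × ZMod t) → (ZMod 2 × ZMod 2 × ZMod t) → ℤ :=
    fun g h => ψ g h * P g * P h * P (g + h)
  have hψ'def : ∀ g h, ψ' g h = ψ g h * P g * P h * P (g + h) := fun g h => rfl
  have hpm' : ∀ g h, ψ' g h = 1 ∨ ψ' g h = -1 := by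
    intro g h
    rw [hψ'def]
    rcases hpm g h with h1 | h1 <;> rcases hP g with h2 | h2 <;> rcases hP h with h3 | h3 <;>
      rcases hP (g + h) with h4 | h4 <;> rw [h1, h2, h3, h4] <;> norm_num
  have hsym' : ∀ g h, ψ' g h = ψ' h g := by
    intro g h
    rw [hψ'def, hψ'def, hsym g h, add_comm g h]; ring
  have hco' : ∀ g h k, ψ' g h * ψ' (g + h) k = ψ' g (h + k) * ψ' h k := by
    intro g h k
    have e1 := hco g h k
    have e2 := hPP (g + h)
    have e3 := hPP (h + k)
    simp only [hψ'def]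
    rw [← add_assoc g h k]
    linear_combination (P g * P h * P k * P (g + h + k) * P (g + h) * P (g + h)) * e1 +
      (ψ g (h + k) * ψ h k * P g * P h * P k * P (g + h + k)) * (e2 - e3)
  have hK : ∀ g c, ψ' g (ι c) = 1 := by
    intro g c
    rw [hψ'def]
    have e1 := hA g c
    have e2 := hPP g
    have e3 := hPP (ι c)
    linear_combination (P g * P (ι c)) * e1 + (P (ι c) * P (ι c)) * e2 + e3
  have hinv : ∀ g h c, ψ' g (h + ι c) = ψ' g h := by
    intro g h c
    have := hco' g h (ι c)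
    rw [hK, hK, mul_one, mul_one] at this
    exact this.symm
  have hinv' : ∀ g h c, ψ' (g + ι c) h = ψ' g h := by
    intro g h c
    rw [hsym', hinv, hsym']
  let j : ZMod 2 × ZMod 2 → ZMod 2 × ZMod 2 × ZMod t := fun a => (a.1, a.2, 0)
  have hj : ∀ a b, j (a + b) = j a + j b := by intro a b; simp [j]
  have hdec : ∀ g : ZMod 2 × ZMod 2 × ZMod t, g = j (g.1, g.2.1) + ι g.2.2 := by
    intro g; simp [j, ι]
  have h00 : ψ' 0 0 = 1 := by
    have : (0 : ZMod 2 × ZMod 2 × ZMod t) = ι 0 := rfl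
    conv_lhs => rw [this]
    exact hK (ι 0) 0
  obtain ⟨φ, hφ1, hφ2⟩ := klein (fun a b => ψ' (j a) (j b)) (fun a b => hpm' _ _)
    (by
      have : j 0 = 0 := rfl
      simp only [this]; exact h00)
    (by
      intro a b c
      simp only [hj]
      exact hco' _ _ _)
    (fun a b => hsym' _ _)
  refine ⟨fun g => (P g : GaussianInt) * φ (g.1, g.2.1), ?_, ?_⟩
  · intro g
    rw [Zsqrtd.norm_mul, hφ1, Zsqrtd.norm_intCast, hPP, mul_one]
  · intro g h
    have e1 := hφ2 (g.1, g.2.1) (h.1, h.2.1)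
    have e2 : ψ' (j (g.1, g.2.1)) (j (h.1, h.2.1)) = ψ' g h := by
      conv_rhs => rw [hdec g, hdec h, hinv, hinv']
    rw [e2, hψ'def] at e1
    change (P g : GaussianInt) * φ (g.1, g.2.1) * ((P h : GaussianInt) * φ (h.1, h.2.1)) =
      (ψ g h : GaussianInt) * ((P (g + h) : GaussianInt) * φ ((g.1, g.2.1) + (h.1, h.2.1)))
    have c1 : (P g : GaussianInt) * (P g : GaussianInt) = 1 := by exact_mod_cast congrArg (Int.cast : ℤ → GaussianInt) (hPP g)
    have c2 : (P h : GaussianInt) * (P h : GaussianInt) = 1 := by exact_mod_cast congrArg (Int.cast : ℤ → GaussianInt) (hPP h)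
    push_cast at e1
    linear_combination ((P g : GaussianInt) * (P h : GaussianInt)) * e1 +
      ((ψ g h : GaussianInt) * (P (g + h) : GaussianInt) * φ ((g.1, g.2.1) + (h.1, h.2.1)) *
        (P h : GaussianInt) * (P h : GaussianInt)) * c1 +
      ((ψ g h : GaussianInt) * (P (g + h) : GaussianInt) * φ ((g.1, g.2.1) + (h.1, h.2.1))) * c2

/-- The autocorrelations. -/
theorem autocorr (t : ℕ) [NeZero t]
    (ψ : (ZMod 2 × ZMod 2 × ZMod t) → (ZMod 2 × ZMod 2 × ZMod t) → ℤ)
    (hpm : ∀ g h, ψ g h = 1 ∨ ψ g h = -1) (h0 : ψ 0 0 = 1)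
    (hco : ∀ g h k, ψ g h * ψ (g + h) k = ψ g (h + k) * ψ h k)
    (hH : Matrix.of ψ * Matrix.transpose (Matrix.of ψ) =
          (4 * (t : ℤ)) • (1 : Matrix (ZMod 2 × ZMod 2 × ZMod t) (ZMod 2 × ZMod 2 × ZMod t) ℤ))
    (f : ZMod 2 × ZMod 2 × ZMod t → GaussianInt) (hf1 : ∀ g, (f g).norm = 1)
    (hf2 : ∀ g h, f g * f h = (ψ g h : GaussianInt) * f (g + h)) (s : ZMod 2 × ZMod 2 × ZMod t) :
    ∑ u, f (u + s) * star (f u) = if s = 0 then ((4 * t : ℕ) : GaussianInt) else 0 := by
  have hu : ∀ g, f g * star (f g) = 1 := by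
    intro g
    have := Zsqrtd.norm_eq_mul_conj (f g)
    rw [hf1] at this
    exact_mod_cast this.symm
  have h0g : ∀ g, ψ 0 g = 1 := by
    intro g
    have h1 := hco 0 0 g
    rw [zero_add, zero_add, h0] at h1
    have h2 := pm_mul_self _ (hpm 0 g)
    linarith
  have hrow : ∑ u, ψ s u = if s = 0 then ((4 * t : ℕ) : ℤ) else 0 := by
    have h1 := congrFun (congrFun hH s) 0
    rw [Matrix.mul_apply] at h1
    simp only [Matrix.of_apply, Matrix.transpose_apply, h0g, mul_one, Matrix.smul_apply,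
      Matrix.one_apply] at h1
    rw [h1]
    split_ifs <;> simp
  have hterm : ∀ u, f (u + s) * star (f u) = (ψ s u : GaussianInt) * f s := by
    intro u
    have e1 := hf2 s u
    have e2 := hu u
    have e3 : (ψ s u : GaussianInt) * (ψ s u : GaussianInt) = 1 := by
      exact_mod_cast congrArg (Int.cast : ℤ → GaussianInt) (pm_mul_self _ (hpm s u))
    rw [add_comm u s]
    linear_combination (-(ψ s u : GaussianInt) * star (f u)) * e1 - (f (s + u) * star (f u)) * e3 +
      ((ψ s u : GaussianInt) * f s) * e2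
  rw [Finset.sum_congr rfl (fun u _ => hterm u), ← Finset.sum_mul]
  have h3 : (∑ u, (ψ s u : GaussianInt)) = ((∑ u, ψ s u : ℤ) : GaussianInt) := by push_cast; rfl
  rw [h3, hrow]
  by_cases hs : s = 0
  · subst hs
    have e4 := hf2 0 0
    rw [h0, add_zero] at e4
    have e5 := hu 0
    have : f 0 = 1 := by
      push_cast at e4
      linear_combination (star (f 0)) * e4 - (f 0 - 1) * e5
    rw [if_pos rfl, if_pos rfl, this]; push_cast; ring
  · rw [if_neg hs, if_neg hs]; simp

end Pool.MP_66c627_co.Pw
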