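import Pool.Agent.Work.MP_66c627_co.Grp
import Pool.Agent.Work.MP_66c627_co.Coc

/-! Counting: consequences of the divisibility. -/

namespace Pool.MP_66c627_co.Pw


/-- parity `re + im mod 2` as an additive homomorphism -/
def par : GaussianInt →+ ZMod 2 where
  toFun z := ((z.re + z.im : ℤ) : ZMod 2)
  map_zero' := by simp
  map_add' a b := by
    simp only [Zsqrtd.re_add, Zsqrtd.im_add]
    push_cast; ring

theorem par_norm (z : GaussianInt) (h : par z = 1) : z.norm % 4 = 1 := by
  have h1 : ((z.re + z.im : ℤ) : ZMod 2) = ((1 : ℤ) : ZMod 2) := by rw [Int.cast_one]; exact h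
  rw [ZMod.intCast_eq_intCast_iff] at h1
  have h2 : (z.re + z.im) % 2 = 1 := by
    have := h1
    unfold Int.ModEq at this
    simpa using this
  have h3 : z.norm = z.re * z.re + z.im * z.im := by
    rw [Zsqrtd.norm_def]; ring
  rw [h3]
  rcases Int.even_or_odd' z.re with ⟨a, ha | ha⟩ <;> rcases Int.even_or_odd' z.im with ⟨b, hb | hb⟩
  · omega
  · rw [ha, hb]
    have : 2 * a * (2 * a) + (2 * b + 1) * (2 * b + 1) = 1 + 4 * (a * a + b * b + b) := by ring
    rw [this]; omega
  · rw [ha, hb]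
    have : (2 * a + 1) * (2 * a + 1) + 2 * b * (2 * b) = 1 + 4 * (a * a + a + b * b) := by ring
    rw [this]; omega
  · omega

theorem par_unit (z : GaussianInt) (h : z.norm = 1) : par z = 1 := by
  have h3 : z.norm = z.re * z.re + z.im * z.im := by
    rw [Zsqrtd.norm_def]; ring
  rw [h3] at h
  have h4 : (z.re + z.im) % 2 = 1 := by
    rcases Int.even_or_odd' z.re with ⟨a, ha | ha⟩ <;>
      rcases Int.even_or_odd' z.im with ⟨b, hb | hb⟩
    · rw [ha, hb] at h
      have : 2 * a * (2 * a) + 2 * b * (2 * b) = 2 * (2 * a * a + 2 * b * b) := by ring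
      omega
    · omega
    · omega
    · rw [ha, hb] at h
      have : (2 * a + 1) * (2 * a + 1) + (2 * b + 1) * (2 * b + 1) =
        2 * (2 * a * a + 2 * a + 2 * b * b + 2 * b + 1) := by ring
      omega
  change ((z.re + z.im : ℤ) : ZMod 2) = 1
  have : ((z.re + z.im : ℤ) : ZMod 2) = ((1 : ℤ) : ZMod 2) := by
    rw [ZMod.intCast_eq_intCast_iff]
    unfold Int.ModEq
    simpa using h4
  rw [this, Int.cast_one]

/-- the fibres of the reduction have odd cardinality -/
theorem fiber_odd (p : ℕ) (hp : p.Prime) (hodd : Odd p) (n : ℕ) [NeZero (p ^ (n + 1))] (c : ZMod p) :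
    Odd (Finset.univ.filter (fun a : ZMod (p ^ (n + 1)) => ((a.val : ℕ) : ZMod p) = c)).card := by
  have : NeZero p := ⟨hp.ne_zero⟩
  let π : ZMod (p ^ (n + 1)) →+* ZMod p := ZMod.castHom (dvd_pow_self p (by omega)) (ZMod p)
  have hπ : ∀ a : ZMod (p ^ (n + 1)), ((a.val : ℕ) : ZMod p) = π a := by
    intro a
    rw [ZMod.natCast_val]; rfl
  have hsurj : Function.Surjective π := ZMod.castHom_surjective _
  have heq : ∀ d : ZMod p, (Finset.univ.filter (fun a => π a = d)).card =
      (Finset.univ.filter (fun a => π a = c)).card := by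
    intro d
    exact AddMonoidHom.card_fiber_eq_of_mem_range π (hsurj d) (hsurj c)
  have hsum : (Finset.univ : Finset (ZMod (p ^ (n + 1)))).card =
      ∑ d : ZMod p, (Finset.univ.filter (fun a => π a = d)).card :=
    Finset.card_eq_sum_card_fiberwise (fun a _ => Finset.mem_univ _)
  rw [Finset.sum_congr rfl (fun d _ => heq d), Finset.sum_const, Finset.card_univ, Finset.card_univ,
    ZMod.card, ZMod.card, smul_eq_mul] at hsum
  have h1 : Odd (p * (Finset.univ.filter (fun a => π a = c)).card) := by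
    rw [← hsum]; exact hodd.pow
  have h2 := (Nat.odd_mul.mp h1).2
  simp only [hπ]
  exact h2

section main

variable {H : Type*} [AddCommGroup H] [Fintype H] [DecidableEq H]

theorem dd_norm_mod (p : ℕ) (hp : p.Prime) (hodd : Odd p) (n : ℕ) [NeZero (p ^ (n + 1))]
    (f : ZMod (p ^ (n + 1)) → H → GaussianInt) (hf : ∀ a h, (f a h).norm = 1) (c : ZMod p) (h : H) :
    (dd p f c h).norm % 4 = 1 := by
  apply par_norm
  unfold dd
  rw [map_sum]
  have h1 : ∀ a : ZMod (p ^ (n + 1)), par (if ((a.val : ℕ) : ZMod p) = c then f a h else 0) =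
      if ((a.val : ℕ) : ZMod p) = c then 1 else 0 := by
    intro a
    split_ifs
    · exact par_unit _ (hf a h)
    · exact map_zero par
  rw [Finset.sum_congr rfl (fun a _ => h1 a), Finset.sum_boole]
  obtain ⟨k, hk⟩ := fiber_odd p hp hodd n c
  rw [hk]
  push_cast
  have : (2 : ZMod 2) = 0 := by decide
  rw [this]; ring

theorem total_norm (p : ℕ) (hp : p.Prime) (n : ℕ) [NeZero (p ^ (n + 1))]
    (f : ZMod (p ^ (n + 1)) → H → GaussianInt) (v : ℕ)
    (hAC : ∀ (s : ZMod (p ^ (n + 1))) (h0 : H), ∑ a, ∑ h, f (a + s) (h + h0) * star (f a h) =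
      if s = 0 ∧ h0 = 0 then (v : GaussianInt) else 0) :
    haveI : NeZero p := ⟨hp.ne_zero⟩
    ∑ c : ZMod p, ∑ h, (dd p f c h).norm = (v : ℤ) := by
  have : NeZero p := ⟨hp.ne_zero⟩
  let π : ZMod (p ^ (n + 1)) →+* ZMod p := ZMod.castHom (dvd_pow_self p (by omega)) (ZMod p)
  have hπ : ∀ a : ZMod (p ^ (n + 1)), ((a.val : ℕ) : ZMod p) = π a := by
    intro a
    rw [ZMod.natCast_val]; rfl
  have h1 : ((∑ c : ZMod p, ∑ h, (dd p f c h).norm : ℤ) : GaussianInt) = (v : GaussianInt) := by
    push_cast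
    have h2 : ∀ (c : ZMod p) (h : H), ((dd p f c h).norm : GaussianInt) =
        ∑ a : ZMod (p ^ (n + 1)), ∑ b : ZMod (p ^ (n + 1)),
          if π a = c ∧ π b = c then f a h * star (f b h) else 0 := by
      intro c h
      rw [Zsqrtd.norm_eq_mul_conj]
      unfold dd
      rw [star_sum, Finset.sum_mul_sum]
      refine Finset.sum_congr rfl fun a _ => Finset.sum_congr rfl fun b _ => ?_
      rw [hπ, hπ]
      by_cases ha : π a = c
      · by_cases hb : π b = c
        · simp [ha, hb]
        · simp [ha, hb]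
      · simp [ha]
    rw [Finset.sum_congr rfl (fun c _ => Finset.sum_congr rfl (fun h _ => h2 c h))]
    rw [Finset.sum_comm]
    have h3 : ∀ h : H, ∑ c : ZMod p, ∑ a : ZMod (p ^ (n + 1)), ∑ b : ZMod (p ^ (n + 1)),
        (if π a = c ∧ π b = c then f a h * star (f b h) else 0) =
        ∑ s : ZMod (p ^ (n + 1)), ∑ b : ZMod (p ^ (n + 1)),
          if π s = 0 then f (b + s) h * star (f b h) else 0 := by
      intro h
      rw [Finset.sum_comm]
      have h4 : ∀ a : ZMod (p ^ (n + 1)), ∑ c : ZMod p, ∑ b : ZMod (p ^ (n + 1)),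
          (if π a = c ∧ π b = c then f a h * star (f b h) else 0) =
          ∑ b : ZMod (p ^ (n + 1)), if π a = π b then f a h * star (f b h) else 0 := by
        intro a
        rw [Finset.sum_comm]
        refine Finset.sum_congr rfl fun b _ => ?_
        rw [Finset.sum_eq_single (π b)]
        · simp
        · intro c _ hc
          rw [if_neg]
          intro h5; exact hc h5.2.symm
        · intro h5; exact absurd (Finset.mem_univ _) h5
      rw [Finset.sum_congr rfl (fun a _ => h4 a), Finset.sum_comm]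
      conv_rhs => rw [Finset.sum_comm]
      refine Finset.sum_congr rfl fun b _ => ?_
      rw [← Equiv.sum_comp (Equiv.addLeft b)]
      refine Finset.sum_congr rfl fun s _ => ?_
      have h6 : (π (Equiv.addLeft b s) = π b) ↔ (π s = 0) := by
        change π (b + s) = π b ↔ π s = 0
        rw [map_add]; exact add_eq_left
      by_cases hs : π s = 0
      · rw [if_pos hs, if_pos (h6.mpr hs)]; rfl
      · rw [if_neg hs, if_neg (fun h7 => hs (h6.mp h7))]
    rw [Finset.sum_congr rfl (fun h _ => h3 h), Finset.sum_comm]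
    rw [Finset.sum_eq_single (0 : ZMod (p ^ (n + 1)))]
    · have h8 := hAC 0 0
      rw [if_pos ⟨rfl, rfl⟩] at h8
      rw [Finset.sum_comm, ← h8]
      refine Finset.sum_congr rfl fun a _ => Finset.sum_congr rfl fun h _ => ?_
      rw [map_zero, if_pos rfl, add_zero h]
    · intro s _ hs
      by_cases hs0 : π s = 0
      · have h8 := hAC s 0
        rw [if_neg (fun h9 => hs h9.1)] at h8
        rw [Finset.sum_comm, ← h8]
        refine Finset.sum_congr rfl fun a _ => Finset.sum_congr rfl fun h _ => ?_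
        rw [if_pos hs0, add_zero h]
      · simp [hs0]
    · intro h5; exact absurd (Finset.mem_univ _) h5
  exact_mod_cast h1

/-- The bound for a prime power. -/
theorem group_bound (p : ℕ) (hp : p.Prime) (hodd : Odd p) (e : ℕ) (he : ∀ h : H, e • h = 0)
    (h4 : 4 ∣ e) (hpe : Nat.Coprime p e) (m : ℕ) (hcard : Fintype.card H = 4 * m)
    (hpm : Nat.Coprime p (4 * m)) (hm : 0 < m)
    (n : ℕ) [NeZero (p ^ (n + 1))] (f : ZMod (p ^ (n + 1)) → H → GaussianInt)
    (hf : ∀ a h, (f a h).norm = 1)
    (hAC : ∀ (s : ZMod (p ^ (n + 1))) (h0 : H), ∑ a, ∑ h, f (a + s) (h + h0) * star (f a h) =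
      if s = 0 ∧ h0 = 0 then ((p ^ (n + 1) * (4 * m) : ℕ) : GaussianInt) else 0) :
    0 < n ∧ p ≤ m := by
  have : NeZero p := ⟨hp.ne_zero⟩
  have hnorm := dd_norm_mod p hp hodd n f hf
  have hnn : ∀ c h, 0 ≤ (dd p f c h).norm := fun c h => GaussianInt.norm_nonneg _
  have hge : ∀ c h, 1 ≤ (dd p f c h).norm := by
    intro c h
    have h1 := hnorm c h
    have h2 := hnn c h
    omega
  have htot := total_norm p hp n f (p ^ (n + 1) * (4 * m)) hAC
  have hdvd := norm_dvd p hp e he h4 hpe n f (4 * m) hpm hAC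
  -- lower bound by 4 m
  have hlow : ∀ c : ZMod p, ((4 * m : ℕ) : ℤ) ≤ ∑ h, (dd p f c h).norm := by
    intro c
    calc ((4 * m : ℕ) : ℤ) = ∑ _h : H, (1 : ℤ) := by
          rw [Finset.sum_const, Finset.card_univ, hcard]; simp
      _ ≤ _ := Finset.sum_le_sum fun h _ => hge c h
  have h4d : ∀ c : ZMod p, (4 : ℤ) ∣ ∑ h, (dd p f c h).norm := by
    intro c
    have h1 : (4 : ℤ) ∣ ∑ h, ((dd p f c h).norm - 1) := by
      apply Finset.dvd_sum
      intro h _
      have := hnorm c h
      omega
    rw [Finset.sum_sub_distrib, Finset.sum_const, Finset.card_univ, hcard] at h1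
    have h2 : (4 : ℤ) ∣ ((4 * m) • (1 : ℤ)) := ⟨m, by simp⟩
    have := dvd_add h1 h2
    simpa using this
  constructor
  · by_contra hn
    have hn0 : n = 0 := by omega
    subst hn0
    -- each sum is exactly 4m
    have heq : ∀ c : ZMod p, ∑ h, (dd p f c h).norm = ((4 * m : ℕ) : ℤ) := by
      have h1 : ∑ c : ZMod p, (∑ h, (dd p f c h).norm - ((4 * m : ℕ) : ℤ)) = 0 := by
        rw [Finset.sum_sub_distrib, htot, Finset.sum_const, Finset.card_univ, ZMod.card]
        push_cast
        ring
      have h2 := (Finset.sum_eq_zero_iff_of_nonneg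
        (fun c _ => sub_nonneg.mpr (hlow c))).mp h1
      intro c
      have := h2 c (Finset.mem_univ _)
      linarith
    have h3 := hdvd 0
    rw [heq 0, zero_add, pow_one] at h3
    have h4' : p ∣ 4 * m := by exact_mod_cast h3
    have := Nat.Coprime.eq_one_of_dvd hpm h4'
    exact hp.one_lt.ne' this
  · have h4p : IsCoprime (4 : ℤ) ((p : ℤ) ^ (n + 1)) := by
      apply IsCoprime.pow_right
      have : Nat.Coprime 4 p := by
        have h5 : Nat.Coprime 2 p := (Nat.coprime_primes Nat.prime_two hp).mpr (by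
          rintro rfl
          exact absurd hodd (by decide))
        have := Nat.Coprime.pow_left 2 h5
        simpa using this
      exact_mod_cast Nat.isCoprime_iff_coprime.mpr this
    have hbig : ∀ c : ZMod p, 4 * (p : ℤ) ^ (n + 1) ≤ ∑ h, (dd p f c h).norm := by
      intro c
      apply Int.le_of_dvd
      · have h5 := hlow c
        have h6 : (0 : ℤ) < ((4 * m : ℕ) : ℤ) := by exact_mod_cast (by omega : 0 < 4 * m)
        linarith
      · exact h4p.mul_dvd (h4d c) (hdvd c)
    have h7 : (p : ℤ) * (4 * (p : ℤ) ^ (n + 1)) ≤ ((p ^ (n + 1) * (4 * m) : ℕ) : ℤ) := by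
      rw [← htot]
      calc (p : ℤ) * (4 * (p : ℤ) ^ (n + 1)) = ∑ _c : ZMod p, 4 * (p : ℤ) ^ (n + 1) := by
            rw [Finset.sum_const, Finset.card_univ, ZMod.card]; simp
        _ ≤ _ := Finset.sum_le_sum fun c _ => hbig c
    have h8 : p * (4 * p ^ (n + 1)) ≤ p ^ (n + 1) * (4 * m) := by exact_mod_cast h7
    have h9 : 0 < p ^ (n + 1) := pow_pos hp.pos _
    have h10 : p ^ (n + 1) * (4 * p) ≤ p ^ (n + 1) * (4 * m) := by
      calc p ^ (n + 1) * (4 * p) = p * (4 * p ^ (n + 1)) := by ring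
        _ ≤ _ := h8
    have := Nat.le_of_mul_le_mul_left h10 h9
    omega

end main

end Pool.MP_66c627_co.Pw
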