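import Pool.Agent.Work.MP_66c627_co.Fin

/-! Statements of the items for the stronger theorem (field descent and Turyn test). -/

namespace Pool.MP_66c627_co.Pw

/-- the product of the primes other than `q` which divide `t` -/
def radE (t q : ℕ) : ℕ := ∏ l ∈ t.primeFactors.erase q, l

/-- PARS: Parseval bound on the cyclic group of order `F`. -/
def S_Pars : Prop := ∀ (F v : ℕ) (G : ZMod 2 × ZMod 2 → ℕ → ℂ), 0 < F →
  (∀ j < F, ∑ e, Complex.normSq (G e j) = 4) →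
  (∀ e, ∀ ω : ℂ, IsPrimitiveRoot ω F →
    Complex.normSq (∑ j ∈ Finset.range F, G e j * ω ^ j) = v) →
  Nat.totient F * v ≤ F ^ 2

/-- LTE: from the order of `q` modulo `4 radE` to a power of `q` congruent to `1 + 4 t / p`. -/
def S_Lte : Prop := ∀ (t p q o : ℕ), Odd t → p.Prime → q.Prime → p ^ 2 ∣ t → q ∣ t → q ≠ p → 0 < o →
  q ^ o ≡ 1 [MOD 4 * radE t q] → ¬ q ^ o ≡ 1 [MOD p ^ t.factorization p] →
  ∃ J : ℕ, q ^ J ≡ 1 + 4 * (t / p) [MOD ordCompl[q] (4 * t)]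

/-- The conclusion of the field descent. -/
def HC (t : ℕ) : Prop := ∀ p : ℕ, p.Prime → p ∣ t → p * t.totient ≤ t ∨
  ∃ q : ℕ, q.Prime ∧ q ∣ t ∧ q ≠ p ∧
    q ^ orderOf ((q : ℕ) : ZMod (4 * radE t q)) ≡ 1 [MOD p ^ t.factorization p]

/-- WIEF: the largest prime factor of `t` has a Wieferich partner. -/
def S_Wief : Prop := ∀ t : ℕ, Odd t → 1 < t → (∀ p : ℕ, p.Prime → p ∣ t → p ^ 2 ∣ t) → HC t →
  ∀ P : ℕ, P.Prime → P ∣ t → (∀ l : ℕ, l.Prime → l ∣ t → l ≤ P) →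
    ∃ q : ℕ, q.Prime ∧ q ∣ t ∧ q ≠ P ∧ q ^ (P - 1) ≡ 1 [MOD P ^ t.factorization P]

/-- SC: from the radical to the number itself. -/
def S_SC : Prop := ∀ (m p j : ℕ), Odd m → 4 * ∏ l ∈ m.primeFactors, l ∣ p ^ j + 1 →
  4 * m ∣ p ^ (j * m) + 1

/-- TUR: the self-conjugate case is impossible. -/
def S_Tur : Prop := ∀ (H : Type) [AddCommGroup H] [Fintype H] [DecidableEq H]
  (p : ℕ) (_ : p.Prime) (_ : Odd p) (e : ℕ) (_ : ∀ h : H, e • h = 0)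
  (_ : 4 ∣ e) (_ : Nat.Coprime p e) (m : ℕ) (_ : Fintype.card H = 4 * m)
  (_ : Nat.Coprime p (4 * m)) (_ : 0 < m)
  (n : ℕ) [NeZero (p ^ (n + 1))] (f : ZMod (p ^ (n + 1)) → H → GaussianInt)
  (_ : ∀ a h, (f a h).norm = 1)
  (_ : ∀ (s : ZMod (p ^ (n + 1))) (h0 : H), ∑ a, ∑ h, f (a + s) (h + h0) * star (f a h) =
    if s = 0 ∧ h0 = 0 then ((p ^ (n + 1) * (4 * m) : ℕ) : GaussianInt) else 0)
  (j : ℕ) (_ : e ∣ p ^ j + 1), False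

/-- ENUM: nothing below `11715 ^ 2`. -/
def S_Enum : Prop := ∀ t : ℕ, Odd t → 1 < t → t < 137241225 →
  (∀ p : ℕ, p.Prime → p ∣ t → p ^ 2 ∣ t ∧ p ^ (t.factorization p + 1) ≤ t) → HC t →
  (∀ p : ℕ, p.Prime → p ∣ t → ∀ j : ℕ, ¬ (4 * radE t p ∣ p ^ j + 1)) →
  (∀ P : ℕ, P.Prime → P ∣ t → (∀ l : ℕ, l.Prime → l ∣ t → l ≤ P) →
    ∃ q : ℕ, q.Prime ∧ q ∣ t ∧ q ≠ P ∧ q ^ (P - 1) ≡ 1 [MOD P ^ t.factorization P]) → False

end Pool.MP_66c627_co.Pw
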