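import Mathlib
import Pool.Agent.Work.MP_66c627_co.Stmts2

/-! Item ENUM: no admissible `t` below `11715 ^ 2`. -/

namespace Pool.MP_66c627_co.Pw

/-- the odd primes below 516 -/
def eps : List ℕ := [3, 5, 7, 11, 13, 17, 19, 23, 29, 31, 37, 41, 43, 47, 53, 59, 61, 67, 71, 73, 79, 83, 89, 97, 101, 103, 107, 109, 113, 127, 131, 137, 139, 149, 151, 157, 163, 167, 173, 179, 181, 191, 193, 197, 199, 211, 223, 227, 229, 233, 239, 241, 251, 257, 263, 269, 271, 277, 281, 283, 293, 307, 311, 313, 317, 331, 337, 347, 349, 353, 359, 367, 373, 379, 383, 389, 397, 401, 409, 419, 421, 431, 433, 439, 443, 449, 457, 461, 463, 467, 479, 487, 491, 499, 503, 509]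

/-- the Wieferich pairs -/
def epairs : List (ℕ × ℕ) := [(3, 11), (19, 43), (53, 59), (11, 71), (31, 79), (53, 97), (43, 103), (19, 137)]

/-- the radicals -/
def erads : List ℕ := [33, 165, 231, 781, 817, 1155, 2343, 2449, 2451, 2603, 3127, 3905, 4085, 4429, 5141, 5467, 5719, 7347, 7809, 8987, 9381, 10153, 10621]

theorem eps_prime : ∀ l ∈ eps, l.Prime := by
  intro l hl
  simp only [eps, List.mem_cons, List.not_mem_nil, or_false] at hl
  rcases hl with rfl | rfl | rfl | rfl | rfl | rfl | rfl | rfl | rfl | rfl | rfl | rfl | rfl | rfl | rfl | rfl | rfl | rfl | rfl | rfl | rfl | rfl | rfl | rfl | rfl | rfl | rfl | rfl | rfl | rfl | rfl | rfl | rfl | rfl | rfl | rfl | rfl | rfl | rfl | rfl | rfl | rfl | rfl | rfl | rfl | rfl | rfl | rfl | rfl | rfl | rfl | rfl | rfl | rfl | rfl | rfl | rfl | rfl | rfl | rfl | rfl | rfl | rfl | rfl | rfl | rfl | rfl | rfl | rfl | rfl | rfl | rfl | rfl | rfl | rfl | rfl | rfl | rfl | rfl | rfl | rfl | rfl | rfl | rfl | rfl | rfl | rfl | rfl | rfl | rfl | rfl | rfl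 | rfl | rfl | rfl | rfl <;> norm_num

theorem eps_complete_aux : ∀ p < 516, p ∈ eps ∨ p < 3 ∨
    ∃ d ∈ [2, 3, 5, 7, 11, 13, 17, 19], d ∣ p ∧ d ≠ p := by
  decide +kernel

theorem eps_complete (p : ℕ) (hp : p.Prime) (h2 : p ≠ 2) (hlt : p < 516) : p ∈ eps := by
  rcases eps_complete_aux p hlt with h | h | ⟨d, hd, hdp, hne⟩
  · exact h
  · exfalso
    have := hp.two_le
    omega
  · exfalso
    rcases (Nat.dvd_prime hp).1 hdp with h | h
    · subst h
      simp at hd
    · exact hne h

theorem epairs_complete : ∀ P ∈ eps, ∀ q ∈ eps, q < P → q * P < 11715 → q ^ (P - 1) % P ^ 2 = 1 →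
    (q, P) ∈ epairs := by
  decide +kernel

theorem erads_complete : ∀ x ∈ epairs, ∀ s < 356, x.1 * x.2 * s < 11715 → s % 2 = 1 →
    (∀ d ∈ [3, 5, 7, 11, 13, 17], ¬ d * d ∣ s) → ¬ x.1 ∣ s → ¬ x.2 ∣ s →
    (∀ l ∈ eps, x.2 < l → ¬ l ∣ s) → x.1 * x.2 * s ∈ erads := by
  decide +kernel

/-- the descent test fails at `p` -/
theorem ekill (t p : ℕ) (S : Finset ℕ) (f : ℕ → ℕ) (ht : 0 < t) (hS : t.primeFactors = S)
    (hp : p.Prime) (hpS : p ∈ S) (hp2 : p ^ 2 ∣ t)
    (hB : ∏ l ∈ S, l < p * ∏ l ∈ S, (l - 1))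
    (hO : ∀ q ∈ S, q ≠ p → q ^ f q % (4 * ∏ l ∈ S.erase q, l) = 1 ∧ q ^ f q % p ^ 2 ≠ 1)
    (h4 : ∀ q ∈ S, 1 < 4 * ∏ l ∈ S.erase q, l)
    (hHC : HC t) : False := by
  have hpt : p ∣ t := Nat.dvd_of_mem_primeFactors (hS ▸ hpS)
  rcases hHC p hp hpt with h | ⟨q, hq, hqt, hqp, hqo⟩
  · have h1 := Nat.totient_mul_prod_primeFactors t
    rw [hS] at h1
    have h2 : p * t.totient * ∏ l ∈ S, l ≤ t * ∏ l ∈ S, l := Nat.mul_le_mul_right _ h
    have h3 : t * (p * ∏ l ∈ S, (l - 1)) ≤ t * ∏ l ∈ S, l := by
      calc t * (p * ∏ l ∈ S, (l - 1)) = p * (t * ∏ l ∈ S, (l - 1)) := by ring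
        _ = p * (t.totient * ∏ l ∈ S, l) := by rw [h1]
        _ = p * t.totient * ∏ l ∈ S, l := by ring
        _ ≤ _ := h2
    have h4 := Nat.le_of_mul_le_mul_left h3 ht
    omega
  · have hqS : q ∈ S := by
      rw [← hS]
      exact Nat.mem_primeFactors.2 ⟨hq, hqt, by omega⟩
    obtain ⟨ho1, ho2⟩ := hO q hqS hqp
    have hrad : radE t q = ∏ l ∈ S.erase q, l := by rw [radE, hS]
    have hm := h4 q hqS
    rw [hrad] at hqo
    set m := 4 * ∏ l ∈ S.erase q, l with hmdef
    have hpow : ((q : ℕ) : ZMod m) ^ f q = 1 := by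
      have : ((q ^ f q : ℕ) : ZMod m) = ((1 : ℕ) : ZMod m) := by
        rw [ZMod.natCast_eq_natCast_iff]
        unfold Nat.ModEq
        rw [ho1, Nat.mod_eq_of_lt hm]
      push_cast at this
      exact this
    obtain ⟨c, hc⟩ := orderOf_dvd_of_pow_eq_one hpow
    have h5 : q ^ f q ≡ 1 [MOD p ^ t.factorization p] := by
      rw [hc, pow_mul]
      have := hqo.pow c
      rwa [one_pow] at this
    have hf2 : 2 ≤ t.factorization p := (hp.pow_dvd_iff_le_factorization (by omega)).1 hp2
    have h6 : q ^ f q ≡ 1 [MOD p ^ 2] := h5.of_dvd (pow_dvd_pow p hf2)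
    apply ho2
    have h7 : 1 < p ^ 2 := by
      have := hp.two_le
      nlinarith
    unfold Nat.ModEq at h6
    rw [h6, Nat.mod_eq_of_lt h7]

theorem eset (t : ℕ) (S : Finset ℕ) (hS : ∀ p ∈ S, p.Prime)
    (h : ∏ l ∈ t.primeFactors, l = ∏ l ∈ S, l) : t.primeFactors = S := by
  rw [← Nat.primeFactors_prod hS, ← h, Nat.primeFactors_prod_primeFactors]

theorem erow (t r : ℕ) (hr : r ∈ erads) (hrt : ∏ l ∈ t.primeFactors, l = r) (ht : 0 < t)
    (h2 : ∀ p : ℕ, p.Prime → p ∣ t → p ^ 2 ∣ t) (hHC : HC t)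
    (hSC : ∀ p : ℕ, p.Prime → p ∣ t → ∀ j : ℕ, ¬ (4 * radE t p ∣ p ^ j + 1)) : False := by
  simp only [erads, List.mem_cons, List.not_mem_nil, or_false] at hr
  rcases hr with rfl | rfl | rfl | rfl | rfl | rfl | rfl | rfl | rfl | rfl | rfl | rfl | rfl | rfl | rfl | rfl | rfl | rfl | rfl | rfl | rfl | rfl | rfl
  · have hS : t.primeFactors = {3, 11} := eset t {3, 11} (by simp; norm_num) (by rw [hrt]; decide +kernel)
    have hpt : 3 ∣ t := Nat.dvd_of_mem_primeFactors (by rw [hS]; simp)
    exact ekill t 3 {3, 11} (fun q => if q = 11 then 2 else 0) ht hS (by norm_num) (by simp)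
      (h2 3 (by norm_num) hpt) (by decide +kernel) (by decide +kernel) (by decide +kernel) hHC
  · have hS : t.primeFactors = {3, 5, 11} := eset t {3, 5, 11} (by simp; norm_num) (by rw [hrt]; decide +kernel)
    have hpt : 3 ∣ t := Nat.dvd_of_mem_primeFactors (by rw [hS]; simp)
    exact ekill t 3 {3, 5, 11} (fun q => if q = 5 then 10 else if q = 11 then 2 else 0) ht hS (by norm_num) (by simp)
      (h2 3 (by norm_num) hpt) (by decide +kernel) (by decide +kernel) (by decide +kernel) hHC
  · have hS : t.primeFactors = {3, 7, 11} := eset t {3, 7, 11} (by simp; norm_num) (by rw [hrt]; decide +kernel)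
    have hpt : 7 ∣ t := Nat.dvd_of_mem_primeFactors (by rw [hS]; simp)
    exact ekill t 7 {3, 7, 11} (fun q => if q = 3 then 30 else if q = 11 then 6 else 0) ht hS (by norm_num) (by simp)
      (h2 7 (by norm_num) hpt) (by decide +kernel) (by decide +kernel) (by decide +kernel) hHC
  · have hS : t.primeFactors = {11, 71} := eset t {11, 71} (by simp; norm_num) (by rw [hrt]; decide +kernel)
    have hpt : 11 ∣ t := Nat.dvd_of_mem_primeFactors (by rw [hS]; simp)
    exact ekill t 11 {11, 71} (fun q => if q = 71 then 10 else 0) ht hS (by norm_num) (by simp)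
      (h2 11 (by norm_num) hpt) (by decide +kernel) (by decide +kernel) (by decide +kernel) hHC
  · have hS : t.primeFactors = {19, 43} := eset t {19, 43} (by simp; norm_num) (by rw [hrt]; decide +kernel)
    have hpt : 19 ∣ t := Nat.dvd_of_mem_primeFactors (by rw [hS]; simp)
    exact ekill t 19 {19, 43} (fun q => if q = 43 then 18 else 0) ht hS (by norm_num) (by simp)
      (h2 19 (by norm_num) hpt) (by decide +kernel) (by decide +kernel) (by decide +kernel) hHC
  · have hS : t.primeFactors = {3, 5, 7, 11} := eset t {3, 5, 7, 11} (by simp; norm_num) (by rw [hrt]; decide +kernel)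
    have hpt : 7 ∣ t := Nat.dvd_of_mem_primeFactors (by rw [hS]; simp)
    exact ekill t 7 {3, 5, 7, 11} (fun q => if q = 3 then 60 else if q = 5 then 30 else if q = 11 then 6 else 0) ht hS (by norm_num) (by simp)
      (h2 7 (by norm_num) hpt) (by decide +kernel) (by decide +kernel) (by decide +kernel) hHC
  · have hS : t.primeFactors = {3, 11, 71} := eset t {3, 11, 71} (by simp; norm_num) (by rw [hrt]; decide +kernel)
    have h11 : 11 ∣ t := Nat.dvd_of_mem_primeFactors (by rw [hS]; simp)
    apply hSC 11 (by norm_num) h11 35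
    rw [radE, hS]
    decide +kernel
  · have hS : t.primeFactors = {31, 79} := eset t {31, 79} (by simp; norm_num) (by rw [hrt]; decide +kernel)
    have hpt : 31 ∣ t := Nat.dvd_of_mem_primeFactors (by rw [hS]; simp)
    exact ekill t 31 {31, 79} (fun q => if q = 79 then 30 else 0) ht hS (by norm_num) (by simp)
      (h2 31 (by norm_num) hpt) (by decide +kernel) (by decide +kernel) (by decide +kernel) hHC
  · have hS : t.primeFactors = {3, 19, 43} := eset t {3, 19, 43} (by simp; norm_num) (by rw [hrt]; decide +kernel)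
    have hpt : 19 ∣ t := Nat.dvd_of_mem_primeFactors (by rw [hS]; simp)
    exact ekill t 19 {3, 19, 43} (fun q => if q = 3 then 126 else if q = 43 then 18 else 0) ht hS (by norm_num) (by simp)
      (h2 19 (by norm_num) hpt) (by decide +kernel) (by decide +kernel) (by decide +kernel) hHC
  · have hS : t.primeFactors = {19, 137} := eset t {19, 137} (by simp; norm_num) (by rw [hrt]; decide +kernel)
    have hpt : 19 ∣ t := Nat.dvd_of_mem_primeFactors (by rw [hS]; simp)
    exact ekill t 19 {19, 137} (fun q => if q = 137 then 9 else 0) ht hS (by norm_num) (by simp)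
      (h2 19 (by norm_num) hpt) (by decide +kernel) (by decide +kernel) (by decide +kernel) hHC
  · have hS : t.primeFactors = {53, 59} := eset t {53, 59} (by simp; norm_num) (by rw [hrt]; decide +kernel)
    have hpt : 53 ∣ t := Nat.dvd_of_mem_primeFactors (by rw [hS]; simp)
    exact ekill t 53 {53, 59} (fun q => if q = 59 then 26 else 0) ht hS (by norm_num) (by simp)
      (h2 53 (by norm_num) hpt) (by decide +kernel) (by decide +kernel) (by decide +kernel) hHC
  · have hS : t.primeFactors = {5, 11, 71} := eset t {5, 11, 71} (by simp; norm_num) (by rw [hrt]; decide +kernel)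
    have hpt : 11 ∣ t := Nat.dvd_of_mem_primeFactors (by rw [hS]; simp)
    exact ekill t 11 {5, 11, 71} (fun q => if q = 5 then 5 else if q = 71 then 10 else 0) ht hS (by norm_num) (by simp)
      (h2 11 (by norm_num) hpt) (by decide +kernel) (by decide +kernel) (by decide +kernel) hHC
  · have hS : t.primeFactors = {5, 19, 43} := eset t {5, 19, 43} (by simp; norm_num) (by rw [hrt]; decide +kernel)
    have hpt : 19 ∣ t := Nat.dvd_of_mem_primeFactors (by rw [hS]; simp)
    exact ekill t 19 {5, 19, 43} (fun q => if q = 5 then 126 else if q = 43 then 36 else 0) ht hS (by norm_num) (by simp)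
      (h2 19 (by norm_num) hpt) (by decide +kernel) (by decide +kernel) (by decide +kernel) hHC
  · have hS : t.primeFactors = {43, 103} := eset t {43, 103} (by simp; norm_num) (by rw [hrt]; decide +kernel)
    have hpt : 43 ∣ t := Nat.dvd_of_mem_primeFactors (by rw [hS]; simp)
    exact ekill t 43 {43, 103} (fun q => if q = 103 then 42 else 0) ht hS (by norm_num) (by simp)
      (h2 43 (by norm_num) hpt) (by decide +kernel) (by decide +kernel) (by decide +kernel) hHC
  · have hS : t.primeFactors = {53, 97} := eset t {53, 97} (by simp; norm_num) (by rw [hrt]; decide +kernel)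
    have hpt : 53 ∣ t := Nat.dvd_of_mem_primeFactors (by rw [hS]; simp)
    exact ekill t 53 {53, 97} (fun q => if q = 97 then 13 else 0) ht hS (by norm_num) (by simp)
      (h2 53 (by norm_num) hpt) (by decide +kernel) (by decide +kernel) (by decide +kernel) hHC
  · have hS : t.primeFactors = {7, 11, 71} := eset t {7, 11, 71} (by simp; norm_num) (by rw [hrt]; decide +kernel)
    have hpt : 11 ∣ t := Nat.dvd_of_mem_primeFactors (by rw [hS]; simp)
    exact ekill t 11 {7, 11, 71} (fun q => if q = 7 then 70 else if q = 71 then 10 else 0) ht hS (by norm_num) (by simp)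
      (h2 11 (by norm_num) hpt) (by decide +kernel) (by decide +kernel) (by decide +kernel) hHC
  · have hS : t.primeFactors = {7, 19, 43} := eset t {7, 19, 43} (by simp; norm_num) (by rw [hrt]; decide +kernel)
    have hpt : 19 ∣ t := Nat.dvd_of_mem_primeFactors (by rw [hS]; simp)
    exact ekill t 19 {7, 19, 43} (fun q => if q = 7 then 6 else if q = 43 then 18 else 0) ht hS (by norm_num) (by simp)
      (h2 19 (by norm_num) hpt) (by decide +kernel) (by decide +kernel) (by decide +kernel) hHC
  · have hS : t.primeFactors = {3, 31, 79} := eset t {3, 31, 79} (by simp; norm_num) (by rw [hrt]; decide +kernel)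
    have hpt : 31 ∣ t := Nat.dvd_of_mem_primeFactors (by rw [hS]; simp)
    exact ekill t 31 {3, 31, 79} (fun q => if q = 3 then 390 else if q = 79 then 30 else 0) ht hS (by norm_num) (by simp)
      (h2 31 (by norm_num) hpt) (by decide +kernel) (by decide +kernel) (by decide +kernel) hHC
  · have hS : t.primeFactors = {3, 19, 137} := eset t {3, 19, 137} (by simp; norm_num) (by rw [hrt]; decide +kernel)
    have hpt : 19 ∣ t := Nat.dvd_of_mem_primeFactors (by rw [hS]; simp)
    exact ekill t 19 {3, 19, 137} (fun q => if q = 3 then 1224 else if q = 137 then 18 else 0) ht hS (by norm_num) (by simp)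
      (h2 19 (by norm_num) hpt) (by decide +kernel) (by decide +kernel) (by decide +kernel) hHC
  · have hS : t.primeFactors = {11, 19, 43} := eset t {11, 19, 43} (by simp; norm_num) (by rw [hrt]; decide +kernel)
    have hpt : 19 ∣ t := Nat.dvd_of_mem_primeFactors (by rw [hS]; simp)
    exact ekill t 19 {11, 19, 43} (fun q => if q = 11 then 42 else if q = 43 then 18 else 0) ht hS (by norm_num) (by simp)
      (h2 19 (by norm_num) hpt) (by decide +kernel) (by decide +kernel) (by decide +kernel) hHC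
  · have hS : t.primeFactors = {3, 53, 59} := eset t {3, 53, 59} (by simp; norm_num) (by rw [hrt]; decide +kernel)
    have hpt : 53 ∣ t := Nat.dvd_of_mem_primeFactors (by rw [hS]; simp)
    exact ekill t 53 {3, 53, 59} (fun q => if q = 3 then 1508 else if q = 59 then 26 else 0) ht hS (by norm_num) (by simp)
      (h2 53 (by norm_num) hpt) (by decide +kernel) (by decide +kernel) (by decide +kernel) hHC
  · have hS : t.primeFactors = {11, 13, 71} := eset t {11, 13, 71} (by simp; norm_num) (by rw [hrt]; decide +kernel)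
    have hpt : 11 ∣ t := Nat.dvd_of_mem_primeFactors (by rw [hS]; simp)
    exact ekill t 11 {11, 13, 71} (fun q => if q = 13 then 70 else if q = 71 then 60 else 0) ht hS (by norm_num) (by simp)
      (h2 11 (by norm_num) hpt) (by decide +kernel) (by decide +kernel) (by decide +kernel) hHC
  · have hS : t.primeFactors = {13, 19, 43} := eset t {13, 19, 43} (by simp; norm_num) (by rw [hrt]; decide +kernel)
    have hpt : 19 ∣ t := Nat.dvd_of_mem_primeFactors (by rw [hS]; simp)
    exact ekill t 19 {13, 19, 43} (fun q => if q = 13 then 126 else if q = 43 then 18 else 0) ht hS (by norm_num) (by simp)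
      (h2 19 (by norm_num) hpt) (by decide +kernel) (by decide +kernel) (by decide +kernel) hHC

theorem enum : S_Enum := by
  intro t hodd ht1 htlt h1 hHC hSC hW
  have ht0 : t ≠ 0 := by omega
  have hne : t.primeFactors.Nonempty := Nat.nonempty_primeFactors.2 ht1
  obtain ⟨P, hPm, hPmax'⟩ := t.primeFactors.exists_max_image id hne
  have hPp : P.Prime := Nat.prime_of_mem_primeFactors hPm
  have hPd : P ∣ t := Nat.dvd_of_mem_primeFactors hPm
  have hPmax : ∀ l : ℕ, l.Prime → l ∣ t → l ≤ P := fun l hl hld =>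
    hPmax' l (Nat.mem_primeFactors.2 ⟨hl, hld, ht0⟩)
  obtain ⟨q, hq, hqd, hqP, hqW⟩ := hW P hPp hPd hPmax
  have hqlt : q < P := lt_of_le_of_ne (hPmax q hq hqd) hqP
  have hfP : 2 ≤ t.factorization P := (hPp.pow_dvd_iff_le_factorization ht0).1 (h1 P hPp hPd).1
  have hP3 : P ^ 3 ≤ t :=
    le_trans (Nat.pow_le_pow_right hPp.pos (by omega)) (h1 P hPp hPd).2
  have hP516 : P < 516 := by
    by_contra h
    have h3 : 516 ^ 3 ≤ P ^ 3 := Nat.pow_le_pow_left (by omega) 3
    norm_num at h3
    omega
  have hnot2 : ∀ l : ℕ, l ∣ t → ¬ 2 ∣ l := by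
    intro l hl h
    have : 2 ∣ t := h.trans hl
    have h' := hodd.not_two_dvd_nat
    exact h' this
  have hPe : P ∈ eps := eps_complete P hPp (fun h => hnot2 P hPd (by rw [h])) hP516
  have hqe : q ∈ eps := eps_complete q hq (fun h => hnot2 q hqd (by rw [h])) (by omega)
  set r := ∏ l ∈ t.primeFactors, l with hr
  have hrt : r ∣ t := Nat.prod_primeFactors_dvd t
  have hr2 : r ^ 2 ∣ t := by
    conv_rhs => rw [← Nat.prod_factorization_pow_eq_self ht0]
    rw [hr, ← Finset.prod_pow, Finsupp.prod, Nat.support_factorization]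
    apply Finset.prod_dvd_prod_of_dvd
    intro l hl
    have hlp := Nat.prime_of_mem_primeFactors hl
    have hld := Nat.dvd_of_mem_primeFactors hl
    exact pow_dvd_pow l ((hlp.pow_dvd_iff_le_factorization ht0).1 (h1 l hlp hld).1)
  have hrlt : r < 11715 := by
    by_contra h
    have h3 : 11715 ^ 2 ≤ r ^ 2 := Nat.pow_le_pow_left (by omega) 2
    have h4 := Nat.le_of_dvd (by omega) hr2
    norm_num at h3
    omega
  have hsq : Squarefree r := by
    rw [hr]
    refine Finset.squarefree_prod_of_pairwise_isCoprime (fun _ ha _ hb hab ↦ ?_)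
      (fun _ ha ↦ (Nat.prime_of_mem_primeFactors ha).squarefree)
    rw [Function.onFun_apply, ← Nat.coprime_iff_isRelPrime]
    exact (Nat.coprime_primes (Nat.prime_of_mem_primeFactors ha)
      (Nat.prime_of_mem_primeFactors hb)).2 hab
  have hqm : q ∈ t.primeFactors := Nat.mem_primeFactors.2 ⟨hq, hqd, ht0⟩
  have hqPr : q * P ∣ r := by
    apply Nat.Coprime.mul_dvd_of_dvd_of_dvd ((Nat.coprime_primes hq hPp).2 hqP)
    · exact Finset.dvd_prod_of_mem _ hqm
    · exact Finset.dvd_prod_of_mem _ hPm
  obtain ⟨s, hs⟩ := hqPr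
  have hsr : s ∣ r := ⟨q * P, by rw [hs]; ring⟩
  have hspos : 0 < s := by
    rcases Nat.eq_zero_or_pos s with h | h
    · exfalso
      rw [h, mul_zero] at hs
      exact hsq.ne_zero hs
    · exact h
  have hqPlt : q * P < 11715 := by
    calc q * P ≤ q * P * s := Nat.le_mul_of_pos_right _ hspos
      _ = r := hs.symm
      _ < 11715 := hrlt
  have hWm : q ^ (P - 1) % P ^ 2 = 1 := by
    have h3 : q ^ (P - 1) ≡ 1 [MOD P ^ 2] := hqW.of_dvd (pow_dvd_pow P hfP)
    unfold Nat.ModEq at h3
    rw [h3, Nat.mod_eq_of_lt]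
    have := hPp.two_le
    nlinarith
  have hpair := epairs_complete P hPe q hqe hqlt hqPlt hWm
  have hq3 : 3 ≤ q := by
    rcases Nat.lt_or_ge q 3 with h | h
    · exfalso
      have h2 : q = 2 := by
        have := hq.two_le
        omega
      exact hnot2 q hqd (by rw [h2])
    · exact h
  have hP11 : 11 ≤ P := by
    have : ∀ x ∈ epairs, 11 ≤ x.2 := by decide
    exact this _ hpair
  have hs356 : s < 356 := by
    by_contra h
    have h3 : 3 * 11 ≤ q * P := Nat.mul_le_mul hq3 hP11
    have h4 : 33 * 356 ≤ q * P * s := Nat.mul_le_mul h3 (by omega)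
    omega
  have hmem : q * P * s ∈ erads := by
    refine erads_complete (q, P) hpair s hs356 ?_ ?_ ?_ ?_ ?_ ?_
    · show q * P * s < 11715
      rw [← hs]; exact hrlt
    · have := hnot2 s (hsr.trans hrt)
      omega
    · intro d hd hdd
      have h3 : IsUnit d := hsq d (hdd.trans hsr)
      rw [Nat.isUnit_iff] at h3
      subst h3
      simp at hd
    · intro hqs
      obtain ⟨c, hc⟩ := hqs
      have h3 : IsUnit q := hsq q ⟨P * c, by rw [hs, hc]; ring⟩
      rw [Nat.isUnit_iff] at h3
      omega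
    · intro hPs
      obtain ⟨c, hc⟩ := hPs
      have h3 : IsUnit P := hsq P ⟨q * c, by rw [hs, hc]; ring⟩
      rw [Nat.isUnit_iff] at h3
      omega
    · intro l hl hPl hls
      have := hPmax l (eps_prime l hl) (hls.trans (hsr.trans hrt))
      simp only at hPl
      omega
  rw [← hs] at hmem
  exact erow t r hmem hr.symm (by omega) (fun p hp hd => (h1 p hp hd).1) hHC hSC

end Pool.MP_66c627_co.Pw
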