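import Pool.Agent.Work.MP_66c627_co.FLoc
import Pool.Agent.Work.MP_66c627_co.Alt

/-! Basic facts on the maps of `FDefs`. -/

set_option autoImplicit false

namespace Pool.MP_66c627_co.Full

variable {M : Type*} [AddCommGroup M]

theorem cp_cj (t : ℕ) (p : t.primeFactors) (z : GR (Gam t)) :
    cp t p (cj (Gam t) z) = cj (Gam t) (cp t p z) := by
  induction z using AddMonoidAlgebra.induction_linear with
  | zero => simp
  | add x y hx hy => rw [map_add, map_add, map_add, map_add, hx, hy]
  | single x a =>
    rw [cj_single, cp_single, cp_single, cj_single, map_neg]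

theorem cp_cp (t : ℕ) (p q : t.primeFactors) (z : GR (Gam t)) :
    cp t p (cp t q z) = cp t q (cp t p z) := by
  induction z using AddMonoidAlgebra.induction_linear with
  | zero => simp
  | add x y hx hy => rw [map_add, map_add, map_add, map_add, hx, hy]
  | single x a =>
    rw [cp_single, cp_single, cp_single, cp_single, map_neg, map_neg]
    congr 3
    by_cases h : p = q
    · subst h; rfl
    · change Function.update (Function.update x q 0) p 0 = Function.update (Function.update x p 0) q 0
      exact (Function.update_comm (Ne.symm h) _ _ _)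

theorem push_cj (t : ℕ) (z : GR (ZMod t)) :
    push t (cj (ZMod t) z) = cj (Gam t) (push t z) := by
  induction z using AddMonoidAlgebra.induction_linear with
  | zero => simp
  | add x y hx hy => rw [map_add, map_add, map_add, map_add, hx, hy]
  | single x a =>
    rw [cj_single, push_single, push_single, cj_single, map_neg]

/-- coefficient functional -/
noncomputable def kap (g : M) : GR M →+ GaussianInt where
  toFun z := z.coeff g
  map_zero' := by simp
  map_add' x y := by simp

theorem kap_single [DecidableEq M] (g x : M) (a : GaussianInt) :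
    kap g (AddMonoidAlgebra.single x a) = if x = g then a else 0 := by
  simp [kap, Finsupp.single_apply]

theorem kap_smul (g : M) (l : GaussianInt) (z : GR M) :
    kap g (AddMonoidAlgebra.single 0 l * z) = l * kap g z := by
  simp [kap]

/-- augmentation -/
noncomputable def aug : GR M →+* GaussianInt :=
  (AddMonoidAlgebra.lift GaussianInt GaussianInt M 1).toRingHom

theorem aug_single (x : M) (a : GaussianInt) : aug (AddMonoidAlgebra.single x a) = a := by
  simp [aug, AddMonoidAlgebra.lift_single]

theorem aug_cj (z : GR M) : aug (cj M z) = star (aug z) := by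
  induction z using AddMonoidAlgebra.induction_linear with
  | zero => simp
  | add x y hx hy => rw [map_add, map_add, map_add, star_add, hx, hy]
  | single x a => rw [cj_single, aug_single, aug_single]

theorem aug_cp (t : ℕ) (p : t.primeFactors) (z : GR (Gam t)) : aug (cp t p z) = star (aug z) := by
  induction z using AddMonoidAlgebra.induction_linear with
  | zero => simp
  | add x y hx hy => rw [map_add, map_add, map_add, star_add, hx, hy]
  | single x a => rw [cp_single, aug_single, aug_single]

theorem aug_push (t : ℕ) (z : GR (ZMod t)) : aug (push t z) = aug z := by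
  induction z using AddMonoidAlgebra.induction_linear with
  | zero => simp
  | add x y hx hy => rw [map_add, map_add, map_add, hx, hy]
  | single x a => rw [push_single, aug_single, aug_single]

theorem natCast_eq (n : ℕ) : (n : GR M) = AddMonoidAlgebra.single 0 (n : GaussianInt) := by
  rw [AddMonoidAlgebra.natCast_def]

theorem kap_cp (t : ℕ) (_ht : 1 < t) (p : t.primeFactors) (z : GR (Gam t)) :
    kap (red t 1) (cp t p z) = 0 := by
  classical
  induction z using AddMonoidAlgebra.induction_linear with
  | zero => simp
  | add x y hx hy => rw [map_add, map_add, hx, hy, add_zero]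
  | single x a =>
    rw [cp_single, kap_single, if_neg]
    intro h
    have h1 := congrFun h p
    have hp : Fact (p : ℕ).Prime := ⟨Nat.prime_of_mem_primeFactors p.2⟩
    have h2 : (red t 1) p = 1 := by
      change ZMod.castHom (Nat.dvd_of_mem_primeFactors p.2) (ZMod (p : ℕ)) 1 = 1
      rw [map_one]
    rw [h2] at h1
    have h3 : (-(kill t p x)) p = 0 := by
      change -(Function.update x p 0 p) = 0
      rw [Function.update_self, neg_zero]
    rw [h3] at h1
    exact zero_ne_one h1

theorem red_one_ne (t : ℕ) (ht : 1 < t) : red t 1 ≠ 0 := by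
  intro h
  obtain ⟨p, hp, hpt⟩ := Nat.exists_prime_and_dvd (show t ≠ 1 by omega)
  have hmem : p ∈ t.primeFactors := Nat.mem_primeFactors.mpr ⟨hp, hpt, by omega⟩
  have h1 := congrFun h ⟨p, hmem⟩
  have : Fact p.Prime := ⟨hp⟩
  have h2 : (red t 1) ⟨p, hmem⟩ = 1 := by
    change ZMod.castHom (Nat.dvd_of_mem_primeFactors hmem) (ZMod p) 1 = 1
    rw [map_one]
  rw [h2] at h1
  exact one_ne_zero h1

theorem reg (n : ℕ) (hn : n ≠ 0) (x : GR M) (hx : (n : GR M) * x = 0) : x = 0 := by
  have hp0 : (n : GaussianInt) ≠ 0 := by exact_mod_cast hn
  rw [← AddMonoidAlgebra.coeff_inj]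
  ext1 m
  have := congrArg (fun z => z.coeff m) hx
  simp only [AddMonoidAlgebra.natCast_def, AddMonoidAlgebra.coeff_single_zero_mul] at this
  simpa [hp0] using this

end Pool.MP_66c627_co.Full
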