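import Mathlib

/-!
# Field descent, number field part
-/

set_option autoImplicit false

namespace Pool.Agent.Work.MP_66c627_co.FD

open NumberField

variable {n : ℕ} [NeZero n] {K : Type} [Field K] [NumberField K] [IsCyclotomicExtension {n} ℚ K]

theorem ringHom_eq {ζ : K} (hζ : IsPrimitiveRoot ζ n) {R : Type} [CommRing R] (f g : 𝓞 K →+* R)
    (h : f hζ.toInteger = g hζ.toInteger) : f = g := by
  have h1 : f.toIntAlgHom = g.toIntAlgHom := by
    apply hζ.integralPowerBasis.algHom_ext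
    rw [hζ.integralPowerBasis_gen]
    exact h
  ext x
  exact congrArg (fun F : 𝓞 K →ₐ[ℤ] R => F x) h1

/-- modulo a prime above `q`, the map `s` is a power of Frobenius -/
theorem sub_pow_mem {ζ : K} (hζ : IsPrimitiveRoot ζ n) (q J k : ℕ) (hq : q.Prime)
    (hk : k ≡ q ^ J [MOD ordCompl[q] n]) (s : 𝓞 K →+* 𝓞 K)
    (hs : s hζ.toInteger = hζ.toInteger ^ k) (Q : Ideal (𝓞 K)) (hQ : Q.IsPrime)
    (hqQ : (q : 𝓞 K) ∈ Q) (x : 𝓞 K) : s x - x ^ q ^ J ∈ Q := by
  have : Fact q.Prime := ⟨hq⟩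
  have : IsDomain (𝓞 K ⧸ Q) := Ideal.Quotient.isDomain Q
  have hq0 : ((q : ℕ) : 𝓞 K ⧸ Q) = 0 := by
    rw [← map_natCast (Ideal.Quotient.mk Q), Ideal.Quotient.eq_zero_iff_mem]
    exact hqQ
  have hchar : CharP (𝓞 K ⧸ Q) q := (CharP.charP_iff_prime_eq_zero hq).2 hq0
  set F1 : 𝓞 K →+* 𝓞 K ⧸ Q := (Ideal.Quotient.mk Q).comp s with hF1
  set F2 : 𝓞 K →+* 𝓞 K ⧸ Q := (iterateFrobenius (𝓞 K ⧸ Q) q J).comp (Ideal.Quotient.mk Q) with hF2
  have hgen : F1 hζ.toInteger = F2 hζ.toInteger := by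
    rw [hF1, hF2, RingHom.comp_apply, RingHom.comp_apply, hs, iterateFrobenius_def, map_pow]
    set z := Ideal.Quotient.mk Q hζ.toInteger with hz
    set b := n.factorization q with hb
    -- raise to the power `q ^ b`
    have hzn : z ^ n = 1 := by
      rw [hz, ← map_pow]
      rw [hζ.toInteger_isPrimitiveRoot.pow_eq_one, map_one]
    have hpow : (z ^ k) ^ q ^ b = (z ^ q ^ J) ^ q ^ b := by
      rw [← pow_mul, ← pow_mul]
      have h2 : k * q ^ b ≡ q ^ J * q ^ b [MOD n] := by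
        have h3 := Nat.ModEq.mul_right' (q ^ b) hk
        have h4 : ordCompl[q] n * q ^ b = n := by
          rw [mul_comm]
          exact Nat.ordProj_mul_ordCompl_eq_self n q
        rwa [h4] at h3
      rw [pow_eq_pow_mod _ hzn, h2, ← pow_eq_pow_mod _ hzn]
    have hinj : Function.Injective (iterateFrobenius (𝓞 K ⧸ Q) q b) := by
      rw [injective_iff_map_eq_zero]
      intro y hy
      rw [iterateFrobenius_def] at hy
      exact eq_zero_of_pow_eq_zero hy
    apply hinj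
    rw [iterateFrobenius_def, iterateFrobenius_def]
    exact hpow
  have h1 := ringHom_eq hζ F1 F2 hgen
  have h2 : F1 x = F2 x := by rw [h1]
  rw [hF1, hF2, RingHom.comp_apply, RingHom.comp_apply, iterateFrobenius_def] at h2
  rw [← Ideal.Quotient.eq_zero_iff_mem, map_sub, map_pow, h2, sub_self]

theorem map_eq_self {ζ : K} (hζ : IsPrimitiveRoot ζ n) (q J k : ℕ) (hq : q.Prime)
    (hk : k ≡ q ^ J [MOD ordCompl[q] n]) (s : 𝓞 K ≃+* 𝓞 K)
    (hs : s hζ.toInteger = hζ.toInteger ^ k) (Q : Ideal (𝓞 K)) (hQ : Q.IsMaximal)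
    (hqQ : (q : 𝓞 K) ∈ Q) : Q.map (s : 𝓞 K →+* 𝓞 K) = Q := by
  have hle : Q.map (s : 𝓞 K →+* 𝓞 K) ≤ Q := by
    rw [Ideal.map_le_iff_le_comap]
    intro x hx
    rw [Ideal.mem_comap]
    have h1 := sub_pow_mem hζ q J k hq hk (s : 𝓞 K →+* 𝓞 K) hs Q hQ.isPrime hqQ x
    have h2 : x ^ q ^ J ∈ Q := Ideal.pow_mem_of_mem Q hx _ (Nat.pow_pos hq.pos)
    have h3 := Q.add_mem h1 h2
    rwa [sub_add_cancel] at h3
  have hmax : (Q.map (s : 𝓞 K →+* 𝓞 K)).IsMaximal := Ideal.map_isMaximal_of_equiv s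
  exact hmax.eq_of_le hQ.ne_top hle

/-- if all primes containing `w` are fixed, so is the ideal of `w` -/
theorem map_span_eq (s : 𝓞 K ≃+* 𝓞 K) (w : 𝓞 K) (hw : w ≠ 0)
    (h : ∀ Q : Ideal (𝓞 K), Q.IsMaximal → w ∈ Q → Q.map (s : 𝓞 K →+* 𝓞 K) = Q) :
    Ideal.span {s w} = Ideal.span {w} := by
  classical
  have h0 : Ideal.span {w} ≠ (⊥ : Ideal (𝓞 K)) := by
    rw [Ne, Ideal.span_singleton_eq_bot]; exact hw
  have h1 : (Ideal.span {w}).map (s : 𝓞 K →+* 𝓞 K) = Ideal.span {s w} := by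
    rw [Ideal.map_span, Set.image_singleton]; rfl
  rw [← h1]
  have h2 := Ideal.prod_normalizedFactors_eq_self h0
  have h3 : (Ideal.span {w}).map (s : 𝓞 K →+* 𝓞 K) =
      (Multiset.map (fun Q : Ideal (𝓞 K) => Q.map (s : 𝓞 K →+* 𝓞 K))
        (UniqueFactorizationMonoid.normalizedFactors (Ideal.span {w}))).prod := by
    conv_lhs => rw [← h2]
    exact map_multiset_prod (Ideal.mapHom (s : 𝓞 K →+* 𝓞 K)) _
  rw [h3]
  have h4 : Multiset.map (fun Q : Ideal (𝓞 K) => Q.map (s : 𝓞 K →+* 𝓞 K))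
        (UniqueFactorizationMonoid.normalizedFactors (Ideal.span {w})) =
      UniqueFactorizationMonoid.normalizedFactors (Ideal.span {w}) := by
    conv_rhs => rw [← Multiset.map_id (UniqueFactorizationMonoid.normalizedFactors
      (Ideal.span {w}))]
    apply Multiset.map_congr rfl
    intro Q hQ
    have h5 := UniqueFactorizationMonoid.prime_of_normalized_factor Q hQ
    have h6 := UniqueFactorizationMonoid.dvd_of_mem_normalizedFactors hQ
    have h7 : Q.IsPrime := Ideal.isPrime_of_prime h5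
    have h8 : Q.IsMaximal := h7.isMaximal h5.ne_zero
    apply h Q h8
    have h9 := Ideal.dvd_iff_le.1 h6
    exact h9 (Ideal.mem_span_singleton_self w)
  rw [h4, h2]

end Pool.Agent.Work.MP_66c627_co.FD
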