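import Mathlib
import Pool.Agent.Work.MP_66c627_co.FD1

/-!
# Field descent, units
-/

set_option autoImplicit false

namespace Pool.Agent.Work.MP_66c627_co.FD

open NumberField

variable {n : ℕ} [NeZero n] {K : Type} [Field K] [NumberField K] [IsCyclotomicExtension {n} ℚ K]

theorem exists_prime_mem {R : Type} [CommRing R] (Q : Ideal R) (hQ : Q.IsPrime) (T : ℕ)
    (hT : T ≠ 0) (h : (T : R) ∈ Q) : ∃ q : ℕ, q.Prime ∧ q ∣ T ∧ (q : R) ∈ Q := by
  induction T using Nat.strong_induction_on with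
  | _ T ih =>
    by_cases h1 : T = 1
    · subst h1
      rw [Nat.cast_one] at h
      exact absurd ((Ideal.eq_top_iff_one Q).2 h) hQ.ne_top
    · have h2 := Nat.minFac_prime h1
      obtain ⟨T', hT'⟩ := Nat.minFac_dvd T
      have hT0 : T' ≠ 0 := by
        rintro rfl
        rw [mul_zero] at hT'
        exact hT hT'
      have h3 : ((Nat.minFac T : ℕ) : R) * (T' : R) ∈ Q := by
        rw [← Nat.cast_mul, ← hT']
        exact h
      rcases hQ.mem_or_mem h3 with h4 | h4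
      · exact ⟨_, h2, Nat.minFac_dvd T, h4⟩
      · have h5 : T' < T := by
          rw [hT']
          exact lt_mul_of_one_lt_left (Nat.pos_of_ne_zero hT0) h2.one_lt
        obtain ⟨q, hq, hq1, hq2⟩ := ih T' h5 hT0 h4
        exact ⟨q, hq, hT' ▸ (hq1.mul_left _), hq2⟩

theorem conj_comp {ζ : K} (hζ : IsPrimitiveRoot ζ n) (c : K ≃+* K) (hc : c ζ = ζ⁻¹)
    (φ : K →+* ℂ) (x : K) : (starRingEnd ℂ) (φ x) = φ (c x) := by
  have h1 : ((starRingEnd ℂ).comp φ) = φ.comp (c : K →+* K) := by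
    have h2 : ((starRingEnd ℂ).comp φ).toRatAlgHom = (φ.comp (c : K →+* K)).toRatAlgHom := by
      apply (hζ.powerBasis ℚ).algHom_ext
      rw [IsPrimitiveRoot.powerBasis_gen]
      change (starRingEnd ℂ) (φ ζ) = φ (c ζ)
      have hn : (φ ζ) ^ n = 1 := by rw [← map_pow, hζ.pow_eq_one, map_one]
      have hnorm : ‖φ ζ‖ = 1 := Complex.norm_eq_one_of_pow_eq_one hn (NeZero.ne n)
      rw [hc, map_inv₀, Complex.inv_def, Complex.normSq_eq_norm_sq, hnorm]
      simp
    ext y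
    exact congrArg (fun F : K →ₐ[ℚ] ℂ => F y) h2
  exact congrArg (fun F : K →+* ℂ => F x) h1

theorem norm_sq_eq {ζ : K} (hζ : IsPrimitiveRoot ζ n) (c : K ≃+* K) (hc : c ζ = ζ⁻¹)
    (T : ℕ) (w : K) (hw : w * c w = T) (φ : K →+* ℂ) : ‖φ w‖ ^ 2 = T := by
  have h1 : φ w * (starRingEnd ℂ) (φ w) = (T : ℂ) := by
    rw [conj_comp hζ c hc, ← map_mul, hw, map_natCast]
  rw [Complex.mul_conj, Complex.normSq_eq_norm_sq] at h1
  exact_mod_cast h1

theorem exists_unit {ζ : K} (hζ : IsPrimitiveRoot ζ n) (hn : Even n) (c σ : K ≃+* K)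
    (hc : c ζ = ζ⁻¹) (k : ℕ) (hσ : σ ζ = ζ ^ k) (T : ℕ) (hT : T ≠ 0) (w : K)
    (hwi : IsIntegral ℤ w) (hw : w * c w = T)
    (hk : ∀ q : ℕ, q.Prime → q ∣ T → ∃ J, k ≡ q ^ J [MOD ordCompl[q] n]) :
    ∃ j, σ w = ζ ^ j * w := by
  set W : 𝓞 K := ⟨w, hwi⟩ with hW
  set s : 𝓞 K ≃+* 𝓞 K := RingOfIntegers.mapRingEquiv σ with hs
  have hT' : (T : K) ≠ 0 := Nat.cast_ne_zero.2 hT
  have hw0 : w ≠ 0 := by
    rintro rfl
    rw [zero_mul] at hw
    exact hT' hw.symm
  have hW0 : W ≠ 0 := by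
    intro h
    apply hw0
    exact congrArg (algebraMap (𝓞 K) K) h
  have hsζ : s hζ.toInteger = hζ.toInteger ^ k := by
    apply RingOfIntegers.ext
    exact hσ
  have hspan : Ideal.span {s W} = Ideal.span {W} := by
    apply map_span_eq s W hW0
    intro Q hQ hWQ
    have h1 : (T : 𝓞 K) ∈ Q := by
      have h2 : W * RingOfIntegers.mapRingEquiv c W = (T : 𝓞 K) := by
        apply RingOfIntegers.ext
        exact hw
      rw [← h2]
      exact Q.mul_mem_right _ hWQ
    obtain ⟨q, hq, hqT, hqQ⟩ := exists_prime_mem Q hQ.isPrime T hT h1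
    obtain ⟨J, hJ⟩ := hk q hq hqT
    exact map_eq_self hζ q J k hq hJ s hsζ Q hQ hqQ
  rw [Ideal.span_singleton_eq_span_singleton] at hspan
  obtain ⟨u, hu⟩ := hspan.symm
  -- `hu : W * u = s W`
  have huK : w * ((u : 𝓞 K) : K) = σ w := by
    have := congrArg (algebraMap (𝓞 K) K) hu
    rw [map_mul] at this
    exact this
  have htor : u ∈ Units.torsion K := by
    rw [Units.mem_torsion]
    intro v
    have h1 := norm_sq_eq hζ c hc T w hw v.embedding
    have h2 := norm_sq_eq hζ c hc T w hw (v.embedding.comp (σ : K →+* K))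
    rw [RingHom.comp_apply] at h2
    have h3 : v.embedding (σ w) = v.embedding w * v.embedding ((u : 𝓞 K) : K) := by
      rw [← map_mul, huK]
    have h4 : ‖v.embedding ((u : 𝓞 K) : K)‖ = 1 := by
      have h5 : ‖v.embedding (σ w)‖ ^ 2 = T := h2
      rw [h3, norm_mul, mul_pow, h1] at h5
      have h6 : (T : ℝ) ≠ 0 := Nat.cast_ne_zero.2 hT
      have h7 : ‖v.embedding ((u : 𝓞 K) : K)‖ ^ 2 = 1 := by
        field_simp at h5
        exact h5
      have h8 := norm_nonneg (v.embedding ((u : 𝓞 K) : K))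
      nlinarith
    rw [← InfinitePlace.norm_embedding_eq]
    exact h4
  rw [← Units.rootsOfUnity_eq_torsion, IsCyclotomicExtension.Rat.torsionOrder_eq (n := n),
    if_pos hn, mem_rootsOfUnity] at htor
  have hun : (((u : 𝓞 K) : K)) ^ n = 1 := by
    have := congrArg (fun y : (𝓞 K)ˣ => (((y : 𝓞 K)) : K)) htor
    simpa using this
  obtain ⟨j, -, hj⟩ := hζ.eq_pow_of_pow_eq_one hun
  exact ⟨j, by rw [hj, ← huK, mul_comm]⟩

/-- the recursion `S_(l+1) = k S_l + 1` -/
def geo (k : ℕ) : ℕ → ℕ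
  | 0 => 0
  | l + 1 => k * geo k l + 1

theorem geo_modEq (n m p : ℕ) (hm : n = p * m) (hpm : p ∣ m) (l : ℕ) :
    geo (1 + m) l ≡ l + m * l.choose 2 [MOD n] := by
  induction l with
  | zero => simp [geo, Nat.ModEq]
  | succ l ih =>
    have h1 : (1 + m) * geo (1 + m) l + 1 ≡ (1 + m) * (l + m * l.choose 2) + 1 [MOD n] :=
      (ih.mul_left _).add_right _
    have h2 : (1 + m) * (l + m * l.choose 2) + 1 =
        ((l + 1) + m * (l + 1).choose 2) + m * m * l.choose 2 := by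
      have : (l + 1).choose 2 = l + l.choose 2 := by
        rw [Nat.choose_succ_succ' l 1, Nat.choose_one_right]
      rw [this]; ring
    have h3 : m * m * l.choose 2 ≡ 0 [MOD n] := by
      rw [Nat.modEq_zero_iff_dvd]
      obtain ⟨a, ha⟩ := hpm
      refine ⟨a * l.choose 2, ?_⟩
      rw [hm]
      nth_rewrite 1 [ha]
      ring
    rw [h2] at h1
    exact h1.trans (by simpa using Nat.ModEq.add_left ((l + 1) + m * (l + 1).choose 2) h3)

theorem pow_modEq (n m p : ℕ) (hm : n = p * m) (hpm : p ∣ m) (l : ℕ) :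
    (1 + m) ^ l ≡ 1 + l * m [MOD n] := by
  induction l with
  | zero => simp [Nat.ModEq]
  | succ l ih =>
    have h1 : (1 + m) ^ (l + 1) ≡ (1 + l * m) * (1 + m) [MOD n] := by
      rw [pow_succ]
      exact ih.mul_right _
    have h2 : (1 + l * m) * (1 + m) = (1 + (l + 1) * m) + l * (m * m) := by ring
    have h3 : l * (m * m) ≡ 0 [MOD n] := by
      rw [Nat.modEq_zero_iff_dvd]
      obtain ⟨a, ha⟩ := hpm
      refine ⟨a * l, ?_⟩
      rw [hm]
      nth_rewrite 1 [ha]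
      ring
    rw [h2] at h1
    exact h1.trans (by simpa using Nat.ModEq.add_left (1 + (l + 1) * m) h3)

/-- **field descent** -/
theorem descent {ζ : K} (hζ : IsPrimitiveRoot ζ n) (hn : Even n) (c σ : K ≃+* K)
    (hc : c ζ = ζ⁻¹) (p m : ℕ) (hp : p.Prime) (hp2 : p ≠ 2) (hm : n = p * m) (hpm : p ∣ m)
    (hσ : σ ζ = ζ ^ (1 + m)) (T : ℕ) (hT : T ≠ 0) (w : K)
    (hwi : IsIntegral ℤ w) (hw : w * c w = T)
    (hk : ∀ q : ℕ, q.Prime → q ∣ T → ∃ J, 1 + m ≡ q ^ J [MOD ordCompl[q] n]) :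
    ∃ η : K, η ^ p = 1 ∧ σ w = η * w := by
  obtain ⟨j, hj⟩ := exists_unit hζ hn c σ hc (1 + m) hσ T hT w hwi hw hk
  have hT' : (T : K) ≠ 0 := Nat.cast_ne_zero.2 hT
  have hw0 : w ≠ 0 := by
    rintro rfl
    rw [zero_mul] at hw
    exact hT' hw.symm
  have hiter : ∀ l : ℕ, σ^[l] w = ζ ^ (j * geo (1 + m) l) * w := by
    intro l
    induction l with
    | zero => simp [geo]
    | succ l ih =>
      rw [Function.iterate_succ_apply', ih, map_mul, map_pow, hσ, hj, geo]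
      ring
  have hiterζ : ∀ l : ℕ, σ^[l] ζ = ζ ^ ((1 + m) ^ l) := by
    intro l
    induction l with
    | zero => simp
    | succ l ih =>
      rw [Function.iterate_succ_apply', ih, map_pow, hσ]
      ring
  have hpζ : σ^[p] ζ = ζ := by
    rw [hiterζ, pow_eq_pow_mod _ hζ.pow_eq_one, pow_modEq n m p hm hpm p]
    have h1 : 1 + p * m ≡ 1 [MOD n] := by
      rw [← hm]
      simp [Nat.ModEq]
    rw [h1, ← pow_eq_pow_mod _ hζ.pow_eq_one, pow_one]
  have hhom : ∀ l : ℕ, ∃ f : K →+* K, ∀ x, f x = σ^[l] x := by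
    intro l
    induction l with
    | zero => exact ⟨RingHom.id K, fun x => rfl⟩
    | succ l ih =>
      obtain ⟨f, hf⟩ := ih
      exact ⟨(σ : K →+* K).comp f, fun x => by
        rw [RingHom.comp_apply, hf, Function.iterate_succ_apply']
        rfl⟩
  have hid : ∀ x : K, σ^[p] x = x := by
    intro x
    obtain ⟨f, hf⟩ := hhom p
    have h2 : f.toRatAlgHom = (RingHom.id K).toRatAlgHom := by
      apply (hζ.powerBasis ℚ).algHom_ext
      rw [IsPrimitiveRoot.powerBasis_gen]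
      change f ζ = ζ
      rw [hf, hpζ]
    rw [← hf]
    exact congrArg (fun F : K →ₐ[ℚ] K => F x) h2
  have hgeo : geo (1 + m) p ≡ p [MOD n] := by
    refine (geo_modEq n m p hm hpm p).trans ?_
    have h1 : p ∣ p.choose 2 := by
      refine hp.dvd_choose_self (by norm_num) ?_
      rcases Nat.lt_or_ge 2 p with h | h
      · exact h
      · exact absurd (le_antisymm h hp.two_le) hp2
    obtain ⟨b, hb⟩ := h1
    have h2 : m * p.choose 2 ≡ 0 [MOD n] := by
      rw [Nat.modEq_zero_iff_dvd]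
      exact ⟨b, by rw [hb, hm]; ring⟩
    simpa using Nat.ModEq.add_left p h2
  refine ⟨ζ ^ j, ?_, hj⟩
  have h1 := hiter p
  rw [hid w] at h1
  have h2 : ζ ^ (j * geo (1 + m) p) = 1 := by
    have h3 : (ζ ^ (j * geo (1 + m) p) - 1) * w = 0 := by
      rw [sub_mul, one_mul, ← h1, sub_self]
    rcases mul_eq_zero.1 h3 with h4 | h4
    · exact sub_eq_zero.1 h4
    · exact absurd h4 hw0
  rw [← pow_mul, pow_eq_pow_mod _ hζ.pow_eq_one, ← hgeo.mul_left j,
    ← pow_eq_pow_mod _ hζ.pow_eq_one]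
  exact h2

end Pool.Agent.Work.MP_66c627_co.FD
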