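import Pool.Agent.Work.MP_66c627_co.FBas

/-! The contradiction. -/

set_option autoImplicit false

namespace Pool.MP_66c627_co.Full

variable {M : Type*} [AddCommGroup M]

/-- the list of endomorphisms -/
noncomputable def LL (t : ℕ) : List (GR (Gam t) →+* GR (Gam t)) :=
  (Finset.univ : Finset t.primeFactors).toList.map (cp t)

theorem mem_LL {t : ℕ} {c : GR (Gam t) →+* GR (Gam t)} (h : c ∈ LL t) : ∃ p, c = cp t p := by
  obtain ⟨p, _, rfl⟩ := List.mem_map.mp h
  exact ⟨p, rfl⟩

theorem cp_mem (t : ℕ) (p : t.primeFactors) : cp t p ∈ LL t :=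
  List.mem_map.mpr ⟨p, Finset.mem_toList.mpr (Finset.mem_univ p), rfl⟩

theorem LL_comm (t : ℕ) : ∀ c₁ ∈ LL t, ∀ c₂ ∈ LL t, ∀ y, c₁ (c₂ y) = c₂ (c₁ y) := by
  intro c₁ h₁ c₂ h₂ y
  obtain ⟨p, rfl⟩ := mem_LL h₁
  obtain ⟨q, rfl⟩ := mem_LL h₂
  exact cp_cp t p q y

theorem LL_cj (t : ℕ) : ∀ c ∈ LL t, ∀ y, c (cj (Gam t) y) = cj (Gam t) (c y) := by
  intro c h y
  obtain ⟨p, rfl⟩ := mem_LL h
  exact cp_cj t p y

theorem LL_pos (t : ℕ) (ht : 1 < t) : 0 < (LL t).length := by
  obtain ⟨p, hp, hpt⟩ := Nat.exists_prime_and_dvd (show t ≠ 1 by omega)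
  exact List.length_pos_of_mem (cp_mem t ⟨p, Nat.mem_primeFactors.mpr ⟨hp, hpt, by omega⟩⟩)

theorem norm_natCast (n : ℕ) : Zsqrtd.norm (n : GaussianInt) = (n : ℤ) * n := by
  rw [Zsqrtd.norm_natCast]

theorem norm_of_mul_star (a : GaussianInt) (n : ℕ) (h : a * star a = (n : GaussianInt)) :
    Zsqrtd.norm a = (n : ℤ) := by
  rw [← Zsqrtd.norm_eq_mul_conj] at h
  have := congrArg Zsqrtd.re h
  simpa using this

/-- `l` does not divide anything of odd norm -/
theorem not_dvd_odd (l : GaussianInt) (hl : l = ⟨1, 1⟩ ∨ l = 2) (a : GaussianInt)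
    (ha : Odd (Zsqrtd.norm a)) : ¬ l ∣ a := by
  rintro ⟨b, rfl⟩
  rw [Zsqrtd.norm_mul] at ha
  have h2 : (2 : ℤ) ∣ Zsqrtd.norm l := by
    rcases hl with rfl | rfl
    · simp [Zsqrtd.norm_def]
    · exact ⟨2, by decide⟩
  have h3 : (2 : ℤ) ∣ Zsqrtd.norm l * Zsqrtd.norm b := h2.mul_right _
  rcases ha with ⟨m, hm⟩
  omega

theorem kap_mul_cj [Fintype M] (R T : GR M) :
    kap 0 (R * cj M T) = ∑ g : M, kap g R * star (kap g T) := by
  classical
  induction R using AddMonoidAlgebra.induction_linear with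
  | zero => simp
  | add x y hx hy =>
    rw [add_mul, map_add, hx, hy, ← Finset.sum_add_distrib]
    refine Finset.sum_congr rfl fun g _ => ?_
    rw [map_add, add_mul]
  | single x a =>
    induction T using AddMonoidAlgebra.induction_linear with
    | zero => simp
    | add y z hy hz =>
      rw [map_add, mul_add, map_add, hy, hz, ← Finset.sum_add_distrib]
      refine Finset.sum_congr rfl fun g _ => ?_
      rw [map_add, star_add, mul_add]
    | single y b =>
      rw [cj_single, AddMonoidAlgebra.single_mul_single, kap_single]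
      rw [Finset.sum_eq_single x]
      · rw [kap_single, kap_single, if_pos rfl]
        by_cases h : y = x
        · subst h; simp
        · rw [if_neg h, if_neg, star_zero, mul_zero]
          intro h'
          exact h (by rw [← sub_eq_add_neg, sub_eq_zero] at h'; exact h'.symm)
      · intro g _ hg
        rw [kap_single, if_neg (Ne.symm hg), zero_mul]
      · intro h; exact absurd (Finset.mem_univ x) h

theorem unit_single [Fintype M] (R : GR M) (h : R * cj M R = 1) :
    ∃ g : M, R = AddMonoidAlgebra.single g (kap g R) := by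
  classical
  have h1 := kap_mul_cj R R
  rw [h] at h1
  have h2 : kap (0 : M) (1 : GR M) = 1 := by
    rw [AddMonoidAlgebra.one_def, kap_single, if_pos rfl]
  rw [h2] at h1
  have h3 : (1 : ℤ) = ∑ g : M, Zsqrtd.norm (kap g R) := by
    have h4 : (1 : GaussianInt) = ((∑ g : M, Zsqrtd.norm (kap g R) : ℤ) : GaussianInt) := by
      rw [h1, Int.cast_sum]
      refine Finset.sum_congr rfl fun g _ => ?_
      rw [Zsqrtd.norm_eq_mul_conj]
    have h5 := congrArg Zsqrtd.re h4
    rw [Zsqrtd.re_intCast] at h5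
    exact h5
  have hnn : ∀ g : M, 0 ≤ Zsqrtd.norm (kap g R) := fun g => GaussianInt.norm_nonneg _
  obtain ⟨g, hg⟩ : ∃ g : M, 1 ≤ Zsqrtd.norm (kap g R) := by
    by_contra hcon
    push Not at hcon
    have : ∑ g : M, Zsqrtd.norm (kap g R) = 0 := by
      apply Finset.sum_eq_zero
      intro g _
      have := hcon g
      have := hnn g
      omega
    omega
  refine ⟨g, ?_⟩
  have hz : ∀ x : M, x ≠ g → kap x R = 0 := by
    intro x hx
    have h5 : Zsqrtd.norm (kap x R) + Zsqrtd.norm (kap g R) ≤ ∑ g : M, Zsqrtd.norm (kap g R) := by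
      rw [← Finset.sum_pair (f := fun g => Zsqrtd.norm (kap g R)) hx]
      exact Finset.sum_le_sum_of_subset_of_nonneg (Finset.subset_univ _) (fun i _ _ => hnn i)
    have h6 : Zsqrtd.norm (kap x R) = 0 := by
      have := hnn x
      omega
    exact (GaussianInt.norm_eq_zero).mp h6
  rw [← AddMonoidAlgebra.coeff_inj]
  ext1 x
  by_cases hx : x = g
  · subst hx
    simp [kap]
  · have := hz x hx
    change R.coeff x = 0 at this
    rw [this]
    simp [Ne.symm hx]

theorem aug_dels (L : List (GR M →+* GR M))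
    (hL : ∀ c ∈ L, ∀ z, aug (c z) = star (aug z)) :
    ∀ (n : ℕ) (U : GR M), aug U = (n : GaussianInt) →
      aug (dels L U) = (n : GaussianInt) ^ (2 ^ L.length) := by
  induction L with
  | nil => intro n U h; simpa [dels] using h
  | cons c L ih =>
    intro n U h
    rw [dels_cons]
    have h1 : aug (U * c U) = ((n * n : ℕ) : GaussianInt) := by
      rw [map_mul, hL c (List.mem_cons_self ..), h, star_natCast]
      push_cast; rfl
    rw [ih (fun c' hc' => hL c' (List.mem_cons_of_mem _ hc')) _ _ h1, List.length_cons]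
    push_cast
    rw [← pow_two, ← pow_mul, ← pow_succ']

theorem aug_LL (t : ℕ) : ∀ c ∈ LL t, ∀ z, aug (c z) = star (aug z) := by
  intro c h z
  obtain ⟨p, rfl⟩ := mem_LL h
  exact aug_cp t p z

instance neZ (t : ℕ) (p : t.primeFactors) : NeZero (p : ℕ) :=
  ⟨(Nat.prime_of_mem_primeFactors p.2).ne_zero⟩

theorem cast_pow_eq (t K : ℕ) (h0 : t ≠ 0) :
    ((t : GR (Gam t)) ^ K) =
      ∏ p : t.primeFactors, (((p : ℕ) : GR (Gam t)) ^ (t.factorization p * K)) := by
  have h1 : (t : ℕ) = ∏ p ∈ t.primeFactors, p ^ t.factorization p := by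
    have := Nat.prod_factorization_pow_eq_self h0
    rw [Finsupp.prod, Nat.support_factorization] at this
    exact this.symm
  have h2 : (t : GR (Gam t)) = ∏ p : t.primeFactors, (((p : ℕ) : GR (Gam t)) ^ (t.factorization p)) := by
    rw [Finset.prod_coe_sort t.primeFactors
      (fun p => ((p : GR (Gam t)) ^ (t.factorization p)))]
    have h3 := congrArg (Nat.cast : ℕ → GR (Gam t)) h1
    rw [Nat.cast_prod] at h3
    rw [h3]
    refine Finset.prod_congr rfl fun p _ => ?_
    rw [Nat.cast_pow]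
  rw [h2, ← Finset.prod_pow]
  refine Finset.prod_congr rfl fun p _ => ?_
  rw [← pow_mul]

/-- the structure theorem -/
theorem struct (hL : S_Loc) (t : ℕ) [NeZero t] (ht : 1 < t) (ho : Odd t) (Z : GR (ZMod t))
    (hZ : Z * cj (ZMod t) Z = (t : GR (ZMod t))) :
    ∃ g : Gam t, dels (LL t) (push t Z) =
      ((t : GR (Gam t)) ^ (2 ^ ((LL t).length - 1))) * AddMonoidAlgebra.single g 1 := by
  set V := push t Z with hVdef
  set K := 2 ^ ((LL t).length - 1) with hK
  have h0 : t ≠ 0 := NeZero.ne t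
  have hV : V * cj (Gam t) V = (t : GR (Gam t)) := by
    rw [hVdef, ← push_cj, ← map_mul, hZ, map_natCast]
  have hK2 : 2 ^ (LL t).length = K + K := by
    have := LL_pos t ht
    obtain ⟨m, hm⟩ : ∃ m, (LL t).length = m + 1 := ⟨(LL t).length - 1, by omega⟩
    rw [hK, hm, Nat.add_sub_cancel, pow_succ]; ring
  have hdvd : ((t : GR (Gam t)) ^ K) ∣ dels (LL t) V := by
    rw [cast_pow_eq t K h0]
    apply Finset.prod_dvd_of_coprime
    · intro p _ q _ hpq
      have h1 : Nat.Coprime ((p : ℕ) ^ (t.factorization p * K)) ((q : ℕ) ^ (t.factorization q * K)) :=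
        Nat.Coprime.pow _ _ ((Nat.coprime_primes (Nat.prime_of_mem_primeFactors p.2)
          (Nat.prime_of_mem_primeFactors q.2)).mpr (fun h => hpq (Subtype.ext h)))
      have h2 := (Nat.isCoprime_iff_coprime.mpr h1).map (Int.castRingHom (GR (Gam t)))
      simpa [Function.onFun] using h2
    · intro p _
      exact dels_dvd (p : ℕ) (cp t p) (LL t) (cp_mem t p) (LL_comm t) (t.factorization p) V
        (hL t ho Z hZ p)
  obtain ⟨R, hR⟩ := hdvd
  have hRR : R * cj (Gam t) R = 1 := by
    have h1 : dels (LL t) (V * cj (Gam t) V) = (t : GR (Gam t)) ^ (2 ^ (LL t).length) := by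
      rw [hV, dels_natCast]
    rw [dels_mul, dels_comm (cj (Gam t)) (LL t) (LL_cj t), hR, map_mul, map_pow, map_natCast, hK2,
      pow_add] at h1
    have h2 : ((t ^ (K + K) : ℕ) : GR (Gam t)) * (R * cj (Gam t) R - 1) = 0 := by
      push_cast
      rw [pow_add]
      linear_combination h1
    exact sub_eq_zero.mp (reg _ (pow_ne_zero _ h0) _ h2)
  obtain ⟨g, hg⟩ := unit_single R hRR
  refine ⟨g, ?_⟩
  rw [hR]
  congr 1
  rw [hg]
  congr 1
  -- augmentation
  have hL0 : (LL t) ≠ [] := by
    intro h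
    have := LL_pos t ht
    rw [h] at this
    simp at this
  obtain ⟨c, L, hcL⟩ := List.exists_cons_of_ne_nil hL0
  have haV : aug V * star (aug V) = (t : GaussianInt) := by
    rw [← aug_cj, ← map_mul, hV, map_natCast]
  have h3 : aug (dels (LL t) V) = (t : GaussianInt) ^ K := by
    rw [hcL, dels_cons]
    have h4 : aug (V * c V) = (t : GaussianInt) := by
      rw [map_mul, aug_LL t c (by rw [hcL]; exact List.mem_cons_self ..), haV]
    rw [aug_dels L (fun c' hc' => aug_LL t c' (by rw [hcL]; exact List.mem_cons_of_mem _ hc'))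
      t _ h4, hK, hcL, List.length_cons, Nat.add_sub_cancel]
  rw [hR, map_mul, map_pow, map_natCast, hg, aug_single] at h3
  have h5 : (t : GaussianInt) ^ K ≠ 0 := pow_ne_zero _ (by exact_mod_cast h0)
  have h6 : kap g R = 1 := by
    apply mul_left_cancel₀ h5
    rw [h3, mul_one]
  exact h6

end Pool.MP_66c627_co.Full
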