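import Pool.Agent.Work.MP_66c627_co.FFin

/-! The contradiction, second part. -/

set_option autoImplicit false

namespace Pool.MP_66c627_co.Full

theorem lam_cp (t : ℕ) (l : GaussianInt) : ∀ c ∈ LL t,
    c (AddMonoidAlgebra.single 0 l) = AddMonoidAlgebra.single 0 (star l) := by
  intro c hc
  obtain ⟨p, rfl⟩ := mem_LL hc
  rw [cp_single, map_zero, neg_zero]

theorem star_l (l : GaussianInt) (hl : l = ⟨1, 1⟩ ∨ l = 2) :
    ∃ μ : GaussianInt, star l = l + l * l * μ := by
  rcases hl with rfl | rfl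
  · exact ⟨-1, by decide⟩
  · exact ⟨0, by decide⟩

theorem single_mul0 {M : Type*} [AddCommGroup M] (a b : GaussianInt) :
    (AddMonoidAlgebra.single 0 (a * b) : GR M) =
      AddMonoidAlgebra.single 0 a * AddMonoidAlgebra.single 0 b := by
  rw [AddMonoidAlgebra.single_mul_single, add_zero]

theorem l_dvd_two (l : GaussianInt) (hl : l = ⟨1, 1⟩ ∨ l = 2) : l ∣ 2 := by
  rcases hl with rfl | rfl
  · exact ⟨⟨1, -1⟩, by decide⟩
  · exact dvd_rfl

theorem norm_pow_nat (t K : ℕ) (ho : Odd t) : Odd (Zsqrtd.norm ((t : GaussianInt) ^ K)) := by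
  rw [← Nat.cast_pow, Zsqrtd.norm_natCast]
  have h1 : Odd ((t ^ K : ℕ) : ℤ) := by
    exact_mod_cast ho.pow
  exact h1.mul h1

/-- congruent elements have the same group element -/
theorem same_g (t : ℕ) [NeZero t] (ho : Odd t) (l : GaussianInt) (hl : l = ⟨1, 1⟩ ∨ l = 2)
    (K : ℕ) (V1 V2 w : GR (Gam t)) (g1 g2 : Gam t)
    (h1 : dels (LL t) V1 = (t : GR (Gam t)) ^ K * AddMonoidAlgebra.single g1 1)
    (h2 : dels (LL t) V2 = (t : GR (Gam t)) ^ K * AddMonoidAlgebra.single g2 1)
    (hw : V2 = V1 + AddMonoidAlgebra.single 0 l * w) : g1 = g2 := by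
  classical
  have h3 : (AddMonoidAlgebra.single 0 l : GR (Gam t)) ∣ dels (LL t) V2 - dels (LL t) V1 := by
    apply dels_congr
    · intro c hc
      rw [lam_cp t l c hc]
      obtain ⟨μ, hμ⟩ := star_l l hl
      have : star l = l * (1 + l * μ) := by rw [hμ]; ring
      rw [this, single_mul0]
      exact dvd_mul_right _ _
    · exact ⟨w, by rw [hw]; ring⟩
  obtain ⟨z, hz⟩ := h3
  rw [h1, h2, ← Nat.cast_pow, natCast_eq, AddMonoidAlgebra.single_mul_single,
    AddMonoidAlgebra.single_mul_single, zero_add, zero_add, mul_one] at hz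
  by_contra hne
  have h4 := congrArg (kap g2) hz
  rw [map_sub, kap_single, kap_single, if_pos rfl, if_neg hne, sub_zero, kap_smul] at h4
  exact not_dvd_odd l hl ((t ^ K : ℕ) : GaussianInt)
    (by rw [Nat.cast_pow]; exact norm_pow_nat t K ho) ⟨_, h4⟩

theorem tau (t : ℕ) (ho : Odd t) (l : GaussianInt) (hl : l = ⟨1, 1⟩ ∨ l = 2) :
    ∃ τ : GaussianInt, (t : GaussianInt) = 1 + l * τ := by
  obtain ⟨m, hm⟩ := ho
  obtain ⟨s, hs⟩ := l_dvd_two l hl
  refine ⟨s * m, ?_⟩
  rw [hm]
  push_cast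
  rw [← mul_assoc, ← hs]
  ring

/-- the first order term -/
theorem first_order (hL : S_Loc) (t : ℕ) [NeZero t] (ht : 1 < t) (ho : Odd t)
    (l : GaussianInt) (hl : l = ⟨1, 1⟩ ∨ l = 2) (Y W w : GR (ZMod t))
    (hY : Y * cj (ZMod t) Y = (t : GR (ZMod t)))
    (hW : W * cj (ZMod t) W = (t : GR (ZMod t)))
    (hw : W = Y + AddMonoidAlgebra.single 0 l * w) :
    l ∣ kap (red t 1) (push t (w * cj (ZMod t) Y)) := by
  classical
  obtain ⟨g1, hg1⟩ := struct hL t ht ho Y hY
  obtain ⟨g2, hg2⟩ := struct hL t ht ho W hW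
  set K := 2 ^ ((LL t).length - 1) with hK
  have hV : push t W = push t Y + AddMonoidAlgebra.single 0 l * push t w := by
    rw [hw, map_add, map_mul, push_single, map_zero]
  have hgg := same_g t ho l hl K _ _ _ g1 g2 hg1 hg2 hV
  subst hgg
  obtain ⟨τ, hτ⟩ := tau t ho l hl
  have hprod : dels (LL t) (push t W * cj (Gam t) (push t Y)) = ((t ^ (K + K) : ℕ) : GR (Gam t)) := by
    rw [dels_mul, dels_comm (cj (Gam t)) (LL t) (LL_cj t), hg1, hg2, map_mul, map_pow,
      map_natCast, cj_single, star_one]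
    have h1 : (AddMonoidAlgebra.single g1 1 : GR (Gam t)) * AddMonoidAlgebra.single (-g1) 1 = 1 := by
      rw [AddMonoidAlgebra.single_mul_single, add_neg_cancel, mul_one]; rfl
    push_cast
    rw [pow_add]
    linear_combination (t : GR (Gam t)) ^ K * (t : GR (Gam t)) ^ K * h1
  have hexp : push t W * cj (Gam t) (push t Y) =
      1 + AddMonoidAlgebra.single 0 l * (AddMonoidAlgebra.single 0 τ + push t (w * cj (ZMod t) Y)) := by
    have h2 : push t Y * cj (Gam t) (push t Y) = (t : GR (Gam t)) := by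
      rw [← push_cj, ← map_mul, hY, map_natCast]
    rw [hV, add_mul, h2, natCast_eq, hτ, AddMonoidAlgebra.single_add, single_mul0, map_mul, push_cj,
      AddMonoidAlgebra.one_def]
    ring
  obtain ⟨z', hz', hd⟩ := dels_expand (kap (red t 1)) (AddMonoidAlgebra.single 0 l) l
    (kap_smul (red t 1) l) (LL t)
    (by
      intro c hc
      obtain ⟨μ, hμ⟩ := star_l l hl
      refine ⟨AddMonoidAlgebra.single 0 μ, ?_⟩
      rw [lam_cp t l c hc, hμ, AddMonoidAlgebra.single_add, single_mul0, single_mul0])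
    (by
      intro c hc z
      obtain ⟨p, rfl⟩ := mem_LL hc
      exact kap_cp t ht p z)
    (AddMonoidAlgebra.single 0 τ + push t (w * cj (ZMod t) Y))
  rw [← hexp, hprod, natCast_eq] at hz'
  have hne : ¬ ((0 : Gam t) = red t 1) := fun h => red_one_ne t ht h.symm
  have h5 := congrArg (kap (red t 1)) hz'
  rw [map_add, kap_single, if_neg hne, AddMonoidAlgebra.one_def, kap_single, if_neg hne, zero_add,
    kap_smul] at h5
  have hl0 : l ≠ 0 := by
    rcases hl with rfl | rfl <;> decide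
  have h6 : kap (red t 1) z' = 0 := by
    rcases mul_eq_zero.mp h5.symm with h | h
    · exact absurd h hl0
    · exact h
  rw [h6, map_add, kap_single, if_neg hne, zero_add, zero_sub, dvd_neg] at hd
  exact hd

end Pool.MP_66c627_co.Full
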