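import Pool.Agent.Work.MP_66c627_co.Cnt

/-! The final theorem for `Z2 x Z2 x Zt`. -/

namespace Pool.MP_66c627_co.Pw


/-- The product decomposition. -/
noncomputable def dec (N m : ℕ) (h : Nat.Coprime N m) :
    ZMod N × (ZMod 2 × ZMod 2 × ZMod m) ≃ ZMod 2 × ZMod 2 × ZMod (N * m) where
  toFun x := (x.2.1, x.2.2.1, (ZMod.chineseRemainder h).symm (x.1, x.2.2.2))
  invFun g := ((ZMod.chineseRemainder h g.2.2).1, (g.1, g.2.1, (ZMod.chineseRemainder h g.2.2).2))
  left_inv x := by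
    obtain ⟨a, b, c, d⟩ := x
    simp
  right_inv g := by
    obtain ⟨a, b, c⟩ := g
    simp

theorem dec_add (N m : ℕ) (h : Nat.Coprime N m) (x y : ZMod N × (ZMod 2 × ZMod 2 × ZMod m)) :
    dec N m h (x + y) = dec N m h x + dec N m h y := by
  obtain ⟨a, b, c, d⟩ := x
  obtain ⟨a', b', c', d'⟩ := y
  simp only [dec, Equiv.coe_fn_mk, Prod.mk_add_mk]
  rw [← map_add, Prod.mk_add_mk]

theorem dec_zero (N m : ℕ) (h : Nat.Coprime N m) : dec N m h 0 = 0 := by
  have := dec_add N m h 0 0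
  rw [add_zero] at this
  exact left_eq_add.mp this

/-- Local statement at a prime power. -/
theorem prime_bound (p n m : ℕ) (hp : p.Prime) (hpm : ¬ p ∣ m) [NeZero (p ^ (n + 1) * m)]
    (ht : Odd (p ^ (n + 1) * m))
    (f : ZMod 2 × ZMod 2 × ZMod (p ^ (n + 1) * m) → GaussianInt) (hf : ∀ g, (f g).norm = 1)
    (hAC : ∀ s, ∑ u, f (u + s) * star (f u) =
      if s = 0 then ((4 * (p ^ (n + 1) * m) : ℕ) : GaussianInt) else 0) :
    0 < n ∧ p ≤ m := by
  have hm0 : 0 < m := by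
    rcases Nat.eq_zero_or_pos m with h | h
    · subst h; exact absurd (dvd_zero p) hpm
    · exact h
  have hmN : NeZero m := ⟨hm0.ne'⟩
  have hpN : NeZero (p ^ (n + 1)) := ⟨(pow_pos hp.pos _).ne'⟩
  have hodd : Odd p := by
    have := (Nat.odd_mul.mp ht).1
    rw [Nat.odd_pow_iff (by omega)] at this
    exact this
  have h2 : Nat.Coprime p 2 := (Nat.coprime_primes hp Nat.prime_two).mpr (by
    rintro rfl
    exact absurd hodd (by decide))
  have hpm' : Nat.Coprime p m := (Nat.Prime.coprime_iff_not_dvd hp).mpr hpm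
  have hp4m : Nat.Coprime p (4 * m) := by
    apply Nat.Coprime.mul_right _ hpm'
    have := Nat.Coprime.pow_right 2 h2
    simpa using this
  have hcop : Nat.Coprime (p ^ (n + 1)) m := Nat.Coprime.pow_left _ hpm'
  let E := dec (p ^ (n + 1)) m hcop
  have hcard : Fintype.card (ZMod 2 × ZMod 2 × ZMod m) = 4 * m := by
    rw [Fintype.card_prod, Fintype.card_prod, ZMod.card, ZMod.card]; ring
  have he : ∀ h : ZMod 2 × ZMod 2 × ZMod m, (4 * m) • h = 0 := by
    intro h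
    rw [← hcard]
    exact card_nsmul_eq_zero
  refine group_bound p hp hodd (4 * m) he (dvd_mul_right 4 m) hp4m m hcard hp4m hm0 n
    (fun a h => f (E (a, h))) (fun a h => hf _) ?_
  intro s h0
  have h1 := hAC (E (s, h0))
  rw [← Equiv.sum_comp E, Fintype.sum_prod_type] at h1
  have h3 : (E (s, h0) = 0) ↔ (s = 0 ∧ h0 = 0) := by
    constructor
    · intro h
      have h5 : E (s, h0) = E 0 := by rw [h]; exact (dec_zero _ _ hcop).symm
      have h6 := E.injective h5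
      exact ⟨congrArg Prod.fst h6, congrArg Prod.snd h6⟩
    · rintro ⟨rfl, rfl⟩
      exact dec_zero _ _ hcop
  have h4 : ∀ a h, f (E (a + s, h + h0)) * star (f (E (a, h))) =
      f (E (a, h) + E (s, h0)) * star (f (E (a, h))) := by
    intro a h
    rw [← dec_add]; rfl
  calc ∑ a, ∑ h, f (E (a + s, h + h0)) * star (f (E (a, h)))
      = ∑ a, ∑ h, f (E (a, h) + E (s, h0)) * star (f (E (a, h))) :=
        Finset.sum_congr rfl fun a _ => Finset.sum_congr rfl fun h _ => h4 a h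
    _ = _ := h1
    _ = _ := by
      by_cases hc : s = 0 ∧ h0 = 0
      · rw [if_pos hc, if_pos (h3.mpr hc)]
        congr 1; ring
      · rw [if_neg hc, if_neg (fun h => hc (h3.mp h))]

/-- The sum of two squares. -/
theorem two_squares (t : ℕ) [NeZero t] (f : ZMod 2 × ZMod 2 × ZMod t → GaussianInt)
    (hAC : ∀ s, ∑ u, f (u + s) * star (f u) = if s = 0 then ((4 * t : ℕ) : GaussianInt) else 0) :
    ∃ x y : ℕ, x ^ 2 + y ^ 2 = t := by
  have h1 : (∑ g, f g) * star (∑ g, f g) = ((4 * t : ℕ) : GaussianInt) := by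
    rw [star_sum, Finset.sum_mul_sum, Finset.sum_comm]
    have h2 : ∀ u, ∑ g, f g * star (f u) = ∑ s, f (u + s) * star (f u) := by
      intro u
      exact (Equiv.sum_comp (Equiv.addLeft u) (fun g => f g * star (f u))).symm
    rw [Finset.sum_congr rfl (fun u _ => h2 u), Finset.sum_comm,
      Finset.sum_congr rfl (fun s _ => hAC s)]
    rw [Finset.sum_ite_eq' Finset.univ 0, if_pos (Finset.mem_univ _)]
  have h3 : ((∑ g, f g).norm : GaussianInt) = (((4 * t : ℕ) : ℤ) : GaussianInt) := by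
    rw [Zsqrtd.norm_eq_mul_conj, h1]; push_cast; rfl
  have h4 : (∑ g, f g).norm = ((4 * t : ℕ) : ℤ) := by exact_mod_cast h3
  set z := ∑ g, f g with hz
  have h5 : z.norm = z.re * z.re + z.im * z.im := by
    rw [Zsqrtd.norm_def]; ring
  rw [h5] at h4
  push_cast at h4
  rcases Int.even_or_odd' z.re with ⟨a, ha | ha⟩ <;> rcases Int.even_or_odd' z.im with ⟨b, hb | hb⟩
  · refine ⟨a.natAbs, b.natAbs, ?_⟩
    rw [ha, hb] at h4
    have h6 : a ^ 2 + b ^ 2 = (t : ℤ) := by linarith [sq a, sq b, h4, show 2 * a * (2 * a) + 2 * b * (2 * b) = 4 * (a ^ 2 + b ^ 2) by ring]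
    zify
    rw [sq_abs, sq_abs]
    exact h6
  · exfalso
    rw [ha, hb] at h4
    have : 2 * a * (2 * a) + (2 * b + 1) * (2 * b + 1) = 1 + 4 * (a * a + b * b + b) := by ring
    omega
  · exfalso
    rw [ha, hb] at h4
    have : (2 * a + 1) * (2 * a + 1) + 2 * b * (2 * b) = 1 + 4 * (a * a + a + b * b) := by ring
    omega
  · exfalso
    rw [ha, hb] at h4
    have : (2 * a + 1) * (2 * a + 1) + (2 * b + 1) * (2 * b + 1) =
      2 + 4 * (a * a + a + b * b + b) := by ring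
    omega

/-- Odd powerful numbers `t > 1` with `p^(v_p(t)+1) ≤ t` for all `p ∣ t` are at least 225. -/
theorem ge_225 (t : ℕ) (ht : Odd t) (h1 : 1 < t)
    (h : ∀ p : ℕ, p.Prime → p ∣ t → p ^ 2 ∣ t ∧ p ^ (t.factorization p + 1) ≤ t) : 225 ≤ t := by
  obtain ⟨p, hp, hpt⟩ := Nat.exists_prime_and_dvd (show t ≠ 1 by omega)
  obtain ⟨hp2, hple⟩ := h p hp hpt
  have ht0 : t ≠ 0 := by omega
  -- another prime
  have h2 : ∃ q : ℕ, q.Prime ∧ q ≠ p ∧ q ∣ t := by
    by_contra hcon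
    push Not at hcon
    obtain ⟨k, hk⟩ : ∃ k, t = p ^ k := by
      refine ⟨_, Nat.eq_prime_pow_of_unique_prime_dvd ht0 ?_⟩
      intro d hd hdt
      by_contra hne
      exact hcon d hd hne hdt
    have h3 : t.factorization p = k := by
      rw [hk, hp.factorization_pow, Finsupp.single_eq_same]
    rw [h3, pow_succ, ← hk] at hple
    have := hp.two_le
    nlinarith
  obtain ⟨q, hq, hqp, hqt⟩ := h2
  obtain ⟨hq2, _⟩ := h q hq hqt
  have hcop : Nat.Coprime (p ^ 2) (q ^ 2) :=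
    Nat.Coprime.pow _ _ ((Nat.coprime_primes hp hq).mpr hqp.symm)
  have hdvd : p ^ 2 * q ^ 2 ∣ t := hcop.mul_dvd_of_dvd_of_dvd hp2 hq2
  have hle := Nat.le_of_dvd (by omega) hdvd
  have oddp : Odd p := ht.of_dvd_nat hpt
  have oddq : Odd q := ht.of_dvd_nat hqt
  obtain ⟨a, ha⟩ := oddp
  obtain ⟨b, hb⟩ := oddq
  have hp2' := hp.two_le
  have hq2' := hq.two_le
  have h15 : 15 ≤ p * q := by
    rcases Nat.lt_or_gt_of_ne hqp with hlt | hlt
    · have : 3 ≤ q := by omega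
      have : 5 ≤ p := by omega
      nlinarith
    · have : 3 ≤ p := by omega
      have : 5 ≤ q := by omega
      nlinarith
  calc 225 = 15 ^ 2 := by norm_num
    _ ≤ (p * q) ^ 2 := Nat.pow_le_pow_left h15 2
    _ = p ^ 2 * q ^ 2 := by ring
    _ ≤ t := hle

/-- All the conclusions. -/
theorem main (t : ℕ) [NeZero t] (ht : Odd t)
    (ψ : (ZMod 2 × ZMod 2 × ZMod t) → (ZMod 2 × ZMod 2 × ZMod t) → ℤ)
    (hpm : ∀ g h, ψ g h = 1 ∨ ψ g h = -1) (h0 : ψ 0 0 = 1)
    (hco : ∀ g h k, ψ g h * ψ (g + h) k = ψ g (h + k) * ψ h k)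
    (hH : Matrix.of ψ * Matrix.transpose (Matrix.of ψ) =
          (4 * (t : ℤ)) • (1 : Matrix (ZMod 2 × ZMod 2 × ZMod t) (ZMod 2 × ZMod 2 × ZMod t) ℤ))
    (hsym : ∀ g h, ψ g h = ψ h g) :
    (∀ p : ℕ, p.Prime → p ∣ t → p ^ 2 ∣ t ∧ p ^ (t.factorization p + 1) ≤ t) ∧
      (∃ x y : ℕ, x ^ 2 + y ^ 2 = t) ∧ (1 < t → 225 ≤ t) := by
  obtain ⟨f, hf1, hf2⟩ := exists_f t ht ψ hpm h0 hco hsym
  have hAC := autocorr t ψ hpm h0 hco hH f hf1 hf2
  have hA : ∀ p : ℕ, p.Prime → p ∣ t → p ^ 2 ∣ t ∧ p ^ (t.factorization p + 1) ≤ t := by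
    intro p hp hpt
    have ht0 : t ≠ 0 := NeZero.ne t
    obtain ⟨k, m, hpm', htk⟩ := Nat.exists_eq_pow_mul_and_not_dvd ht0 p hp.ne_one
    have hk : 0 < k := by
      rcases Nat.eq_zero_or_pos k with h | h
      · subst h
        rw [pow_zero, one_mul] at htk
        exact absurd (htk ▸ hpt) hpm'
      · exact h
    obtain ⟨n, rfl⟩ : ∃ n, k = n + 1 := ⟨k - 1, by omega⟩
    subst htk
    obtain ⟨h1, h2⟩ := prime_bound p n m hp hpm' ht f hf1 hAC
    have hfac : (p ^ (n + 1) * m).factorization p = n + 1 := by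
      have hm0 : m ≠ 0 := by
        rintro rfl
        exact hpm' (dvd_zero p)
      rw [Nat.factorization_mul (pow_pos hp.pos _).ne' hm0, hp.factorization_pow]
      simp [Nat.factorization_eq_zero_of_not_dvd hpm']
    refine ⟨?_, ?_⟩
    · exact (pow_dvd_pow p (by omega)).trans (dvd_mul_right _ _)
    · rw [hfac, pow_succ]
      exact Nat.mul_le_mul_left _ h2
  exact ⟨hA, two_squares t f hAC, fun h1 => ge_225 t ht h1 hA⟩

end Pool.MP_66c627_co.Pw
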