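import Mathlib
import Pool.Agent.Work.MP_66c627_co.FD2

/-!
# Field descent, one step
-/

set_option autoImplicit false

namespace Pool.MP_66c627_co.Pw

open NumberField Pool.Agent.Work.MP_66c627_co.FD

theorem sum_classes {M : Type} [AddCommMonoid M] (t p : ℕ) (hp : 0 < p) (hpt : p ∣ t)
    (f : ℕ → M) :
    ∑ c ∈ Finset.range t, f c =
      ∑ r ∈ Finset.range p, ∑ j ∈ Finset.range (t / p), f (r + p * j) := by
  rw [← Finset.sum_product']
  symm
  refine Finset.sum_nbij' (fun x => x.1 + p * x.2) (fun c => (c % p, c / p)) ?_ ?_ ?_ ?_ ?_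
  · rintro ⟨r, j⟩ h
    rw [Finset.mem_product, Finset.mem_range, Finset.mem_range] at h
    rw [Finset.mem_range]
    obtain ⟨h1, h2⟩ := h
    obtain ⟨a, rfl⟩ := hpt
    rw [Nat.mul_div_cancel_left _ hp] at h2
    simp only at h1 h2 ⊢
    calc r + p * j < p + p * j := by omega
      _ = p * (j + 1) := by ring
      _ ≤ p * a := Nat.mul_le_mul_left p h2
  · intro c h
    rw [Finset.mem_range] at h
    rw [Finset.mem_product, Finset.mem_range, Finset.mem_range]
    refine ⟨Nat.mod_lt _ hp, ?_⟩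
    obtain ⟨a, rfl⟩ := hpt
    rw [Nat.mul_div_cancel_left _ hp]
    exact Nat.div_lt_of_lt_mul h
  · rintro ⟨r, j⟩ h
    rw [Finset.mem_product, Finset.mem_range, Finset.mem_range] at h
    simp only at h ⊢
    rw [Nat.add_mul_mod_self_left, Nat.mod_eq_of_lt h.1, Nat.add_mul_div_left _ _ hp,
      Nat.div_eq_of_lt h.1, zero_add]
  · intro c _
    exact Nat.mod_add_div c p
  · intro x _
    rfl

theorem exists_root (t : ℕ) (ht : Odd t) (ht1 : 1 < t) (η : ℂ) (hη : IsPrimitiveRoot η t) :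
    ∃ ρ : ℂ, IsPrimitiveRoot ρ (4 * t) ∧ ρ ^ t = Complex.I ∧ ρ ^ 4 = η := by
  have hcop : Nat.Coprime 4 t := by
    have h2 : Nat.Coprime 2 t := (Nat.coprime_two_left).2 ht
    exact Nat.Coprime.pow_left 2 h2
  obtain ⟨b, -, hb⟩ := Nat.exists_mul_mod_eq_one_of_coprime hcop ht1
  have h1 : (Complex.I ^ t * η ^ b) ^ 4 = η := by
    rw [mul_pow, ← pow_mul, ← pow_mul, mul_comm t 4, pow_mul, Complex.I_pow_four, one_pow,
      one_mul, mul_comm b 4, pow_eq_pow_mod _ hη.pow_eq_one, hb, pow_one]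
  have h2 : (Complex.I ^ t * η ^ b) ^ t = Complex.I := by
    rw [mul_pow, ← pow_mul, ← pow_mul, mul_comm b t, pow_mul η t b, hη.pow_eq_one, one_pow,
      mul_one]
    have h3 : t * t % 4 = 1 := by
      have h4 : t % 4 = 1 ∨ t % 4 = 3 := by
        have := Nat.odd_iff.1 ht
        omega
      rcases h4 with h4 | h4 <;> simp [Nat.mul_mod, h4]
    rw [pow_eq_pow_mod _ Complex.I_pow_four, h3, pow_one]
  refine ⟨Complex.I ^ t * η ^ b, ⟨?_, ?_⟩, h2, h1⟩
  · rw [pow_mul, h1, hη.pow_eq_one]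
  · intro l hl
    have h5 : Complex.I ^ l = 1 := by
      rw [← h2, ← pow_mul, mul_comm t l, pow_mul, hl, one_pow]
    have h6 : η ^ l = 1 := by
      rw [← h1, ← pow_mul, mul_comm 4 l, pow_mul, hl, one_pow]
    exact Nat.Coprime.mul_dvd_of_dvd_of_dvd hcop (Complex.isPrimitiveRoot_I.dvd_of_pow_eq_one _ h5)
      (hη.dvd_of_pow_eq_one _ h6)

theorem one_step_aux (K : Type) [Field K] [NumberField K] (t p : ℕ) [NeZero (4 * t)]
    [IsCyclotomicExtension {4 * t} ℚ K] (ht : Odd t) (hp : p.Prime) (hp2 : p ^ 2 ∣ t) (v : ℕ)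
    (hv : 0 < v)
    (hq : ∀ q : ℕ, q.Prime → q ∣ v →
      ∃ j : ℕ, q ^ j ≡ 1 + 4 * (t / p) [MOD ordCompl[q] (4 * t)])
    (G : ℕ → GaussianInt)
    (hG : ∀ η : ℂ, IsPrimitiveRoot η t →
      Complex.normSq (∑ c ∈ Finset.range t, GaussianInt.toComplex (G c) * η ^ c) = v) :
    ∃ r < p, ∀ r' < p, r' ≠ r → ∀ η : ℂ, IsPrimitiveRoot η t →
      ∑ j ∈ Finset.range (t / p), GaussianInt.toComplex (G (r' + p * j)) * η ^ (r' + p * j) = 0 := by
  have ht0 : t ≠ 0 := by
    rintro rfl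
    exact (Nat.not_odd_zero ht)
  have hpt : p ∣ t := (Dvd.intro _ (pow_two p).symm).trans hp2
  have ht1 : 1 < t := lt_of_lt_of_le hp.one_lt (Nat.le_of_dvd (Nat.pos_of_ne_zero ht0) hpt)
  have hp2' : p ≠ 2 := by
    rintro rfl
    exact (Nat.not_even_iff_odd.2 ht) (even_iff_two_dvd.2 hpt)
  set m := 4 * (t / p) with hmdef
  have hm : 4 * t = p * m := by
    obtain ⟨a, rfl⟩ := hpt
    rw [hmdef, Nat.mul_div_cancel_left _ hp.pos]; ring
  have hpm : p ∣ m := by
    obtain ⟨a, rfl⟩ := hp2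
    rw [hmdef, pow_two, mul_assoc, Nat.mul_div_cancel_left _ hp.pos]
    exact Dvd.dvd.mul_left (Dvd.intro a rfl) 4
  have hζ : IsPrimitiveRoot (IsCyclotomicExtension.zeta (4 * t) ℚ K) (4 * t) :=
    IsCyclotomicExtension.zeta_spec (4 * t) ℚ K
  have hirr : Irreducible (Polynomial.cyclotomic (4 * t) ℚ) :=
    Polynomial.cyclotomic.irreducible_rat (NeZero.pos _)
  have hcop : Nat.Coprime (1 + m) (4 * t) := by
    rw [hm, Nat.coprime_mul_iff_right]
    have h1 : Nat.Coprime (1 + m) m := by simp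
    exact ⟨h1.coprime_dvd_right hpm, h1⟩
  obtain ⟨σ, hσ⟩ : ∃ σ : K ≃ₐ[ℚ] K, σ (IsCyclotomicExtension.zeta (4 * t) ℚ K) =
      (IsCyclotomicExtension.zeta (4 * t) ℚ K) ^ (1 + m) :=
    ⟨IsCyclotomicExtension.fromZetaAut (hζ.pow_of_coprime (1 + m) hcop) hirr,
      IsCyclotomicExtension.fromZetaAut_spec _ _⟩
  obtain ⟨c, hc⟩ : ∃ c : K ≃ₐ[ℚ] K, c (IsCyclotomicExtension.zeta (4 * t) ℚ K) =
      (IsCyclotomicExtension.zeta (4 * t) ℚ K)⁻¹ :=
    ⟨IsCyclotomicExtension.fromZetaAut hζ.inv hirr,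
      IsCyclotomicExtension.fromZetaAut_spec _ _⟩
  generalize hζdef : IsCyclotomicExtension.zeta (4 * t) ℚ K = ζ at hζ hσ hc
  set ι := ζ ^ t with hι
  set ξ := ζ ^ 4 with hξ
  set g : GaussianInt → K := fun z => (z.re : K) + (z.im : K) * ι with hg
  set w : K := ∑ c ∈ Finset.range t, g (G c) * ξ ^ c with hw
  -- embeddings
  have hemb : ∀ η : ℂ, IsPrimitiveRoot η t → ∃ φ : K →+* ℂ, φ ι = Complex.I ∧ φ ξ = η := by
    intro η hη
    obtain ⟨ρ, hρ, hρ1, hρ2⟩ := exists_root t ht ht1 η hη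
    set φ := (hζ.embeddingsEquivPrimitiveRoots ℂ hirr).symm
      ⟨ρ, (mem_primitiveRoots (NeZero.pos _)).2 hρ⟩ with hφ
    have h1 : φ ζ = ρ := by
      have h2 := hζ.embeddingsEquivPrimitiveRoots_apply_coe ℂ hirr φ
      rw [← h2, hφ, Equiv.apply_symm_apply]
    refine ⟨(φ : K →+* ℂ), ?_, ?_⟩
    · change φ (ζ ^ t) = _
      rw [map_pow, h1, hρ1]
    · change φ (ζ ^ 4) = _
      rw [map_pow, h1, hρ2]
  have hφg : ∀ (φ : K →+* ℂ), φ ι = Complex.I → ∀ z : GaussianInt,
      φ (g z) = GaussianInt.toComplex z := by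
    intro φ h z
    rw [hg, GaussianInt.toComplex_def]
    simp only [map_add, map_mul, h]
    rw [map_intCast φ, map_intCast φ]
  have hφw : ∀ (φ : K →+* ℂ) (η : ℂ), φ ι = Complex.I → φ ξ = η →
      φ w = ∑ c ∈ Finset.range t, GaussianInt.toComplex (G c) * η ^ c := by
    intro φ η h h'
    rw [hw, map_sum]
    refine Finset.sum_congr rfl fun c _ => ?_
    rw [map_mul, map_pow, hφg φ h, h']
  -- integrality
  have hζi : IsIntegral ℤ ζ := hζ.isIntegral (NeZero.pos _)
  have hwi : IsIntegral ℤ w := by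
    rw [hw]
    refine IsIntegral.sum _ fun c _ => ?_
    refine IsIntegral.mul ?_ ((hζi.pow 4).pow c)
    rw [hg]
    refine IsIntegral.add ?_ (IsIntegral.mul ?_ (hζi.pow t))
    · exact isIntegral_algebraMap (A := K) (x := (G c).re)
    · exact isIntegral_algebraMap (A := K) (x := (G c).im)
  -- the norm
  have hprim := Complex.isPrimitiveRoot_exp t ht0
  have hnorm : w * c w = v := by
    obtain ⟨φ, h1, h2⟩ := hemb _ hprim
    apply φ.injective
    rw [map_mul, map_natCast]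
    have h3 := conj_comp hζ (c : K ≃+* K) hc φ w
    have h4 : φ (c w) = (starRingEnd ℂ) (φ w) := h3.symm
    rw [h4, Complex.mul_conj, hφw φ _ h1 h2, hG _ hprim]
    simp
  obtain ⟨η₀, hη0, hη1⟩ := descent hζ ⟨2 * t, by ring⟩ (c : K ≃+* K) (σ : K ≃+* K) hc p m hp hp2'
    hm hpm hσ v hv.ne' w hwi hnorm (fun q hq1 hq2 => by
      obtain ⟨j, hj⟩ := hq q hq1 hq2
      exact ⟨j, hj.symm⟩)
  have hη1' : σ w = η₀ * w := hη1
  -- `ω`
  set ω := ξ ^ m with hω
  have hζn : ζ ^ (4 * t) = 1 := hζ.pow_eq_one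
  have hξt : IsPrimitiveRoot ξ t := hζ.pow (NeZero.pos _) rfl
  have hωp : IsPrimitiveRoot ω p := by
    rw [hω, hmdef, mul_comm, pow_mul]
    have h1 : IsPrimitiveRoot (ξ ^ (t / p)) p := by
      refine hξt.pow (Nat.pos_of_ne_zero ht0) ?_
      rw [Nat.div_mul_cancel hpt]
    refine h1.pow_of_coprime 4 ?_
    have h2 : Nat.Coprime 2 p := (Nat.coprime_primes Nat.prime_two hp).2 (Ne.symm hp2')
    exact Nat.Coprime.pow_left 2 h2
  have : NeZero p := ⟨hp.ne_zero⟩
  obtain ⟨r₀, hr₀, hr₀'⟩ := hωp.eq_pow_of_pow_eq_one hη0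
  have hσι : σ ι = ι := by
    rw [hι, map_pow, hσ, ← pow_mul, add_mul, one_mul, pow_add]
    have h1 : m * t = 4 * t * (t / p) := by rw [hmdef]; ring
    rw [h1, pow_mul, hζn, one_pow, mul_one]
  have hσξ : σ ξ = ξ * ω := by
    rw [hξ, map_pow, hσ, hω, hξ]
    ring
  have hωm : ω ^ m = 1 := by
    obtain ⟨a, ha⟩ := hpm
    rw [ha, pow_mul, hωp.pow_eq_one, one_pow]
  have hσω : σ ω = ω := by
    rw [hω, map_pow, hσξ, mul_pow, ← hω, hωm, mul_one]
  have hσg : ∀ z, σ (g z) = g z := by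
    intro z
    rw [hg]
    simp only [map_add, map_mul, map_intCast, hσι]
  set X : ℕ → K := fun r => ∑ j ∈ Finset.range (t / p), g (G (r + p * j)) * ξ ^ (r + p * j) with hX
  have hσX : ∀ r, σ (X r) = ω ^ r * X r := by
    intro r
    rw [hX]
    simp only [map_sum, map_mul, map_pow, hσg, hσξ]
    rw [Finset.mul_sum]
    refine Finset.sum_congr rfl fun j _ => ?_
    have h1 : ω ^ (r + p * j) = ω ^ r := by
      rw [pow_add, pow_mul, hωp.pow_eq_one, one_pow, mul_one]
    rw [mul_pow, h1]; ring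
  have hwX : w = ∑ r ∈ Finset.range p, X r := by
    rw [hw, sum_classes t p hp.pos hpt]
  have hiter : ∀ i : ℕ, ∑ r ∈ Finset.range p, ω ^ (i * r) * X r = ω ^ (i * r₀) * w := by
    intro i
    induction i with
    | zero => simp [hwX]
    | succ i ih =>
      have h1 := congrArg σ ih
      rw [map_sum, map_mul, map_pow, hσω, hη1', ← hr₀'] at h1
      have h2 : ∀ r ∈ Finset.range p, σ (ω ^ (i * r) * X r) = ω ^ ((i + 1) * r) * X r := by
        intro r _
        rw [map_mul, map_pow, hσω, hσX]; ring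
      rw [Finset.sum_congr rfl h2] at h1
      rw [h1]; ring
  have hgeom : ∀ s : ℕ, ∑ i ∈ Finset.range p, ω ^ (i * s) = if p ∣ s then (p : K) else 0 := by
    intro s
    split_ifs with h
    · obtain ⟨a, rfl⟩ := h
      have h1 : ∀ i ∈ Finset.range p, ω ^ (i * (p * a)) = 1 := by
        intro i _
        rw [show i * (p * a) = p * (i * a) by ring, pow_mul, hωp.pow_eq_one, one_pow]
      rw [Finset.sum_congr rfl h1]
      simp
    · have h1 : ω ^ s ≠ 1 := fun h2 => h (hωp.dvd_of_pow_eq_one _ h2)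
      have h2 : (ω ^ s - 1) * ∑ i ∈ Finset.range p, ω ^ (i * s) = 0 := by
        have h3 : ∀ i ∈ Finset.range p, ω ^ (i * s) = (ω ^ s) ^ i := by
          intro i _
          rw [mul_comm i s]
          exact pow_mul ω s i
        rw [Finset.sum_congr rfl h3, mul_geom_sum, ← pow_mul, mul_comm, pow_mul,
          hωp.pow_eq_one, one_pow, sub_self]
      rcases mul_eq_zero.1 h2 with h3 | h3
      · exact absurd (sub_eq_zero.1 h3) h1
      · exact h3
  have hXzero : ∀ l < p, l ≠ r₀ → X l = 0 := by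
    intro l hl hlr
    have h1 : ∑ i ∈ Finset.range p, ω ^ (i * (p - l)) *
        ∑ r ∈ Finset.range p, ω ^ (i * r) * X r =
        ∑ i ∈ Finset.range p, ω ^ (i * (p - l)) * (ω ^ (i * r₀) * w) :=
      Finset.sum_congr rfl fun i _ => by rw [hiter i]
    have h2 : ∑ i ∈ Finset.range p, ω ^ (i * (p - l)) *
        ∑ r ∈ Finset.range p, ω ^ (i * r) * X r =
        ∑ r ∈ Finset.range p, (∑ i ∈ Finset.range p, ω ^ (i * (p - l + r))) * X r := by
      simp only [Finset.mul_sum]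
      rw [Finset.sum_comm]
      refine Finset.sum_congr rfl fun r _ => ?_
      rw [Finset.sum_mul]
      refine Finset.sum_congr rfl fun i _ => ?_
      rw [mul_add, pow_add]; ring
    have h3 : ∑ i ∈ Finset.range p, ω ^ (i * (p - l)) * (ω ^ (i * r₀) * w) =
        (∑ i ∈ Finset.range p, ω ^ (i * (p - l + r₀))) * w := by
      rw [Finset.sum_mul]
      refine Finset.sum_congr rfl fun i _ => ?_
      rw [mul_add, pow_add]; ring
    have hdvd : ∀ r < p, (p ∣ p - l + r ↔ r = l) := by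
      intro r hr
      constructor
      · rintro ⟨a, ha⟩
        have h4 : p - l + r < 2 * p := by omega
        have h5 : 0 < p - l + r := by omega
        rw [ha] at h4 h5
        have h6 : a < 2 := by
          by_contra h7
          push Not at h7
          have := Nat.mul_le_mul_left p h7
          omega
        have h7 : 0 < a := Nat.pos_of_mul_pos_left h5 |> fun h => by
          rcases Nat.eq_zero_or_pos a with h8 | h8
          · subst h8; simp at h5
          · exact h8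
        have h8 : a = 1 := by omega
        subst h8
        omega
      · rintro rfl
        rw [Nat.sub_add_cancel hl.le]
    rw [h2, h3, hgeom, if_neg (fun h => hlr ((hdvd r₀ hr₀).1 h).symm), zero_mul] at h1
    have h4 : ∀ r ∈ Finset.range p, (∑ i ∈ Finset.range p, ω ^ (i * (p - l + r))) * X r =
        if r = l then (p : K) * X l else 0 := by
      intro r hr
      rw [hgeom]
      have h5 := hdvd r (Finset.mem_range.1 hr)
      by_cases h6 : r = l
      · rw [if_pos (h5.2 h6), if_pos h6, h6]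
      · rw [if_neg (fun h7 => h6 (h5.1 h7)), if_neg h6, zero_mul]
    rw [Finset.sum_congr rfl h4, Finset.sum_ite_eq' (Finset.range p) l,
      if_pos (Finset.mem_range.2 hl)] at h1
    rcases mul_eq_zero.1 h1 with h5 | h5
    · exact absurd h5 (Nat.cast_ne_zero.2 hp.ne_zero)
    · exact h5
  refine ⟨r₀, hr₀, fun r' hr' hne η hη => ?_⟩
  obtain ⟨φ, h1, h2⟩ := hemb η hη
  have h3 := congrArg φ (hXzero r' hr' hne)
  rw [map_zero, hX] at h3
  simp only [map_sum, map_mul, map_pow, hφg φ h1, h2] at h3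
  exact h3

theorem one_step (t p : ℕ) (ht : Odd t) (hp : p.Prime) (hp2 : p ^ 2 ∣ t) (v : ℕ) (hv : 0 < v)
    (hq : ∀ q : ℕ, q.Prime → q ∣ v →
      ∃ j : ℕ, q ^ j ≡ 1 + 4 * (t / p) [MOD ordCompl[q] (4 * t)])
    (G : ℕ → GaussianInt)
    (hG : ∀ η : ℂ, IsPrimitiveRoot η t →
      Complex.normSq (∑ c ∈ Finset.range t, GaussianInt.toComplex (G c) * η ^ c) = v) :
    ∃ r < p, ∀ r' < p, r' ≠ r → ∀ η : ℂ, IsPrimitiveRoot η t →
      ∑ j ∈ Finset.range (t / p), GaussianInt.toComplex (G (r' + p * j)) * η ^ (r' + p * j) = 0 := by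
  have ht0 : t ≠ 0 := by
    rintro rfl
    exact (Nat.not_odd_zero ht)
  have : NeZero (4 * t) := ⟨by omega⟩
  have hcyc : @IsCyclotomicExtension {4 * t} ℚ (CyclotomicField (4 * t) ℚ) _ _
      DivisionRing.toRatAlgebra := by
    have h1 : (DivisionRing.toRatAlgebra : Algebra ℚ (CyclotomicField (4 * t) ℚ)) =
        CyclotomicField.algebra (4 * t) ℚ := Subsingleton.elim _ _
    rw [h1]
    infer_instance
  exact one_step_aux (CyclotomicField (4 * t) ℚ) t p ht hp hp2 v hv hq G hG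

end Pool.MP_66c627_co.Pw
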