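import Pool.Agent.Work.MP_66c627_co.Loc

/-! From local to global: products of coefficients modulo `X^p - 1`. -/

namespace Pool.MP_66c627_co.Pw

open Polynomial

/-- the coefficient of `P` at the residue class `c` modulo `X^p - 1` -/
noncomputable def fold {R : Type*} [CommRing R] (p : ℕ) (c : ZMod p) : R[X] →ₗ[R] R :=
  Polynomial.lsum (fun i => if (i : ZMod p) = c then LinearMap.id else 0)

theorem fold_monomial {R : Type*} [CommRing R] (p : ℕ) (c : ZMod p) (i : ℕ) (a : R) :
    fold p c (monomial i a) = if (i : ZMod p) = c then a else 0 := by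
  unfold fold
  rw [Polynomial.lsum_apply, Polynomial.sum_monomial_index]
  · split_ifs <;> simp
  · simp

theorem fold_X_pow {R : Type*} [CommRing R] (p : ℕ) (c : ZMod p) (P : R[X]) :
    fold p c (X ^ p * P) = fold p c P := by
  induction P using Polynomial.induction_on' with
  | add P Q hP hQ => rw [mul_add, map_add, map_add, hP, hQ]
  | monomial n a =>
    rw [X_pow_mul_monomial, fold_monomial, fold_monomial]
    simp

theorem fold_C_mul {R : Type*} [CommRing R] (p : ℕ) (c : ZMod p) (a : R) (P : R[X]) :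
    fold p c (C a * P) = a * fold p c P := by
  rw [← smul_eq_C_mul, map_smul, smul_eq_mul]

theorem fold_map {R S : Type*} [CommRing R] [CommRing S] (φ : R →+* S) (p : ℕ) (c : ZMod p)
    (P : R[X]) : fold p c (P.map φ) = φ (fold p c P) := by
  induction P using Polynomial.induction_on' with
  | add P Q hP hQ => rw [Polynomial.map_add, map_add, map_add, map_add, hP, hQ]
  | monomial n a =>
    rw [Polynomial.map_monomial, fold_monomial, fold_monomial]
    split_ifs <;> simp

theorem fold_Lv {R : Type*} [CommRing R] (p s : ℕ) (c : ZMod p) (P : R[X]) (h : Lv p s P) :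
    ∃ y : R, fold p c P = (p : R) ^ s * y := by
  obtain ⟨Φ, Ψ, h⟩ := h
  refine ⟨fold p c Φ, ?_⟩
  rw [h, map_add, fold_C_mul, sub_mul, map_sub, fold_X_pow, one_mul, sub_self, add_zero]

/-- Local-global: in a ring in which `r^q - r` is divisible by `p` for all `r`. -/
theorem global_factor {R : Type*} [CommRing R] (p : ℕ) (hp : p.Prime)
    (hreg : ∀ x : R, (p : R) * x = 0 → x = 0)
    (q : ℕ) (hq : 2 ≤ q) (hfrob : ∀ r : R, (p : R) ∣ r ^ q - r)
    (u w : R) (hu : (p : R) ∣ u * w - 1)
    (n : ℕ) (F G : R[X])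
    (h : (X ^ (p ^ (n + 1)) - 1 : R[X]) ∣ F * G - C ((p : R) ^ (n + 1) * u))
    (c c' : ZMod p) :
    (p : R) ^ (n + 1) ∣ fold p c F * fold p c' G := by
  set z := fold p c F * fold p c' G with hz
  -- the colon ideal
  let J : Ideal R :=
    { carrier := {r | (p : R) ^ (n + 1) ∣ r * z}
      add_mem' := by
        intro a b ha hb
        simp only [Set.mem_setOf_eq] at ha hb ⊢
        rw [add_mul]; exact dvd_add ha hb
      zero_mem' := by simp
      smul_mem' := by
        intro a b hb
        simp only [Set.mem_setOf_eq, smul_eq_mul] at hb ⊢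
        rw [mul_assoc]; exact Dvd.dvd.mul_left hb a }
  have hJmem : ∀ r, r ∈ J ↔ (p : R) ^ (n + 1) ∣ r * z := fun r => Iff.rfl
  by_cases hJ : J = ⊤
  · have h1 : (1 : R) ∈ J := hJ ▸ Submodule.mem_top
    rw [hJmem, one_mul] at h1
    exact h1
  exfalso
  obtain ⟨M, hM, hJM⟩ := Ideal.exists_le_maximal J hJ
  have hMp : M.IsPrime := hM.isPrime
  have hpM : (p : R) ∈ M := by
    apply hMp.mem_of_pow_mem (n + 1)
    apply hJM
    rw [hJmem]
    exact dvd_mul_right _ _
  let S := Localization.AtPrime M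
  let φ : R →+* S := algebraMap R S
  have hφp : φ (p : R) = (p : S) := map_natCast φ p
  -- p is regular in S
  have hregS : ∀ x : S, (p : S) * x = 0 → x = 0 := by
    intro x hx
    obtain ⟨a, s, rfl⟩ := IsLocalization.exists_mk'_eq M.primeCompl x
    rw [← hφp] at hx
    change algebraMap R S (p : R) * IsLocalization.mk' S a s = 0 at hx
    rw [IsLocalization.mul_mk'_eq_mk'_of_mul, IsLocalization.mk'_eq_zero_iff] at hx
    obtain ⟨m, hm⟩ := hx
    rw [IsLocalization.mk'_eq_zero_iff]
    refine ⟨m, ?_⟩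
    apply hreg
    rw [← hm]; ring
  -- the ideal (p) is the maximal ideal
  have hspan : Ideal.span {(p : S)} = IsLocalRing.maximalIdeal S := by
    rw [← IsLocalization.AtPrime.map_eq_maximalIdeal M S]
    apply le_antisymm
    · rw [Ideal.span_singleton_le_iff_mem, ← hφp]
      exact Ideal.mem_map_of_mem _ hpM
    · rw [Ideal.map_le_iff_le_comap]
      intro a ha
      rw [Ideal.mem_comap, Ideal.mem_span_singleton]
      obtain ⟨y, hy⟩ := hfrob a
      have hunit : IsUnit (φ (a ^ (q - 1) - 1)) := by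
        apply (IsLocalization.AtPrime.isUnit_to_map_iff S M _).mpr
        intro hmem
        have h2 : a ^ (q - 1) ∈ M := M.pow_mem_of_mem ha (q - 1) (by omega)
        have h3 : (1 : R) ∈ M := by
          have := M.sub_mem h2 hmem
          simpa using this
        exact hMp.ne_top ((Ideal.eq_top_iff_one M).mpr h3)
      have h4 : φ (a ^ (q - 1) - 1) * φ a = (p : S) * φ y := by
        rw [← map_mul, ← hφp, ← map_mul, ← hy]
        congr 1
        obtain ⟨q', rfl⟩ : ∃ q', q = q' + 1 := ⟨q - 1, by omega⟩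
        simp only [Nat.add_sub_cancel]
        ring
      obtain ⟨v, hv⟩ := hunit.exists_left_inv
      refine ⟨v * φ y, ?_⟩
      calc φ a = (v * φ (a ^ (q - 1) - 1)) * φ a := by rw [hv, one_mul]
        _ = (p : S) * (v * φ y) := by rw [mul_assoc, h4]; ring
  have hprime : (Ideal.span {(p : S)}).IsPrime := by
    rw [hspan]; exact (IsLocalRing.maximalIdeal.isMaximal S).isPrime
  have huS : ¬ (p : S) ∣ φ u := by
    intro hd
    rw [← Ideal.mem_span_singleton, hspan] at hd
    have huM : u ∈ M := (IsLocalization.AtPrime.to_map_mem_maximal_iff S M u).mp hd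
    obtain ⟨y, hy⟩ := hu
    have : (1 : R) ∈ M := by
      have h5 : (1 : R) = u * w - (p : R) * y := by rw [← hy]; ring
      rw [h5]
      exact M.sub_mem (M.mul_mem_right _ huM) (M.mul_mem_right _ hpM)
    exact hMp.ne_top ((Ideal.eq_top_iff_one M).mpr this)
  have hS : (X ^ (p ^ (n + 1)) - 1 : S[X]) ∣ F.map φ * G.map φ - C ((p : S) ^ (n + 1) * φ u) := by
    obtain ⟨W, hW⟩ := h
    refine ⟨W.map φ, ?_⟩
    have := congrArg (Polynomial.map φ) hW
    rw [Polynomial.map_sub, Polynomial.map_mul, Polynomial.map_mul, Polynomial.map_C,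
      map_mul, map_pow, hφp] at this
    rw [this]
    simp
  obtain ⟨s, s', hs, hF, hG⟩ := local_factor p hp hregS hprime (φ u) huS n _ _ hS
  obtain ⟨y1, hy1⟩ := fold_Lv p s c _ hF
  obtain ⟨y2, hy2⟩ := fold_Lv p s' c' _ hG
  rw [fold_map] at hy1 hy2
  have hzS : φ z = (p : S) ^ (n + 1) * (y1 * y2) := by
    rw [hz, map_mul, hy1, hy2, ← hs, pow_add]; ring
  obtain ⟨a, t, hat⟩ := IsLocalization.exists_mk'_eq M.primeCompl (y1 * y2)
  rw [← hat] at hzS
  have h6 : φ (z * t) = φ ((p : R) ^ (n + 1) * a) := by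
    rw [map_mul, hzS, map_mul, map_pow, hφp, mul_assoc]
    congr 1
    exact IsLocalization.mk'_spec S a t
  rw [IsLocalization.eq_iff_exists M.primeCompl S] at h6
  obtain ⟨m, hm⟩ := h6
  have h7 : (m : R) * t ∈ J := by
    rw [hJmem]
    refine ⟨m * a, ?_⟩
    calc (m : R) * t * z = m * (z * t) := by ring
      _ = m * ((p : R) ^ (n + 1) * a) := hm
      _ = _ := by ring
  rcases hMp.mem_or_mem (hJM h7) with h8 | h8
  · exact m.2 h8
  · exact t.2 h8

/-- Reduction of a monomial modulo `X^N - 1`. -/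
theorem dvd_monomial {R : Type*} [CommRing R] (N e : ℕ) (c : R) :
    (X ^ N - 1 : R[X]) ∣ monomial e c - monomial (e % N) c := by
  have h1 : (monomial e c - monomial (e % N) c : R[X]) =
      C c * X ^ (e % N) * (X ^ (N * (e / N)) - 1) := by
    rw [← C_mul_X_pow_eq_monomial, ← C_mul_X_pow_eq_monomial]
    have : e = e % N + N * (e / N) := (Nat.mod_add_div e N).symm
    conv_lhs => rw [this]
    rw [pow_add]
    simp only [Nat.add_mul_mod_self_left, Nat.mod_mod]
    ring
  rw [h1]
  exact Dvd.dvd.mul_left (X_pow_dvd N _ (dvd_mul_right _ _)) _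

/-- Cyclic convolution as a product of polynomials modulo `X^N - 1`. -/
theorem conv_dvd {R : Type*} [CommRing R] (N : ℕ) [NeZero N] (f g : ZMod N → R) (v : R)
    (h : ∀ s : ZMod N, ∑ b, f (b + s) * g b = if s = 0 then v else 0) :
    (X ^ N - 1 : R[X]) ∣
      (∑ a : ZMod N, monomial a.val (f a)) * (∑ b : ZMod N, monomial (N - b.val) (g b)) - C v := by
  have h1 : (∑ a : ZMod N, monomial a.val (f a)) * (∑ b : ZMod N, monomial (N - b.val) (g b)) =
      ∑ s : ZMod N, ∑ b : ZMod N, (monomial ((b + s).val + (N - b.val)) (f (b + s) * g b) : R[X]) := by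
    rw [Finset.sum_mul_sum, Finset.sum_comm]
    rw [Finset.sum_comm (s := Finset.univ) (t := Finset.univ)
      (f := fun s b => (monomial ((b + s).val + (N - b.val)) (f (b + s) * g b) : R[X]))]
    refine Finset.sum_congr rfl fun b _ => ?_
    rw [← Equiv.sum_comp (Equiv.addLeft b)]
    refine Finset.sum_congr rfl fun s _ => ?_
    rw [monomial_mul_monomial]
    rfl
  have h2 : C v = ∑ s : ZMod N, (monomial s.val (∑ b, f (b + s) * g b) : R[X]) := by
    rw [Finset.sum_eq_single (0 : ZMod N)]
    · rw [h 0, if_pos rfl, ZMod.val_zero]; rfl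
    · intro s _ hs
      rw [h s, if_neg hs, map_zero]
    · intro h0; exact absurd (Finset.mem_univ _) h0
  rw [h1, h2, ← Finset.sum_sub_distrib]
  apply Finset.dvd_sum
  intro s _
  rw [map_sum, ← Finset.sum_sub_distrib]
  apply Finset.dvd_sum
  intro b _
  have h3 := dvd_monomial N ((b + s).val + (N - b.val)) (f (b + s) * g b)
  have h4 : ((b + s).val + (N - b.val)) % N = s.val := by
    have hb : b.val ≤ N := (ZMod.val_lt b).le
    have h5 : (((b + s).val + (N - b.val) : ℕ) : ZMod N) = s := by
      rw [Nat.cast_add, Nat.cast_sub hb, ZMod.natCast_zmod_val, ZMod.natCast_zmod_val,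
        ZMod.natCast_self]
      ring
    rw [← ZMod.val_natCast, h5]
  rw [h4] at h3
  exact h3

end Pool.MP_66c627_co.Pw
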