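import Pool.Agent.Work.MP_66c627_co.Glob

/-! The group ring over the Gaussian integers. -/

namespace Pool.MP_66c627_co.Pw

open Polynomial


theorem gauss_frob (p : ℕ) (hp : p.Prime) (f : ℕ) (j : ℕ) (hq : p ^ f = 4 * j + 1) (r : GaussianInt) :
    (p : GaussianInt) ∣ r ^ (p ^ f) - r := by
  have : Fact p.Prime := ⟨hp⟩
  have hZ : ∀ x : ℤ, (p : ℤ) ∣ x ^ (p ^ f) - x := by
    intro x
    rw [← ZMod.intCast_zmod_eq_zero_iff_dvd]
    push_cast
    rw [ZMod.pow_card_pow, sub_self]
  obtain ⟨x, y⟩ := r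
  have h1 : (⟨x, y⟩ : GaussianInt) = (x : GaussianInt) + (y : GaussianInt) * ⟨0, 1⟩ := by
    apply Zsqrtd.ext <;> simp
  have h2 : ((⟨0, 1⟩ : GaussianInt)) ^ (p ^ f) = ⟨0, 1⟩ := by
    rw [hq, pow_add, pow_mul, pow_one]
    have : ((⟨0, 1⟩ : GaussianInt)) ^ 4 = 1 := by decide
    rw [this, one_pow, one_mul]
  obtain ⟨w, hw⟩ := exists_add_pow_prime_pow_eq hp (x : GaussianInt) ((y : GaussianInt) * ⟨0, 1⟩) f
  obtain ⟨a, ha⟩ := hZ x
  obtain ⟨b, hb⟩ := hZ y
  have ha' : (x : GaussianInt) ^ (p ^ f) - x = (p : GaussianInt) * a := by exact_mod_cast congrArg (Int.cast : ℤ → GaussianInt) ha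
  have hb' : (y : GaussianInt) ^ (p ^ f) - y = (p : GaussianInt) * b := by exact_mod_cast congrArg (Int.cast : ℤ → GaussianInt) hb
  rw [h1, hw, mul_pow, h2]
  refine ⟨a + b * ⟨0, 1⟩ + x * (y * ⟨0, 1⟩) * w, ?_⟩
  linear_combination ha' + (⟨0, 1⟩ : GaussianInt) * hb'

theorem group_frob {H : Type*} [AddCommGroup H] (p : ℕ) (hp : p.Prime) (f : ℕ) (j e : ℕ)
    (he : ∀ h : H, e • h = 0) (h4 : 4 ∣ e) (hq : p ^ f = e * j + 1)
    (r : AddMonoidAlgebra GaussianInt H) :
    (p : AddMonoidAlgebra GaussianInt H) ∣ r ^ (p ^ f) - r := by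
  induction r using AddMonoidAlgebra.induction_linear with
  | zero =>
    rw [zero_pow (pow_pos hp.pos f).ne', sub_self]; exact dvd_zero _
  | add x y hx hy =>
    obtain ⟨w, hw⟩ := exists_add_pow_prime_pow_eq hp x y f
    obtain ⟨a, ha⟩ := hx
    obtain ⟨b, hb⟩ := hy
    refine ⟨a + b + x * y * w, ?_⟩
    rw [hw]
    linear_combination ha + hb
  | single m c =>
    obtain ⟨k, rfl⟩ := h4
    obtain ⟨y, hy⟩ := gauss_frob p hp f (k * j) (by rw [hq]; ring) c
    rw [AddMonoidAlgebra.single_pow]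
    have h1 : (p ^ f) • m = m := by
      rw [hq, add_smul, mul_comm (4 * k) j, mul_smul, he, smul_zero, zero_add, one_smul]
    rw [h1]
    refine ⟨AddMonoidAlgebra.single m y, ?_⟩
    have h2 : (AddMonoidAlgebra.single m (c ^ (p ^ f)) - AddMonoidAlgebra.single m c :
        AddMonoidAlgebra GaussianInt H) = AddMonoidAlgebra.single m (c ^ (p ^ f) - c) := by
      rw [sub_eq_iff_eq_add, ← AddMonoidAlgebra.single_add, sub_add_cancel]
    rw [h2, hy, AddMonoidAlgebra.natCast_def, AddMonoidAlgebra.single_mul_single, zero_add]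

theorem group_reg {H : Type*} [AddCommGroup H] (p : ℕ) (hp : p.Prime)
    (x : AddMonoidAlgebra GaussianInt H) (hx : (p : AddMonoidAlgebra GaussianInt H) * x = 0) : x = 0 := by
  have hp0 : (p : GaussianInt) ≠ 0 := by exact_mod_cast hp.ne_zero
  rw [← AddMonoidAlgebra.coeff_inj]
  ext1 m
  have := congrArg (fun z => z.coeff m) hx
  simp only [AddMonoidAlgebra.natCast_def, AddMonoidAlgebra.coeff_single_zero_mul] at this
  simpa [hp0] using this

section main

variable {H : Type*} [AddCommGroup H] [Fintype H] [DecidableEq H]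

/-- component -/
noncomputable def Bc {N : ℕ} (f : ZMod N → H → GaussianInt) (a : ZMod N) : AddMonoidAlgebra GaussianInt H :=
  ∑ h, AddMonoidAlgebra.single h (f a h)

/-- conjugate component -/
noncomputable def Bs {N : ℕ} (f : ZMod N → H → GaussianInt) (a : ZMod N) : AddMonoidAlgebra GaussianInt H :=
  ∑ h, AddMonoidAlgebra.single (-h) (star (f a h))

theorem conv_B {N : ℕ} [NeZero N] (f : ZMod N → H → GaussianInt) (v : ℕ)
    (hAC : ∀ (s : ZMod N) (h0 : H), ∑ a, ∑ h, f (a + s) (h + h0) * star (f a h) =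
      if s = 0 ∧ h0 = 0 then (v : GaussianInt) else 0) (s : ZMod N) :
    ∑ b, Bc f (b + s) * Bs f b = if s = 0 then (v : AddMonoidAlgebra GaussianInt H) else 0 := by
  have h1 : ∀ b : ZMod N, Bc f (b + s) * Bs f b =
      ∑ h0 : H, AddMonoidAlgebra.single h0 (∑ h, f (b + s) (h + h0) * star (f b h)) := by
    intro b
    unfold Bc Bs
    rw [Finset.sum_mul_sum, Finset.sum_comm]
    have h2 : ∀ h0 : H, AddMonoidAlgebra.single h0 (∑ h, f (b + s) (h + h0) * star (f b h)) =
        ∑ h, AddMonoidAlgebra.single h0 (f (b + s) (h + h0) * star (f b h)) := by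
      intro h0
      exact map_sum (AddMonoidAlgebra.singleAddHom h0) _ _
    rw [Finset.sum_congr rfl (fun h0 _ => h2 h0), Finset.sum_comm
      (f := fun h0 h => AddMonoidAlgebra.single h0 (f (b + s) (h + h0) * star (f b h)))]
    refine Finset.sum_congr rfl fun h _ => ?_
    rw [← Equiv.sum_comp (Equiv.addLeft h)]
    refine Finset.sum_congr rfl fun h0 _ => ?_
    rw [AddMonoidAlgebra.single_mul_single]
    congr 1
    simp
  rw [Finset.sum_congr rfl (fun b _ => h1 b), Finset.sum_comm]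
  have h3 : ∀ h0 : H, ∑ b : ZMod N, AddMonoidAlgebra.single h0
      (∑ h, f (b + s) (h + h0) * star (f b h)) =
      AddMonoidAlgebra.single h0 (if s = 0 ∧ h0 = 0 then (v : GaussianInt) else 0) := by
    intro h0
    rw [← hAC s h0]
    exact (map_sum (AddMonoidAlgebra.singleAddHom h0) _ _).symm
  rw [Finset.sum_congr rfl (fun h0 _ => h3 h0)]
  by_cases hs : s = 0
  · rw [if_pos hs, Finset.sum_eq_single (0 : H)]
    · rw [if_pos ⟨hs, rfl⟩]; rfl
    · intro h0 _ hne
      rw [if_neg (fun h => hne h.2), AddMonoidAlgebra.single_zero]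
    · intro h; exact absurd (Finset.mem_univ _) h
  · rw [if_neg hs]
    apply Finset.sum_eq_zero
    intro h0 _
    rw [if_neg (fun h => hs h.1), AddMonoidAlgebra.single_zero]

/-- the folded coefficients -/
noncomputable def dd {N : ℕ} [NeZero N] (p : ℕ) (f : ZMod N → H → GaussianInt) (c : ZMod p) (h : H) : GaussianInt :=
  ∑ a : ZMod N, if ((a.val : ℕ) : ZMod p) = c then f a h else 0

theorem norm_dvd (p : ℕ) (hp : p.Prime) (e : ℕ) (he : ∀ h : H, e • h = 0) (h4 : 4 ∣ e)
    (hpe : Nat.Coprime p e) (n : ℕ) [NeZero (p ^ (n + 1))] (f : ZMod (p ^ (n + 1)) → H → GaussianInt)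
    (v : ℕ) (hv : Nat.Coprime p v)
    (hAC : ∀ (s : ZMod (p ^ (n + 1))) (h0 : H), ∑ a, ∑ h, f (a + s) (h + h0) * star (f a h) =
      if s = 0 ∧ h0 = 0 then ((p ^ (n + 1) * v : ℕ) : GaussianInt) else 0) (c : ZMod p) :
    ((p : ℤ) ^ (n + 1)) ∣ ∑ h, (dd p f c h).norm := by
  -- the Frobenius exponent
  have hepos : 0 < e := by
    rcases Nat.eq_zero_or_pos e with h | h
    · subst h
      rw [Nat.coprime_zero_right] at hpe
      exact absurd hpe hp.one_lt.ne'
    · exact h
  have hmod : p ^ (Nat.totient e) ≡ 1 [MOD e] := Nat.ModEq.pow_totient hpe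
  have hge : 1 ≤ p ^ (Nat.totient e) := Nat.one_le_pow _ _ hp.pos
  obtain ⟨j, hj⟩ := (Nat.modEq_iff_dvd' hge).mp hmod.symm
  have hq : p ^ (Nat.totient e) = e * j + 1 := by omega
  have hq2 : 2 ≤ p ^ (Nat.totient e) := by
    have h1 : 0 < Nat.totient e := Nat.totient_pos.mpr hepos
    calc 2 ≤ p := hp.two_le
      _ = p ^ 1 := (pow_one p).symm
      _ ≤ p ^ (Nat.totient e) := Nat.pow_le_pow_right hp.pos h1
  -- v is a unit mod p
  obtain ⟨w, hw⟩ : ∃ w : ℤ, (p : ℤ) ∣ (v : ℤ) * w - 1 := by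
    have h1 : IsCoprime (p : ℤ) (v : ℤ) := Nat.isCoprime_iff_coprime.mpr hv
    obtain ⟨a, b, hab⟩ := h1
    exact ⟨b, -a, by linear_combination hab⟩
  set F : (AddMonoidAlgebra GaussianInt H)[X] := ∑ a : ZMod (p ^ (n + 1)), monomial a.val (Bc f a) with hF
  set G : (AddMonoidAlgebra GaussianInt H)[X] :=
    ∑ b : ZMod (p ^ (n + 1)), monomial (p ^ (n + 1) - b.val) (Bs f b) with hG
  have hFG := conv_dvd (p ^ (n + 1)) (Bc f) (Bs f) _ (conv_B f _ hAC)
  rw [← hF, ← hG] at hFG
  have hcast : (((p ^ (n + 1) * v : ℕ)) : AddMonoidAlgebra GaussianInt H) =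
      (p : AddMonoidAlgebra GaussianInt H) ^ (n + 1) * (v : AddMonoidAlgebra GaussianInt H) := by push_cast; ring
  rw [hcast] at hFG
  have hvw : (p : AddMonoidAlgebra GaussianInt H) ∣
      (v : AddMonoidAlgebra GaussianInt H) * (w : AddMonoidAlgebra GaussianInt H) - 1 := by
    obtain ⟨y, hy⟩ := hw
    exact ⟨(y : AddMonoidAlgebra GaussianInt H), by exact_mod_cast congrArg (Int.cast : ℤ → AddMonoidAlgebra GaussianInt H) hy⟩
  have hmain := global_factor p hp (group_reg p hp) (p ^ (Nat.totient e)) hq2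
    (group_frob p hp _ j e he h4 hq) (v : AddMonoidAlgebra GaussianInt H) (w : AddMonoidAlgebra GaussianInt H) hvw n F G
    hFG c (-c)
  -- compute the folds
  have hfF : fold p c F = ∑ h, AddMonoidAlgebra.single h (dd p f c h) := by
    rw [hF, map_sum]
    simp only [fold_monomial]
    have h1 : ∀ h : H, AddMonoidAlgebra.single h (dd p f c h) =
        ∑ a : ZMod (p ^ (n + 1)), AddMonoidAlgebra.single h
          (if ((a.val : ℕ) : ZMod p) = c then f a h else 0) := by
      intro h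
      exact map_sum (AddMonoidAlgebra.singleAddHom h) _ _
    rw [Finset.sum_congr rfl (fun h _ => h1 h), Finset.sum_comm]
    refine Finset.sum_congr rfl fun a _ => ?_
    by_cases ha : ((a.val : ℕ) : ZMod p) = c
    · simp only [if_pos ha]; rfl
    · simp only [if_neg ha, AddMonoidAlgebra.single_zero, Finset.sum_const_zero]
  have hfG : fold p (-c) G = ∑ h, AddMonoidAlgebra.single (-h) (star (dd p f c h)) := by
    rw [hG, map_sum]
    simp only [fold_monomial]
    have h1 : ∀ h : H, AddMonoidAlgebra.single (-h) (star (dd p f c h)) =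
        ∑ a : ZMod (p ^ (n + 1)), AddMonoidAlgebra.single (-h)
          (if ((a.val : ℕ) : ZMod p) = c then star (f a h) else 0) := by
      intro h
      unfold dd
      rw [star_sum]
      have h2 : ∀ a : ZMod (p ^ (n + 1)), star (if ((a.val : ℕ) : ZMod p) = c then f a h else 0) =
          if ((a.val : ℕ) : ZMod p) = c then star (f a h) else 0 := by
        intro a; split_ifs <;> simp
      rw [Finset.sum_congr rfl (fun a _ => h2 a)]
      exact map_sum (AddMonoidAlgebra.singleAddHom (-h)) _ _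
    rw [Finset.sum_congr rfl (fun h _ => h1 h), Finset.sum_comm]
    refine Finset.sum_congr rfl fun a _ => ?_
    have hiff : (((p ^ (n + 1) - a.val : ℕ) : ZMod p) = -c) ↔ (((a.val : ℕ) : ZMod p) = c) := by
      have hb : a.val ≤ p ^ (n + 1) := (ZMod.val_lt a).le
      rw [Nat.cast_sub hb]
      have : ((p ^ (n + 1) : ℕ) : ZMod p) = 0 := by
        push_cast
        rw [ZMod.natCast_self, zero_pow (by omega)]
      rw [this, zero_sub, neg_inj]
    by_cases ha : ((a.val : ℕ) : ZMod p) = c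
    · rw [if_pos (hiff.mpr ha)]; simp only [if_pos ha]; rfl
    · rw [if_neg (fun h => ha (hiff.mp h))]
      simp only [if_neg ha, AddMonoidAlgebra.single_zero, Finset.sum_const_zero]
  rw [hfF, hfG] at hmain
  obtain ⟨y, hy⟩ := hmain
  -- coefficient at 0
  have h0 := congrArg (fun z : AddMonoidAlgebra GaussianInt H => z.coeff 0) hy
  have hL : ((∑ h, AddMonoidAlgebra.single h (dd p f c h)) *
      (∑ h, AddMonoidAlgebra.single (-h) (star (dd p f c h))) : AddMonoidAlgebra GaussianInt H).coeff 0 =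
      ∑ h, dd p f c h * star (dd p f c h) := by
    rw [Finset.sum_mul_sum, AddMonoidAlgebra.coeff_sum, Finsupp.finset_sum_apply]
    refine Finset.sum_congr rfl fun h _ => ?_
    rw [AddMonoidAlgebra.coeff_sum, Finsupp.finset_sum_apply, Finset.sum_eq_single h]
    · rw [AddMonoidAlgebra.single_mul_single, AddMonoidAlgebra.coeff_single, add_neg_cancel,
        Finsupp.single_eq_same]
    · intro h' _ hne
      rw [AddMonoidAlgebra.single_mul_single, AddMonoidAlgebra.coeff_single, Finsupp.single_apply,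
        if_neg]
      intro h2
      apply hne
      have : h = h' := by
        have := eq_neg_of_add_eq_zero_left h2
        rwa [neg_neg] at this
      exact this.symm
    · intro h2; exact absurd (Finset.mem_univ _) h2
  have hR : (((p : AddMonoidAlgebra GaussianInt H) ^ (n + 1)) * y).coeff 0 = (p : GaussianInt) ^ (n + 1) * y.coeff 0 := by
    have : ((p : AddMonoidAlgebra GaussianInt H) ^ (n + 1)) = AddMonoidAlgebra.single 0 ((p : GaussianInt) ^ (n + 1)) := by
      rw [AddMonoidAlgebra.natCast_def, AddMonoidAlgebra.single_pow, smul_zero]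
    rw [this, AddMonoidAlgebra.coeff_single_zero_mul]
  have h0 : ∑ h, dd p f c h * star (dd p f c h) = (p : GaussianInt) ^ (n + 1) * y.coeff 0 := by
    rw [← hL, ← hR]; exact h0
  have h5 : ((∑ h, (dd p f c h).norm : ℤ) : GaussianInt) = ((p : ℤ) ^ (n + 1) : ℤ) * y.coeff 0 := by
    push_cast
    rw [← h0]
    refine Finset.sum_congr rfl fun h _ => ?_
    exact Zsqrtd.norm_eq_mul_conj _
  rw [← Zsqrtd.intCast_dvd_intCast (d := -1)]
  exact ⟨y.coeff 0, h5⟩

end main

end Pool.MP_66c627_co.Pw
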