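import Mathlib

/-! Local lemma: factorisations of `p^k u` in `S[X]/(X^{p^k} - 1)`. -/

namespace Pool.MP_66c627_co.Pw

open Polynomial

/-- `F` is congruent to a multiple of `p^s` modulo `X^p - 1`. -/
def Lv {S : Type*} [CommRing S] (p s : ℕ) (F : S[X]) : Prop :=
  ∃ Φ Ψ : S[X], F = C ((p : S) ^ s) * Φ + (X ^ p - 1) * Ψ

theorem prime_pow_split {M : Type*} [CommRing M] [IsDomain M] {π : M} (hπ : Prime π)
    (a b : M) : ∀ n i j : ℕ, i + j = n → π ^ (i + j) ∣ a * b → π ^ i ∣ a ∨ π ^ j ∣ b := by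
  intro n
  induction n with
  | zero =>
    intro i j hij _
    have : i = 0 := by omega
    subst this
    left; simp
  | succ n ih =>
    intro i j hij h
    rcases Nat.eq_zero_or_pos i with hi | hi
    · subst hi; left; simp
    rcases Nat.eq_zero_or_pos j with hj | hj
    · subst hj; right; simp
    obtain ⟨i', rfl⟩ : ∃ i', i = i' + 1 := ⟨i - 1, by omega⟩
    obtain ⟨j', rfl⟩ : ∃ j', j = j' + 1 := ⟨j - 1, by omega⟩
    have h1 : π ^ (i' + (j' + 1)) ∣ a * b := (pow_dvd_pow π (by omega)).trans h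
    have h2 : π ^ ((i' + 1) + j') ∣ a * b := (pow_dvd_pow π (by omega)).trans h
    rcases ih i' (j' + 1) (by omega) h1 with h3 | h3
    · rcases ih (i' + 1) j' (by omega) h2 with h4 | h4
      · exact Or.inl h4
      · exact succ_dvd_or_succ_dvd_of_succ_sum_dvd_mul hπ h3 h4
          ((pow_dvd_pow π (by omega)).trans h)
    · exact Or.inr h3

theorem X_pow_sub_one_eq {D : Type*} [CommRing D] (p : ℕ) [hp : Fact p.Prime] [CharP D p]
    (n : ℕ) : (X ^ (p ^ n) - 1 : D[X]) = (X - C 1) ^ (p ^ n) := by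
  have := sub_pow_char_pow (R := D[X]) (p := p) (n := n) (X : D[X]) 1
  rw [map_one, this, one_pow]

theorem split_char {D : Type*} [CommRing D] [IsDomain D] (p : ℕ) [hp : Fact p.Prime] [CharP D p]
    (k : ℕ) (F G : D[X]) (h : (X ^ (p ^ (k + 1)) - 1 : D[X]) ∣ F * G) :
    (X ^ (p ^ k) - 1 : D[X]) ∣ F ∨ (X ^ (p ^ k) - 1 : D[X]) ∣ G := by
  rw [X_pow_sub_one_eq p] at h ⊢
  have h2 : 2 ≤ p := hp.out.two_le
  have hle : p ^ k + p ^ k ≤ p ^ (k + 1) := by
    rw [pow_succ]; nlinarith [Nat.zero_le (p ^ k)]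
  exact prime_pow_split (prime_X_sub_C 1) F G _ _ _ rfl ((pow_dvd_pow _ hle).trans h)

theorem lift_dvd {S : Type*} [CommRing S] (p n : ℕ) (F : S[X])
    (h : (X ^ n - 1 : (S ⧸ Ideal.span {(p : S)})[X]) ∣
      F.map (Ideal.Quotient.mk (Ideal.span {(p : S)}))) :
    ∃ Φ Ψ : S[X], F = C (p : S) * Φ + (X ^ n - 1) * Ψ := by
  obtain ⟨W, hW⟩ := h
  obtain ⟨Ψ, hΨ⟩ := Polynomial.map_surjective _ (Ideal.Quotient.mk_surjective) W
  have h0 : (F - (X ^ n - 1) * Ψ).map (Ideal.Quotient.mk (Ideal.span {(p : S)})) = 0 := by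
    rw [Polynomial.map_sub, Polynomial.map_mul, hΨ, hW]
    simp
  have h1 : C (p : S) ∣ F - (X ^ n - 1) * Ψ := by
    rw [C_dvd_iff_dvd_coeff]
    intro i
    have := congrArg (fun P => coeff P i) h0
    simp only [coeff_map, coeff_zero] at this
    rw [Ideal.Quotient.eq_zero_iff_mem, Ideal.mem_span_singleton] at this
    exact this
  obtain ⟨Φ, hΦ⟩ := h1
  exact ⟨Φ, Ψ, by rw [← hΦ]; ring⟩

theorem cancel_p {S : Type*} [CommRing S] (p n : ℕ) (hn : 0 < n)
    (hreg : ∀ x : S, (p : S) * x = 0 → x = 0)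
    (hprime : (Ideal.span {(p : S)}).IsPrime)
    (V : S[X]) (h : (X ^ n - 1 : S[X]) ∣ C (p : S) * V) : (X ^ n - 1 : S[X]) ∣ V := by
  obtain ⟨W, hW⟩ := h
  have := hprime
  have h0 : (X ^ n - 1 : (S ⧸ Ideal.span {(p : S)})[X]) *
      W.map (Ideal.Quotient.mk (Ideal.span {(p : S)})) = 0 := by
    have := congrArg (Polynomial.map (Ideal.Quotient.mk (Ideal.span {(p : S)}))) hW
    rw [Polynomial.map_mul, Polynomial.map_mul] at this
    have hp0 : (Polynomial.map (Ideal.Quotient.mk (Ideal.span {(p : S)})) (C (p : S))) = 0 := by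
      rw [Polynomial.map_C]
      have : (Ideal.Quotient.mk (Ideal.span {(p : S)})) (p : S) = 0 := by
        rw [Ideal.Quotient.eq_zero_iff_mem]; exact Ideal.mem_span_singleton_self _
      rw [this, C_0]
    rw [hp0, zero_mul] at this
    have h3 : (X ^ n - 1 : (S ⧸ Ideal.span {(p : S)})[X]) =
      Polynomial.map (Ideal.Quotient.mk (Ideal.span {(p : S)})) (X ^ n - 1) := by simp
    rw [h3]; exact this.symm
  have hne : (X ^ n - 1 : (S ⧸ Ideal.span {(p : S)})[X]) ≠ 0 := by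
    have := monic_X_pow_sub_C (1 : S ⧸ Ideal.span {(p : S)}) hn.ne'
    rw [C_1] at this
    exact this.ne_zero
  have hW0 := (mul_eq_zero.mp h0).resolve_left hne
  have h1 : C (p : S) ∣ W := by
    rw [C_dvd_iff_dvd_coeff]
    intro i
    have := congrArg (fun P => coeff P i) hW0
    simp only [coeff_map, coeff_zero] at this
    rw [Ideal.Quotient.eq_zero_iff_mem, Ideal.mem_span_singleton] at this
    exact this
  obtain ⟨W', hW'⟩ := h1
  refine ⟨W', ?_⟩
  have h2 : C (p : S) * (V - (X ^ n - 1) * W') = 0 := by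
    rw [mul_sub, hW, hW']; ring
  have h3 : V - (X ^ n - 1) * W' = 0 := by
    ext i
    have := congrArg (fun P => coeff P i) h2
    simp only [coeff_C_mul, coeff_zero] at this
    rw [hreg _ this, coeff_zero]
  exact sub_eq_zero.mp h3

theorem X_pow_dvd {S : Type*} [CommRing S] (a b : ℕ) (h : a ∣ b) :
    (X ^ a - 1 : S[X]) ∣ X ^ b - 1 := by
  obtain ⟨c, rfl⟩ := h
  rw [pow_mul]
  exact sub_one_dvd_pow_sub_one (X ^ a) c

theorem charP_quot {S : Type*} [CommRing S] (p : ℕ) (hp : p.Prime)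
    (hprime : (Ideal.span {(p : S)}).IsPrime) : CharP (S ⧸ Ideal.span {(p : S)}) p := by
  have := hprime
  have : Nontrivial (S ⧸ Ideal.span {(p : S)}) := inferInstance
  have : Fact p.Prime := ⟨hp⟩
  rw [CharP.charP_iff_prime_eq_zero hp]
  rw [← map_natCast (Ideal.Quotient.mk (Ideal.span {(p : S)})), Ideal.Quotient.eq_zero_iff_mem]
  exact Ideal.mem_span_singleton_self _

/-- The local lemma. -/
theorem local_factor {S : Type*} [CommRing S] (p : ℕ) (hp : p.Prime)
    (hreg : ∀ x : S, (p : S) * x = 0 → x = 0)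
    (hprime : (Ideal.span {(p : S)}).IsPrime) (u : S) (hu : ¬ (p : S) ∣ u) :
    ∀ (n : ℕ) (F G : S[X]),
      (X ^ (p ^ (n + 1)) - 1 : S[X]) ∣ F * G - C ((p : S) ^ (n + 1) * u) →
      ∃ s s' : ℕ, s + s' = n + 1 ∧ Lv p s F ∧ Lv p s' G := by
  have := hprime
  have : Fact p.Prime := ⟨hp⟩
  have : CharP (S ⧸ Ideal.span {(p : S)}) p := charP_quot p hp hprime
  set φ := Ideal.Quotient.mk (Ideal.span {(p : S)}) with hφ
  have hφp : φ (p : S) = 0 := by
    rw [Ideal.Quotient.eq_zero_iff_mem]; exact Ideal.mem_span_singleton_self _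
  -- reduction of the hypothesis
  have hred : ∀ (n : ℕ) (F G : S[X]),
      (X ^ (p ^ (n + 1)) - 1 : S[X]) ∣ F * G - C ((p : S) ^ (n + 1) * u) →
      (X ^ (p ^ (n + 1)) - 1 : (S ⧸ Ideal.span {(p : S)})[X]) ∣ F.map φ * G.map φ := by
    intro n F G h
    obtain ⟨W, hW⟩ := h
    refine ⟨W.map φ, ?_⟩
    have := congrArg (Polynomial.map φ) hW
    rw [Polynomial.map_sub, Polynomial.map_mul, Polynomial.map_mul, Polynomial.map_C,
      map_mul, map_pow, hφp] at this
    simpa using this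
  intro n
  induction n with
  | zero =>
    intro F G h
    have hr := hred 0 F G h
    rw [zero_add, pow_one] at h hr
    rw [pow_one] at h
    have hev : F.eval 1 * G.eval 1 = (p : S) * u := by
      obtain ⟨W, hW⟩ := h
      have := congrArg (Polynomial.eval 1) hW
      simp at this
      linear_combination this
    have hXp : (X ^ p - 1 : (S ⧸ Ideal.span {(p : S)})[X]) = (X - C 1) ^ p := by
      have := X_pow_sub_one_eq (D := S ⧸ Ideal.span {(p : S)}) p 1
      simpa using this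
    have hroot : ∀ P : S[X], ¬ (p : S) ∣ P.eval 1 →
        ¬ (X - C 1 : (S ⧸ Ideal.span {(p : S)})[X]) ∣ P.map φ := by
      intro P hP hd
      rw [dvd_iff_isRoot, IsRoot.def] at hd
      apply hP
      have h1 : (P.map φ).eval 1 = φ (P.eval 1) := by
        rw [← map_one φ, eval_map_apply]
      rw [h1, Ideal.Quotient.eq_zero_iff_mem, Ideal.mem_span_singleton] at hd
      exact hd
    by_cases hF : (p : S) ∣ F.eval 1
    · by_cases hG : (p : S) ∣ G.eval 1
      · exfalso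
        obtain ⟨a, ha⟩ := hF
        obtain ⟨b, hb⟩ := hG
        apply hu
        refine ⟨a * b, ?_⟩
        rw [ha, hb] at hev
        have : (p : S) * (u - (p : S) * (a * b)) = 0 := by linear_combination -hev
        exact sub_eq_zero.mp (hreg _ this)
      · have h1 := hroot G hG
        have h2 : (X - C 1 : (S ⧸ Ideal.span {(p : S)})[X]) ^ p ∣ F.map φ :=
          (prime_X_sub_C 1).pow_dvd_of_dvd_mul_right p h1 (hXp ▸ hr)
        rw [← hXp] at h2
        obtain ⟨Φ, Ψ, hΦ⟩ := lift_dvd p p F h2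
        exact ⟨1, 0, rfl, ⟨Φ, Ψ, by rw [pow_one]; exact hΦ⟩, ⟨G, 0, by simp⟩⟩
    · have h1 := hroot F hF
      have h2 : (X - C 1 : (S ⧸ Ideal.span {(p : S)})[X]) ^ p ∣ G.map φ :=
        (prime_X_sub_C 1).pow_dvd_of_dvd_mul_left p h1 (hXp ▸ hr)
      rw [← hXp] at h2
      obtain ⟨Φ, Ψ, hΦ⟩ := lift_dvd p p G h2
      exact ⟨0, 1, rfl, ⟨F, 0, by simp⟩, ⟨Φ, Ψ, by rw [pow_one]; exact hΦ⟩⟩
  | succ n ih =>
    -- one-sided step
    have hstep : ∀ F G : S[X],
        (X ^ (p ^ (n + 1 + 1)) - 1 : S[X]) ∣ F * G - C ((p : S) ^ (n + 1 + 1) * u) →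
        (X ^ (p ^ (n + 1)) - 1 : (S ⧸ Ideal.span {(p : S)})[X]) ∣ F.map φ →
        ∃ s s' : ℕ, s + s' = n + 1 + 1 ∧ Lv p s F ∧ Lv p s' G := by
      intro F G h hd
      obtain ⟨Φ, Ψ, hΦ⟩ := lift_dvd p (p ^ (n + 1)) F hd
      have h1 : (X ^ (p ^ (n + 1)) - 1 : S[X]) ∣
          C (p : S) * (Φ * G - C ((p : S) ^ (n + 1) * u)) := by
        have h2 : (X ^ (p ^ (n + 1)) - 1 : S[X]) ∣ F * G - C ((p : S) ^ (n + 1 + 1) * u) :=
          (X_pow_dvd _ _ (pow_dvd_pow p (by omega))).trans h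
        have h3 : C (p : S) * (Φ * G - C ((p : S) ^ (n + 1) * u)) =
            (F * G - C ((p : S) ^ (n + 1 + 1) * u)) - (X ^ (p ^ (n + 1)) - 1) * (Ψ * G) := by
          rw [hΦ]
          simp only [map_mul, map_pow]
          ring
        rw [h3]
        exact dvd_sub h2 (dvd_mul_right _ _)
      have h4 := cancel_p p (p ^ (n + 1)) (pow_pos hp.pos _) hreg hprime _ h1
      obtain ⟨s, s', hs, ⟨Φ1, Ψ1, hF1⟩, hG1⟩ := ih Φ G h4
      refine ⟨s + 1, s', by omega, ?_, hG1⟩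
      obtain ⟨E, hE⟩ := X_pow_dvd (S := S) p (p ^ (n + 1)) (dvd_pow_self p (by omega))
      refine ⟨Φ1, C (p : S) * Ψ1 + E * Ψ, ?_⟩
      rw [hΦ, hF1, hE]
      simp only [map_mul, map_pow]
      ring
    intro F G h
    rcases split_char p (n + 1) _ _ (hred (n + 1) F G h) with h1 | h1
    · exact hstep F G h h1
    · have h' : (X ^ (p ^ (n + 1 + 1)) - 1 : S[X]) ∣ G * F - C ((p : S) ^ (n + 1 + 1) * u) := by
        rw [mul_comm G F]; exact h
      obtain ⟨s, s', hs, h2, h3⟩ := hstep G F h' h1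
      exact ⟨s', s, by omega, h3, h2⟩

end Pool.MP_66c627_co.Pw
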