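import Pool.Agent.Work.MP_66c627_co.Stmts2

namespace Pool.MP_66c627_co.Pw

private lemma lteA (a l j E : ℕ) (ha : 1 ≤ a) (h : l ∣ a - 1) (hE : l ^ j ∣ E) :
    l ^ (j + 1) ∣ a ^ E - 1 := by
  obtain ⟨c, rfl⟩ := hE
  have h1 : ((l : ℕ) : ℤ) ∣ (a : ℤ) - 1 := by
    have := Int.natCast_dvd_natCast.2 h
    rwa [Nat.cast_sub ha, Nat.cast_one] at this
  have h2 := dvd_sub_pow_of_dvd_sub h1 j
  rw [one_pow] at h2
  have h3 : ((a : ℤ) ^ l ^ j - 1) ∣ ((a : ℤ) ^ l ^ j) ^ c - 1 ^ c := sub_dvd_pow_sub_pow _ _ c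
  rw [one_pow, ← pow_mul] at h3
  have h4 := h2.trans h3
  have h5 : 1 ≤ a ^ (l ^ j * c) := Nat.one_le_pow _ _ ha
  have h6 : (((l ^ (j + 1) : ℕ)) : ℤ) ∣ ((a ^ (l ^ j * c) - 1 : ℕ) : ℤ) := by
    rw [Nat.cast_sub h5]
    push_cast
    exact h4
  exact Int.natCast_dvd_natCast.1 h6

private lemma lteB (g n1 p s : ℕ) (hg : g = 1 + n1 * s) (hp : p ∣ n1) (i : ℕ) :
    g ^ i ≡ 1 + n1 * s * i [MOD p * n1] := by
  induction i with
  | zero => simp [Nat.ModEq]
  | succ i ih =>
    have h1 : g ^ (i + 1) ≡ (1 + n1 * s * i) * (1 + n1 * s) [MOD p * n1] := by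
      rw [pow_succ]
      exact ih.mul (by rw [hg])
    refine h1.trans ?_
    obtain ⟨c, hc⟩ := hp
    have h2 : (1 + n1 * s * i) * (1 + n1 * s) = (1 + n1 * s * (i + 1)) + (p * n1) * (c * s * s * i) := by
      have : n1 * s * i * (n1 * s) = (p * n1) * (c * s * s * i) := by
        calc n1 * s * i * (n1 * s) = n1 * (n1 * (s * s * i)) := by ring
          _ = (p * c) * (n1 * (s * s * i)) := by rw [← hc]
          _ = _ := by ring
      calc (1 + n1 * s * i) * (1 + n1 * s) = (1 + n1 * s * (i + 1)) + n1 * s * i * (n1 * s) := by ring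
        _ = _ := by rw [this]
    rw [h2]
    exact Nat.ModEq.symm ((Nat.modEq_iff_dvd' (Nat.le_add_right _ _)).2 (by
      rw [Nat.add_sub_cancel_left]
      exact dvd_mul_right _ _))

theorem lte : S_Lte := by
  intro t p q o ht hp hq hpt hqt hqp ho h1 h2
  have : Fact p.Prime := ⟨hp⟩
  have ht0 : t ≠ 0 := by rintro rfl; exact absurd ht (by decide)
  have hpd : p ∣ t := (dvd_pow_self p two_ne_zero).trans hpt
  have hpodd : Odd p := ht.of_dvd_nat hpd
  have hqodd : Odd q := ht.of_dvd_nat hqt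
  have hq1 : 1 < q := hq.one_lt
  set a : ℕ := q ^ o with ha
  have ha1 : 1 ≤ a := Nat.one_le_pow _ _ hq.pos
  have ha2 : 1 < a := Nat.one_lt_pow ho.ne' hq1
  -- 4 radE | a - 1
  have hrad : 4 * radE t q ∣ a - 1 := (Nat.modEq_iff_dvd' ha1).1 h1.symm
  have h4 : 4 ∣ a - 1 := (dvd_mul_right _ _).trans hrad
  have hl : ∀ l : ℕ, l.Prime → l ∣ t → l ≠ q → l ∣ a - 1 := by
    intro l hl hlt hlq
    refine dvd_trans (dvd_trans ?_ (dvd_mul_left _ _)) hrad
    exact Finset.dvd_prod_of_mem _ (Finset.mem_erase.2 ⟨hlq, Nat.mem_primeFactors.2 ⟨hl, hlt, ht0⟩⟩)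
  have hpa : p ∣ a - 1 := hl p hp hpd (Ne.symm hqp)
  have hna : ¬ p ∣ a := by
    intro h
    have := hp.dvd_of_dvd_pow h
    exact hqp ((Nat.prime_dvd_prime_iff_eq hp hq).1 this).symm
  set k := t.factorization p with hk
  have hk2 : 2 ≤ k := (hp.pow_dvd_iff_le_factorization ht0).1 hpt
  have hv : padicValNat p (a - 1) < k := by
    by_contra hcon
    push Not at hcon
    apply h2
    have h3 : p ^ k ∣ a - 1 :=
      (pow_dvd_pow p hcon).trans pow_padicValNat_dvd
    exact ((Nat.modEq_iff_dvd' ha1).2 h3).symm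
  have hv1 : 1 ≤ padicValNat p (a - 1) :=
    one_le_padicValNat_of_dvd (by omega) hpa
  set v := padicValNat p (a - 1) with hvdef
  -- u, m'
  set w := t.factorization q with hw
  set u : ℕ := ordCompl[q] t with hu
  have htu : q ^ w * u = t := Nat.ordProj_mul_ordCompl_eq_self t q
  have hu0 : u ≠ 0 := by
    intro h
    rw [h, mul_zero] at htu
    exact ht0 htu.symm
  have hqu : ¬ q ∣ u := Nat.not_dvd_ordCompl hq ht0
  have hku : u.factorization p = k := by
    have h3 : t.factorization p = (q ^ w * u).factorization p := by rw [htu]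
    rw [Nat.factorization_mul (pow_ne_zero _ hq.ne_zero) hu0, Nat.factorization_pow] at h3
    simp only [Finsupp.coe_add, Finsupp.coe_smul, Pi.add_apply, Pi.smul_apply, smul_eq_mul] at h3
    rw [Nat.factorization_eq_zero_of_not_dvd (n := q) (p := p) (fun h => hqp ((Nat.prime_dvd_prime_iff_eq hp hq).1 h).symm)] at h3
    omega
  set m : ℕ := ordCompl[p] u with hm
  have hum : p ^ k * m = u := by
    have h3 := Nat.ordProj_mul_ordCompl_eq_self u p
    rw [← hm, hku] at h3
    exact h3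
  have hm0 : m ≠ 0 := by
    intro h
    rw [h, mul_zero] at hum
    exact hu0 hum.symm
  have hpm : ¬ p ∣ m := Nat.not_dvd_ordCompl hp hu0
  have hmod : ordCompl[q] (4 * t) = 4 * u := by
    have h4q : ¬ q ∣ 4 := by
      intro h
      have h5 : q ∣ 2 := hq.dvd_of_dvd_pow (show q ∣ 2 ^ 2 by simpa using h)
      have h6 := (Nat.prime_dvd_prime_iff_eq hq Nat.prime_two).1 h5
      rw [h6] at hqodd
      exact absurd hqodd (by decide)
    rw [Nat.ordCompl_mul, ← hu, Nat.factorization_eq_zero_of_not_dvd h4q, pow_zero, Nat.div_one]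
  -- n1
  set n1 : ℕ := 4 * (p ^ (k - 1) * m) with hn1
  have hpn1 : p * n1 = 4 * u := by
    rw [← hum, hn1]
    have : p ^ k = p * p ^ (k - 1) := by
      rw [← pow_succ']
      congr 1
      omega
    rw [this]
    ring
  have htp : t / p = q ^ w * (p ^ (k - 1) * m) := by
    apply Nat.div_eq_of_eq_mul_right hp.pos
    rw [← htu, ← hum]
    have : p ^ k = p * p ^ (k - 1) := by
      rw [← pow_succ']
      congr 1
      omega
    rw [this]
    ring
  -- g
  set e1 : ℕ := m * p ^ (k - 1 - v) with he1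
  have he10 : e1 ≠ 0 := Nat.mul_ne_zero hm0 (pow_ne_zero _ hp.ne_zero)
  set g : ℕ := a ^ e1 with hg
  have hg1 : 1 < g := Nat.one_lt_pow he10 ha2
  have hval : padicValNat p (g - 1) = k - 1 := by
    have h3 := padicValNat.pow_sub_pow (x := a) (y := 1) (p := p) hpodd ha2 hpa hna he10
    rw [one_pow] at h3
    rw [hg, h3, he1, padicValNat.mul hm0 (pow_ne_zero _ hp.ne_zero), padicValNat.prime_pow,
      padicValNat.eq_zero_of_not_dvd hpm]
    omega
  have hdiv : n1 ∣ g - 1 := by
    rw [Nat.dvd_iff_prime_pow_dvd_dvd]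
    intro l j hlp hlj
    by_cases hl2 : l = 2
    · -- l = 2
      subst hl2
      have h5 : Nat.Coprime (2 ^ j) (p ^ (k - 1) * m) := by
        apply Nat.Coprime.pow_left
        rw [Nat.coprime_two_left]
        refine Odd.mul (hpodd.pow) ?_
        refine ht.of_dvd_nat ?_
        exact ⟨q ^ w * p ^ k, by rw [← htu, ← hum]; ring⟩
      have h6 : 2 ^ j ∣ 4 := h5.dvd_of_dvd_mul_right hlj
      refine h6.trans (h4.trans ?_)
      have := Nat.sub_dvd_pow_sub_pow a 1 e1
      rwa [one_pow] at this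
    · by_cases hlpp : l = p
      · subst hlpp
        have h5 : Nat.Coprime (l ^ j) (4 * m) := by
          apply Nat.Coprime.pow_left
          refine Nat.Coprime.mul_right ?_ ((Nat.Prime.coprime_iff_not_dvd hlp).2 hpm)
          rw [Nat.Prime.coprime_iff_not_dvd hlp]
          intro h
          have h5 : l ∣ 2 := hlp.dvd_of_dvd_pow (show l ∣ 2 ^ 2 by simpa using h)
          exact hl2 ((Nat.prime_dvd_prime_iff_eq hlp Nat.prime_two).1 h5)
        have h6 : l ^ j ∣ l ^ (k - 1) := by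
          refine h5.dvd_of_dvd_mul_left ?_
          have : n1 = 4 * m * l ^ (k - 1) := by rw [hn1]; ring
          rwa [this] at hlj
        refine h6.trans ?_
        rw [← hval]
        exact pow_padicValNat_dvd
      · -- l other
        have h5 : Nat.Coprime (l ^ j) (4 * p ^ (k - 1)) := by
          apply Nat.Coprime.pow_left
          refine Nat.Coprime.mul_right ?_ ?_
          · rw [Nat.Prime.coprime_iff_not_dvd hlp]
            intro h
            have h5 : l ∣ 2 := hlp.dvd_of_dvd_pow (show l ∣ 2 ^ 2 by simpa using h)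
            exact hl2 ((Nat.prime_dvd_prime_iff_eq hlp Nat.prime_two).1 h5)
          · apply Nat.Coprime.pow_right
            exact (Nat.coprime_primes hlp hp).2 hlpp
        have h6 : l ^ j ∣ m := by
          refine h5.dvd_of_dvd_mul_left ?_
          have : n1 = 4 * p ^ (k - 1) * m := by rw [hn1]; ring
          rwa [this] at hlj
        rcases Nat.eq_zero_or_pos j with hj | hj
        · subst hj; simp
        · have hlm : l ∣ m := (dvd_pow_self l hj.ne').trans h6
          have hlu : l ∣ u := hlm.trans ⟨p ^ k, by rw [← hum]; ring⟩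
          have hlq : l ≠ q := by
            rintro rfl
            exact hqu hlu
          have hlt : l ∣ t := hlu.trans ⟨q ^ w, by rw [← htu]; ring⟩
          have h7 := lteA a l j e1 ha1 (hl l hlp hlt hlq) (h6.trans (dvd_mul_right _ _))
          exact (pow_dvd_pow l (Nat.le_succ j)).trans h7
  obtain ⟨s, hs⟩ := hdiv
  have hgs : g = 1 + n1 * s := by omega
  have hps : ¬ p ∣ s := by
    rintro ⟨c, rfl⟩
    have h5 : p ^ k ∣ g - 1 := by
      rw [hs, hn1]
      have : p ^ k = p ^ (k - 1) * p := by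
        rw [← pow_succ]
        congr 1
        omega
      rw [this]
      exact ⟨4 * m * c, by ring⟩
    have h6 := (padicValNat_dvd_iff_le (p := p) (a := g - 1) (n := k) (by omega)).1 h5
    omega
  -- choose i
  obtain ⟨i, hi⟩ : ∃ i : ℕ, s * i ≡ q ^ w [MOD p] := by
    have hs0 : ((s : ℕ) : ZMod p) ≠ 0 := by
      rw [Ne, ZMod.natCast_eq_zero_iff]
      exact hps
    refine ⟨((((q ^ w : ℕ)) : ZMod p) / (s : ZMod p)).val, ?_⟩
    rw [← ZMod.natCast_eq_natCast_iff]
    rw [Nat.cast_mul, ZMod.natCast_zmod_val]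
    field_simp
  refine ⟨o * e1 * i, ?_⟩
  have hpn : p ∣ n1 := by
    rw [hn1]
    have : p ^ (k - 1) = p * p ^ (k - 2) := by
      rw [← pow_succ']
      congr 1
      omega
    rw [this]
    exact ⟨4 * (p ^ (k - 2) * m), by ring⟩
  have hB := lteB g n1 p s hgs hpn i
  rw [hmod, ← hpn1, htp]
  have h7 : q ^ (o * e1 * i) = g ^ i := by
    rw [hg, ha, ← pow_mul, ← pow_mul, mul_assoc]
  rw [h7]
  refine hB.trans ?_
  have h8 : 1 + 4 * (q ^ w * (p ^ (k - 1) * m)) = 1 + n1 * (q ^ w) := by rw [hn1]; ring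
  rw [h8, mul_assoc]
  refine Nat.ModEq.add_left 1 ?_
  have h9 := Nat.ModEq.mul_left' n1 hi
  rwa [mul_comm n1 p] at h9

end Pool.MP_66c627_co.Pw
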