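import Pool.Agent.Work.MP_66c627_co.Stmts2

/-! Item PARS: the Parseval bound. -/

namespace Pool.MP_66c627_co.Pw

theorem pars_geom (F : ℕ) (w : ℂ) (h1 : w ^ F = 1) (h2 : w ≠ 1) :
    ∑ a ∈ Finset.range F, w ^ a = 0 := by
  have h := geom_sum_mul w F
  rw [h1, sub_self] at h
  rcases mul_eq_zero.mp h with h3 | h3
  · exact h3
  · exact absurd (sub_eq_zero.mp h3) h2

theorem pars_inner (F : ℕ) (ζ : ℂ) (hF : 0 < F) (hz : IsPrimitiveRoot ζ F) (j l : ℕ) (hj : j < F)
    (hl : l < F) : ∑ a ∈ Finset.range F, (starRingEnd ℂ) ((ζ ^ a) ^ j) * (ζ ^ a) ^ l =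
      if j = l then (F : ℂ) else 0 := by
  have hn : ‖ζ‖ = 1 := Complex.norm_eq_one_of_pow_eq_one hz.pow_eq_one hF.ne'
  have hc : (starRingEnd ℂ) ζ * ζ = 1 := by
    rw [← Complex.normSq_eq_conj_mul_self, Complex.normSq_eq_norm_sq, hn]; simp
  have ht : ∀ a : ℕ, (starRingEnd ℂ) ((ζ ^ a) ^ j) * (ζ ^ a) ^ l =
      (((starRingEnd ℂ) ζ) ^ j * ζ ^ l) ^ a := by
    intro a
    rw [map_pow, map_pow, mul_pow, ← pow_mul, ← pow_mul, ← pow_mul, ← pow_mul, mul_comm a j,
      mul_comm a l]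
  rw [Finset.sum_congr rfl fun a _ => ht a]
  split_ifs with h
  · subst h
    rw [← mul_pow, hc, one_pow]
    simp
  · apply pars_geom
    · have h1 : ((starRingEnd ℂ) ζ) ^ F = 1 := by
        rw [← map_pow, hz.pow_eq_one, map_one]
      rw [mul_pow, ← pow_mul, ← pow_mul, mul_comm j F, mul_comm l F, pow_mul, pow_mul, h1,
        hz.pow_eq_one, one_pow, one_pow, one_mul]
    · intro h1
      apply h
      have h2 : ζ ^ l = ζ ^ j := by
        have h3 : ζ ^ j * (((starRingEnd ℂ) ζ) ^ j * ζ ^ l) = ζ ^ j := by rw [h1, mul_one]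
        have h4 : ζ ^ j * ((starRingEnd ℂ) ζ) ^ j = 1 := by
          rw [← mul_pow, mul_comm, hc, one_pow]
        rw [← mul_assoc, h4, one_mul] at h3
        exact h3
      exact (hz.pow_inj hl hj h2).symm

theorem pars_parseval (F : ℕ) (ζ : ℂ) (hF : 0 < F) (hz : IsPrimitiveRoot ζ F) (g : ℕ → ℂ) :
    ∑ a ∈ Finset.range F, Complex.normSq (∑ j ∈ Finset.range F, g j * (ζ ^ a) ^ j) =
      F * ∑ j ∈ Finset.range F, Complex.normSq (g j) := by
  apply Complex.ofReal_injective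
  push_cast
  simp_rw [Complex.normSq_eq_conj_mul_self, map_sum, Finset.sum_mul_sum, map_mul]
  rw [Finset.sum_comm]
  rw [Finset.mul_sum]
  refine Finset.sum_congr rfl fun j hj => ?_
  rw [Finset.sum_comm]
  have h1 : ∀ l ∈ Finset.range F, ∑ a ∈ Finset.range F,
      (starRingEnd ℂ) (g j) * (starRingEnd ℂ) ((ζ ^ a) ^ j) * (g l * (ζ ^ a) ^ l) =
      (starRingEnd ℂ) (g j) * g l * (if j = l then (F : ℂ) else 0) := by
    intro l hl
    rw [← pars_inner F ζ hF hz j l (Finset.mem_range.mp hj) (Finset.mem_range.mp hl),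
      Finset.mul_sum]
    refine Finset.sum_congr rfl fun a _ => ?_
    ring
  rw [Finset.sum_congr rfl h1]
  simp only [mul_ite, mul_zero]
  rw [Finset.sum_ite_eq, if_pos hj]
  ring

theorem pars : S_Pars := by
  intro F v G hF h4 hv
  have hz := Complex.isPrimitiveRoot_exp F hF.ne'
  set ζ := Complex.exp (2 * Real.pi * Complex.I / F) with hζ
  have h1 : ∀ e : ZMod 2 × ZMod 2, (Nat.totient F : ℝ) * v ≤
      F * ∑ j ∈ Finset.range F, Complex.normSq (G e j) := by
    intro e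
    rw [← pars_parseval F ζ hF hz (G e)]
    have h2 : (Nat.totient F : ℝ) * v = ∑ a ∈ (Finset.range F).filter (Nat.Coprime F), (v : ℝ) := by
      rw [Finset.sum_const, nsmul_eq_mul, Nat.totient_eq_card_coprime]
    rw [h2]
    calc ∑ a ∈ (Finset.range F).filter (Nat.Coprime F), (v : ℝ)
        = ∑ a ∈ (Finset.range F).filter (Nat.Coprime F),
            Complex.normSq (∑ j ∈ Finset.range F, G e j * (ζ ^ a) ^ j) := by
          refine Finset.sum_congr rfl fun a ha => ?_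
          rw [Finset.mem_filter] at ha
          exact (hv e (ζ ^ a) (hz.pow_of_coprime a ha.2.symm)).symm
      _ ≤ _ := Finset.sum_le_sum_of_subset_of_nonneg (Finset.filter_subset _ _)
          fun a _ _ => Complex.normSq_nonneg _
  have h2 : ∑ e : ZMod 2 × ZMod 2, ((Nat.totient F : ℝ) * v) ≤
      ∑ e : ZMod 2 × ZMod 2, F * ∑ j ∈ Finset.range F, Complex.normSq (G e j) :=
    Finset.sum_le_sum fun e _ => h1 e
  have h5 : ∑ e : ZMod 2 × ZMod 2, (F : ℝ) * ∑ j ∈ Finset.range F, Complex.normSq (G e j) =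
      F * (F * 4) := by
    rw [← Finset.mul_sum, Finset.sum_comm,
      Finset.sum_congr rfl fun j hj => h4 j (Finset.mem_range.mp hj), Finset.sum_const,
      Finset.card_range, nsmul_eq_mul]
  rw [h5, Finset.sum_const, Finset.card_univ, Fintype.card_prod, ZMod.card, nsmul_eq_mul] at h2
  have h3 : ((Nat.totient F * v : ℕ) : ℝ) ≤ ((F ^ 2 : ℕ) : ℝ) := by
    push_cast
    push_cast at h2
    nlinarith
  exact_mod_cast h3

end Pool.MP_66c627_co.Pw
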