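import Pool.Agent.Work.MP_66c627_co.Stmts2

namespace Pool.MP_66c627_co.Pw

theorem sc : S_SC := by
  intro m p j hm h
  have hm0 : m ≠ 0 := by
    rintro rfl
    exact absurd hm (by decide)
  rw [pow_mul]
  generalize p ^ j = x at h ⊢
  have hdx : x + 1 ∣ x ^ m + 1 := by
    have := Odd.nat_add_dvd_pow_add_pow x 1 hm
    rwa [one_pow] at this
  have h4 : 4 ∣ x ^ m + 1 := (Dvd.dvd.trans (Dvd.intro _ rfl) h).trans hdx
  have hmm : m ∣ x ^ m + 1 := by
    rw [← Nat.factorization_le_iff_dvd hm0 (show x ^ m + 1 ≠ 0 from Nat.succ_ne_zero _)]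
    intro l
    by_cases hl : l.Prime
    · by_cases hlm : l ∣ m
      · have : Fact l.Prime := ⟨hl⟩
        have hlodd : Odd l := Odd.of_dvd_nat hm hlm
        have hlx : l ∣ x + 1 := by
          have h1 : l ∣ ∏ r ∈ m.primeFactors, r :=
            Finset.dvd_prod_of_mem _ (Nat.mem_primeFactors.2 ⟨hl, hlm, hm0⟩)
          exact (h1.trans (Dvd.intro_left _ rfl)).trans h
        have hlnx : ¬ l ∣ x := by
          intro hx
          have := (Nat.dvd_add_right hx).1 hlx
          exact hl.one_lt.ne' (Nat.dvd_one.1 this)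
        have h2 := padicValNat.pow_add_pow hlodd hlx hlnx hm
        rw [one_pow] at h2
        rw [Nat.factorization_def _ hl, Nat.factorization_def _ hl, h2]
        omega
      · rw [Nat.factorization_eq_zero_of_not_dvd hlm]
        exact Nat.zero_le _
    · rw [Nat.factorization_eq_zero_of_not_prime _ hl]
      exact Nat.zero_le _
  have hcop : Nat.Coprime 4 m := by
    have : Nat.Coprime 2 m := (Nat.coprime_two_left).2 hm
    have h3 := Nat.Coprime.pow_left 2 this
    exact h3
  exact Nat.Coprime.mul_dvd_of_dvd_of_dvd hcop h4 hmm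

end Pool.MP_66c627_co.Pw
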