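import Pool.Agent.Work.MP_66c627_co.Stmts2

/-! The self-conjugate case is impossible. -/

namespace Pool.MP_66c627_co.Pw

namespace TurAux

open Polynomial

/-- the element of the group ring with coefficients `d` -/
noncomputable def T {H : Type} [AddCommGroup H] [Fintype H] (d : H → GaussianInt) :
    AddMonoidAlgebra GaussianInt H := ∑ h, AddMonoidAlgebra.single h (d h)

/-- the conjugate element -/
noncomputable def Ts {H : Type} [AddCommGroup H] [Fintype H] (d : H → GaussianInt) :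
    AddMonoidAlgebra GaussianInt H := ∑ h, AddMonoidAlgebra.single (-h) (star (d h))

theorem gauss_conj (p : ℕ) (hp : p.Prime) (f : ℕ) (j : ℕ) (hq : p ^ f + 1 = 4 * j)
    (r : GaussianInt) : (p : GaussianInt) ∣ r ^ (p ^ f) - star r := by
  have : Fact p.Prime := ⟨hp⟩
  have hZ : ∀ x : ℤ, (p : ℤ) ∣ x ^ (p ^ f) - x := by
    intro x
    rw [← ZMod.intCast_zmod_eq_zero_iff_dvd]
    push_cast
    rw [ZMod.pow_card_pow, sub_self]
  obtain ⟨x, y⟩ := r
  have h1 : (⟨x, y⟩ : GaussianInt) = (x : GaussianInt) + (y : GaussianInt) * ⟨0, 1⟩ := by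
    apply Zsqrtd.ext <;> simp
  have h1' : star (⟨x, y⟩ : GaussianInt) = (x : GaussianInt) + (y : GaussianInt) * ⟨0, -1⟩ := by
    apply Zsqrtd.ext <;> simp
  have h2 : ((⟨0, 1⟩ : GaussianInt)) ^ (p ^ f) = ⟨0, -1⟩ := by
    have hj : p ^ f = 4 * (j - 1) + 3 := by omega
    rw [hj, pow_add, pow_mul]
    have : ((⟨0, 1⟩ : GaussianInt)) ^ 4 = 1 := by decide
    rw [this, one_pow, one_mul]
    decide
  obtain ⟨w, hw⟩ := exists_add_pow_prime_pow_eq hp (x : GaussianInt)
    ((y : GaussianInt) * ⟨0, 1⟩) f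
  obtain ⟨a, ha⟩ := hZ x
  obtain ⟨b, hb⟩ := hZ y
  have ha' : (x : GaussianInt) ^ (p ^ f) - x = (p : GaussianInt) * a := by
    exact_mod_cast congrArg (Int.cast : ℤ → GaussianInt) ha
  have hb' : (y : GaussianInt) ^ (p ^ f) - y = (p : GaussianInt) * b := by
    exact_mod_cast congrArg (Int.cast : ℤ → GaussianInt) hb
  rw [h1', h1, hw, mul_pow, h2]
  refine ⟨a + b * ⟨0, -1⟩ + x * (y * ⟨0, 1⟩) * w, ?_⟩
  linear_combination ha' + (⟨0, -1⟩ : GaussianInt) * hb'

theorem group_conj {H : Type} [AddCommGroup H] [Fintype H] (p : ℕ) (hp : p.Prime) (f : ℕ)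
    (e : ℕ) (he : ∀ h : H, e • h = 0) (h4 : 4 ∣ e) (hq : e ∣ p ^ f + 1)
    (d : H → GaussianInt) (s : Finset H) :
    (p : AddMonoidAlgebra GaussianInt H) ∣ (∑ h ∈ s, AddMonoidAlgebra.single h (d h)) ^ (p ^ f) -
      ∑ h ∈ s, AddMonoidAlgebra.single (-h) (star (d h)) := by
  classical
  induction s using Finset.induction_on with
  | empty =>
    rw [Finset.sum_empty, Finset.sum_empty, zero_pow (pow_pos hp.pos f).ne', sub_self]
    exact dvd_zero _
  | insert m s hm ih =>
    rw [Finset.sum_insert hm, Finset.sum_insert hm]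
    obtain ⟨w, hw⟩ := exists_add_pow_prime_pow_eq hp
      (AddMonoidAlgebra.single m (d m) : AddMonoidAlgebra GaussianInt H)
      (∑ h ∈ s, AddMonoidAlgebra.single h (d h)) f
    obtain ⟨b, hb⟩ := ih
    obtain ⟨k, rfl⟩ := h4
    obtain ⟨j, hj⟩ := hq
    obtain ⟨y, hy⟩ := gauss_conj p hp f (k * j) (by rw [hj]; ring) (d m)
    have h1 : (p ^ f) • m = -m := by
      have h2 : (p ^ f + 1) • m = 0 := by
        rw [hj, mul_comm, mul_smul, he, smul_zero]
      rw [add_smul, one_smul] at h2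
      exact eq_neg_of_add_eq_zero_left h2
    have h3 : (AddMonoidAlgebra.single m (d m) : AddMonoidAlgebra GaussianInt H) ^ (p ^ f) -
        AddMonoidAlgebra.single (-m) (star (d m)) =
        (p : AddMonoidAlgebra GaussianInt H) * AddMonoidAlgebra.single (-m) y := by
      rw [AddMonoidAlgebra.single_pow, h1]
      have h2 : (AddMonoidAlgebra.single (-m) ((d m) ^ (p ^ f)) -
          AddMonoidAlgebra.single (-m) (star (d m)) : AddMonoidAlgebra GaussianInt H) =
          AddMonoidAlgebra.single (-m) ((d m) ^ (p ^ f) - star (d m)) := by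
        rw [sub_eq_iff_eq_add, ← AddMonoidAlgebra.single_add, sub_add_cancel]
      rw [h2, hy, AddMonoidAlgebra.natCast_def, AddMonoidAlgebra.single_mul_single, zero_add]
    rw [hw]
    refine ⟨AddMonoidAlgebra.single (-m) y + b + AddMonoidAlgebra.single m (d m) *
      (∑ h ∈ s, AddMonoidAlgebra.single h (d h)) * w, ?_⟩
    linear_combination h3 + hb

theorem dvd_of_pow {H : Type} [AddCommGroup H] (p : ℕ) (hp : p.Prime) (f : ℕ) (j e : ℕ)
    (he : ∀ h : H, e • h = 0) (h4 : 4 ∣ e) (hq : p ^ f = e * j + 1) (hq2 : 2 ≤ p ^ f)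
    (E : AddMonoidAlgebra GaussianInt H) (N : ℕ)
    (hE : (p : AddMonoidAlgebra GaussianInt H) ∣ E ^ N) :
    (p : AddMonoidAlgebra GaussianInt H) ∣ E := by
  have h1 : ∀ s : ℕ, (p : AddMonoidAlgebra GaussianInt H) ∣ E ^ ((p ^ f) ^ s) - E := by
    intro s
    induction s with
    | zero => rw [pow_zero, pow_one, sub_self]; exact dvd_zero _
    | succ s ih =>
      have h2 := group_frob p hp f j e he h4 hq (E ^ ((p ^ f) ^ s))
      rw [pow_succ, pow_mul]
      have h3 := dvd_add h2 ih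
      rwa [sub_add_sub_cancel] at h3
  have h2 : N ≤ (p ^ f) ^ N := (Nat.lt_pow_self hq2).le
  have h3 : (p : AddMonoidAlgebra GaussianInt H) ∣ E ^ ((p ^ f) ^ N) :=
    hE.trans (pow_dvd_pow E h2)
  have h4 := dvd_sub h3 (h1 N)
  rwa [sub_sub_cancel] at h4

theorem reg_pow {H : Type} [AddCommGroup H] (p : ℕ) (hp : p.Prime) (i : ℕ)
    (x : AddMonoidAlgebra GaussianInt H)
    (hx : (p : AddMonoidAlgebra GaussianInt H) ^ i * x = 0) : x = 0 := by
  induction i with
  | zero => simpa using hx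
  | succ i ih =>
    apply ih
    apply group_reg p hp
    rw [← hx]
    ring

theorem T_coeff {H : Type} [AddCommGroup H] [Fintype H] (d : H → GaussianInt) (h : H) :
    (T d).coeff h = d h := by
  classical
  unfold T
  rw [AddMonoidAlgebra.coeff_sum, Finsupp.finsetSum_apply, Finset.sum_eq_single h]
  · rw [AddMonoidAlgebra.coeff_single, Finsupp.single_eq_same]
  · intro h' _ hne
    rw [AddMonoidAlgebra.coeff_single, Finsupp.single_apply, if_neg hne]
  · intro h2
    exact absurd (Finset.mem_univ _) h2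

theorem T_smul {H : Type} [AddCommGroup H] [Fintype H] (p i : ℕ) (d d' : H → GaussianInt)
    (hd : ∀ h, d h = (p : GaussianInt) ^ i * d' h) :
    T d = (p : AddMonoidAlgebra GaussianInt H) ^ i * T d' := by
  unfold T
  rw [Finset.mul_sum]
  refine Finset.sum_congr rfl fun h _ => ?_
  rw [AddMonoidAlgebra.natCast_def, AddMonoidAlgebra.single_pow, smul_zero,
    AddMonoidAlgebra.single_mul_single, zero_add, hd]

theorem Ts_smul {H : Type} [AddCommGroup H] [Fintype H] (p i : ℕ) (d d' : H → GaussianInt)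
    (hd : ∀ h, d h = (p : GaussianInt) ^ i * d' h) :
    Ts d = (p : AddMonoidAlgebra GaussianInt H) ^ i * Ts d' := by
  unfold Ts
  rw [Finset.mul_sum]
  refine Finset.sum_congr rfl fun h _ => ?_
  rw [AddMonoidAlgebra.natCast_def, AddMonoidAlgebra.single_pow, smul_zero,
    AddMonoidAlgebra.single_mul_single, zero_add, hd, star_mul', star_pow]
  congr 2

theorem mul_dvd {H : Type} [AddCommGroup H] [Fintype H] [DecidableEq H] (p : ℕ) (hp : p.Prime)
    (e : ℕ) (he : ∀ h : H, e • h = 0) (h4 : 4 ∣ e)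
    (hpe : Nat.Coprime p e) (n : ℕ) [NeZero (p ^ (n + 1))]
    (f : ZMod (p ^ (n + 1)) → H → GaussianInt) (v : ℕ) (hv : Nat.Coprime p v)
    (hAC : ∀ (s : ZMod (p ^ (n + 1))) (h0 : H), ∑ a, ∑ h, f (a + s) (h + h0) * star (f a h) =
      if s = 0 ∧ h0 = 0 then ((p ^ (n + 1) * v : ℕ) : GaussianInt) else 0) (c : ZMod p) :
    (p : AddMonoidAlgebra GaussianInt H) ^ (n + 1) ∣ T (dd p f c) * Ts (dd p f c) := by
  have hepos : 0 < e := by
    rcases Nat.eq_zero_or_pos e with h | h
    · subst h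
      rw [Nat.coprime_zero_right] at hpe
      exact absurd hpe hp.one_lt.ne'
    · exact h
  have hmod : p ^ (Nat.totient e) ≡ 1 [MOD e] := Nat.ModEq.pow_totient hpe
  have hge : 1 ≤ p ^ (Nat.totient e) := Nat.one_le_pow _ _ hp.pos
  obtain ⟨j, hj⟩ := (Nat.modEq_iff_dvd' hge).mp hmod.symm
  have hq : p ^ (Nat.totient e) = e * j + 1 := by omega
  have hq2 : 2 ≤ p ^ (Nat.totient e) := by
    have h1 : 0 < Nat.totient e := Nat.totient_pos.mpr hepos
    calc 2 ≤ p := hp.two_le
      _ = p ^ 1 := (pow_one p).symm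
      _ ≤ p ^ (Nat.totient e) := Nat.pow_le_pow_right hp.pos h1
  obtain ⟨w, hw⟩ : ∃ w : ℤ, (p : ℤ) ∣ (v : ℤ) * w - 1 := by
    have h1 : IsCoprime (p : ℤ) (v : ℤ) := Nat.isCoprime_iff_coprime.mpr hv
    obtain ⟨a, b, hab⟩ := h1
    exact ⟨b, -a, by linear_combination hab⟩
  set F : (AddMonoidAlgebra GaussianInt H)[X] :=
    ∑ a : ZMod (p ^ (n + 1)), monomial a.val (Bc f a) with hF
  set G : (AddMonoidAlgebra GaussianInt H)[X] :=
    ∑ b : ZMod (p ^ (n + 1)), monomial (p ^ (n + 1) - b.val) (Bs f b) with hG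
  have hFG := conv_dvd (p ^ (n + 1)) (Bc f) (Bs f) _ (conv_B f _ hAC)
  rw [← hF, ← hG] at hFG
  have hcast : (((p ^ (n + 1) * v : ℕ)) : AddMonoidAlgebra GaussianInt H) =
      (p : AddMonoidAlgebra GaussianInt H) ^ (n + 1) *
        (v : AddMonoidAlgebra GaussianInt H) := by push_cast; ring
  rw [hcast] at hFG
  have hvw : (p : AddMonoidAlgebra GaussianInt H) ∣
      (v : AddMonoidAlgebra GaussianInt H) * (w : AddMonoidAlgebra GaussianInt H) - 1 := by
    obtain ⟨y, hy⟩ := hw
    exact ⟨(y : AddMonoidAlgebra GaussianInt H), by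
      exact_mod_cast congrArg (Int.cast : ℤ → AddMonoidAlgebra GaussianInt H) hy⟩
  have hmain := global_factor p hp (group_reg p hp) (p ^ (Nat.totient e)) hq2
    (group_frob p hp _ j e he h4 hq) (v : AddMonoidAlgebra GaussianInt H)
    (w : AddMonoidAlgebra GaussianInt H) hvw n F G hFG c (-c)
  have hfF : fold p c F = ∑ h, AddMonoidAlgebra.single h (dd p f c h) := by
    rw [hF, map_sum]
    simp only [fold_monomial]
    have h1 : ∀ h : H, AddMonoidAlgebra.single h (dd p f c h) =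
        ∑ a : ZMod (p ^ (n + 1)), AddMonoidAlgebra.single h
          (if ((a.val : ℕ) : ZMod p) = c then f a h else 0) := by
      intro h
      exact map_sum (AddMonoidAlgebra.singleAddHom h) _ _
    rw [Finset.sum_congr rfl (fun h _ => h1 h), Finset.sum_comm]
    refine Finset.sum_congr rfl fun a _ => ?_
    by_cases ha : ((a.val : ℕ) : ZMod p) = c
    · simp only [if_pos ha]; rfl
    · simp only [if_neg ha, AddMonoidAlgebra.single_zero, Finset.sum_const_zero]
  have hfG : fold p (-c) G = ∑ h, AddMonoidAlgebra.single (-h) (star (dd p f c h)) := by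
    rw [hG, map_sum]
    simp only [fold_monomial]
    have h1 : ∀ h : H, AddMonoidAlgebra.single (-h) (star (dd p f c h)) =
        ∑ a : ZMod (p ^ (n + 1)), AddMonoidAlgebra.single (-h)
          (if ((a.val : ℕ) : ZMod p) = c then star (f a h) else 0) := by
      intro h
      unfold dd
      rw [star_sum]
      have h2 : ∀ a : ZMod (p ^ (n + 1)), star (if ((a.val : ℕ) : ZMod p) = c then f a h else 0) =
          if ((a.val : ℕ) : ZMod p) = c then star (f a h) else 0 := by
        intro a; split_ifs <;> simp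
      rw [Finset.sum_congr rfl (fun a _ => h2 a)]
      exact map_sum (AddMonoidAlgebra.singleAddHom (-h)) _ _
    rw [Finset.sum_congr rfl (fun h _ => h1 h), Finset.sum_comm]
    refine Finset.sum_congr rfl fun a _ => ?_
    have hiff : (((p ^ (n + 1) - a.val : ℕ) : ZMod p) = -c) ↔ (((a.val : ℕ) : ZMod p) = c) := by
      have hb : a.val ≤ p ^ (n + 1) := (ZMod.val_lt a).le
      rw [Nat.cast_sub hb]
      have : ((p ^ (n + 1) : ℕ) : ZMod p) = 0 := by
        push_cast
        rw [ZMod.natCast_self, zero_pow (by omega)]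
      rw [this, zero_sub, neg_inj]
    by_cases ha : ((a.val : ℕ) : ZMod p) = c
    · rw [if_pos (hiff.mpr ha)]; simp only [if_pos ha]; rfl
    · rw [if_neg (fun h => ha (hiff.mp h))]
      simp only [if_neg ha, AddMonoidAlgebra.single_zero, Finset.sum_const_zero]
  rw [hfF, hfG] at hmain
  exact hmain

theorem T_dvd {H : Type} [AddCommGroup H] [Fintype H] (p : ℕ) (d : H → GaussianInt)
    (hd : (p : AddMonoidAlgebra GaussianInt H) ∣ T d) :
    ∃ d' : H → GaussianInt, ∀ h, d h = (p : GaussianInt) * d' h := by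
  obtain ⟨y, hy⟩ := hd
  refine ⟨fun h => y.coeff h, fun h => ?_⟩
  have h1 := congrArg (fun z : AddMonoidAlgebra GaussianInt H => z.coeff h) hy
  simp only [AddMonoidAlgebra.natCast_def, AddMonoidAlgebra.coeff_single_zero_mul] at h1
  rw [T_coeff] at h1
  exact h1

end TurAux

theorem tur : S_Tur := by
  intro H _ _ _ p hp hodd e he h4 hpe m hcard hpm hm n _ f hf hAC j hj
  have : NeZero p := ⟨hp.ne_zero⟩
  have hepos : 0 < e := by
    rcases Nat.eq_zero_or_pos e with h | h
    · subst h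
      rw [Nat.coprime_zero_right] at hpe
      exact absurd hpe hp.one_lt.ne'
    · exact h
  have hmod : p ^ (Nat.totient e) ≡ 1 [MOD e] := Nat.ModEq.pow_totient hpe
  have hge : 1 ≤ p ^ (Nat.totient e) := Nat.one_le_pow _ _ hp.pos
  obtain ⟨J, hJ⟩ := (Nat.modEq_iff_dvd' hge).mp hmod.symm
  have hq : p ^ (Nat.totient e) = e * J + 1 := by omega
  have hq2 : 2 ≤ p ^ (Nat.totient e) := by
    have h1 : 0 < Nat.totient e := Nat.totient_pos.mpr hepos
    calc 2 ≤ p := hp.two_le
      _ = p ^ 1 := (pow_one p).symm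
      _ ≤ p ^ (Nat.totient e) := Nat.pow_le_pow_right hp.pos h1
  have hnorm := dd_norm_mod p hp hodd n f hf
  -- divisibility of the coefficients
  have hkey : ∀ c : ZMod p, ∀ i : ℕ, 2 * i ≤ n + 2 →
      ∃ d' : H → GaussianInt, ∀ h, dd p f c h = (p : GaussianInt) ^ i * d' h := by
    intro c i
    induction i with
    | zero => intro _; exact ⟨dd p f c, fun h => by simp⟩
    | succ i ih =>
      intro hi
      obtain ⟨d', hd'⟩ := ih (by omega)
      obtain ⟨y, hy⟩ := TurAux.mul_dvd p hp e he h4 hpe n f (4 * m) hpm hAC c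
      rw [TurAux.T_smul p i _ d' hd', TurAux.Ts_smul p i _ d' hd'] at hy
      obtain ⟨r, hr⟩ : ∃ r, n + 1 = 2 * i + (r + 1) := ⟨n - 2 * i, by omega⟩
      have h1 : (p : AddMonoidAlgebra GaussianInt H) ^ (2 * i) *
          (TurAux.T d' * TurAux.Ts d' - (p : AddMonoidAlgebra GaussianInt H) ^ (r + 1) * y) = 0 := by
        rw [hr] at hy
        rw [mul_sub, sub_eq_zero]
        calc (p : AddMonoidAlgebra GaussianInt H) ^ (2 * i) * (TurAux.T d' * TurAux.Ts d')
            = (p : AddMonoidAlgebra GaussianInt H) ^ i * TurAux.T d' *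
              ((p : AddMonoidAlgebra GaussianInt H) ^ i * TurAux.Ts d') := by ring
          _ = (p : AddMonoidAlgebra GaussianInt H) ^ (2 * i + (r + 1)) * y := hy
          _ = _ := by ring
      have h2 := TurAux.reg_pow p hp (2 * i) _ h1
      rw [sub_eq_zero] at h2
      have h3 : (p : AddMonoidAlgebra GaussianInt H) ∣ TurAux.T d' * TurAux.Ts d' := by
        rw [h2, pow_succ']
        exact ⟨(p : AddMonoidAlgebra GaussianInt H) ^ r * y, by ring⟩
      have h5 : (p : AddMonoidAlgebra GaussianInt H) ∣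
          TurAux.T d' ^ (p ^ j) - TurAux.Ts d' :=
        TurAux.group_conj p hp j e he h4 hj d' Finset.univ
      have h6 : (p : AddMonoidAlgebra GaussianInt H) ∣ TurAux.T d' ^ (p ^ j + 1) := by
        have h7 := dvd_add (Dvd.dvd.mul_left h5 (TurAux.T d')) h3
        have h8 : TurAux.T d' * (TurAux.T d' ^ (p ^ j) - TurAux.Ts d') +
            TurAux.T d' * TurAux.Ts d' = TurAux.T d' ^ (p ^ j + 1) := by
          rw [pow_succ]
          ring
        rwa [h8] at h7
      have h9 := TurAux.dvd_of_pow p hp _ J e he h4 hq hq2 _ _ h6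
      obtain ⟨d'', hd''⟩ := TurAux.T_dvd p d' h9
      refine ⟨d'', fun h => ?_⟩
      rw [hd' h, hd'' h]
      ring
  -- lower bound for the norms
  have hlow : ∀ (c : ZMod p) (h : H), ((p : ℤ) ^ (n + 1)) ≤ (dd p f c h).norm := by
    intro c h
    obtain ⟨d', hd'⟩ := hkey c ((n + 2) / 2) (by omega)
    have h1 : (dd p f c h).norm = (p : ℤ) ^ (2 * ((n + 2) / 2)) * (d' h).norm := by
      rw [hd' h, Zsqrtd.norm_mul]
      congr 1
      have h2 : Zsqrtd.norm ((p : GaussianInt) ^ ((n + 2) / 2)) =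
          (Zsqrtd.norm (p : GaussianInt)) ^ ((n + 2) / 2) :=
        map_pow (Zsqrtd.normMonoidHom (d := -1)) _ _
      rw [h2, Zsqrtd.norm_natCast, ← pow_two, ← pow_mul]
    have h2 := hnorm c h
    have h3 : 0 ≤ (d' h).norm := GaussianInt.norm_nonneg _
    have h4' : (d' h).norm ≠ 0 := by
      intro h0
      rw [h0, mul_zero] at h1
      rw [h1] at h2
      omega
    have h5 : 1 ≤ (d' h).norm := by omega
    have hp1 : (1 : ℤ) ≤ p := by exact_mod_cast hp.one_lt.le
    calc (p : ℤ) ^ (n + 1) ≤ (p : ℤ) ^ (2 * ((n + 2) / 2)) :=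
          pow_le_pow_right₀ hp1 (by omega)
      _ = (p : ℤ) ^ (2 * ((n + 2) / 2)) * 1 := (mul_one _).symm
      _ ≤ (p : ℤ) ^ (2 * ((n + 2) / 2)) * (d' h).norm :=
          mul_le_mul_of_nonneg_left h5 (by positivity)
      _ = _ := h1.symm
  have htot := total_norm p hp n f (p ^ (n + 1) * (4 * m)) hAC
  have h7 : (p : ℤ) * (((4 * m : ℕ) : ℤ) * (p : ℤ) ^ (n + 1)) ≤
      ((p ^ (n + 1) * (4 * m) : ℕ) : ℤ) := by
    rw [← htot]
    calc (p : ℤ) * (((4 * m : ℕ) : ℤ) * (p : ℤ) ^ (n + 1)) =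
          ∑ _c : ZMod p, ∑ _h : H, (p : ℤ) ^ (n + 1) := by
          rw [Finset.sum_const, Finset.sum_const, Finset.card_univ, Finset.card_univ, ZMod.card,
            hcard]
          simp
      _ ≤ _ := Finset.sum_le_sum fun c _ => Finset.sum_le_sum fun h _ => hlow c h
  have h8 : p * ((4 * m) * p ^ (n + 1)) ≤ p ^ (n + 1) * (4 * m) := by exact_mod_cast h7
  have h9 : 0 < (4 * m) * p ^ (n + 1) := by
    have := pow_pos hp.pos (n + 1)
    positivity
  have h10 : p * ((4 * m) * p ^ (n + 1)) ≤ 1 * ((4 * m) * p ^ (n + 1)) := by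
    calc _ ≤ _ := h8
      _ = _ := by ring
  have := Nat.le_of_mul_le_mul_right h10 h9
  exact absurd hp.one_lt (by omega)

end Pool.MP_66c627_co.Pw
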